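import Mathlib

/-!
# E-T (MP_12a1af_nt), project T*: the R code (real logarithms), basic facts
-/

set_option autoImplicit false

open Finset

namespace Pool.Agent.ETS.RC

/-- content of the R code with `l` digits -/
noncomputable def Rc (l y : ℕ) : ℕ := ⌊(2:ℝ) ^ l * Real.logb 2 y⌋₊

/-- variables of the R code: the primes in `(2^(h-1), 2^h)` -/
def Yp (h : ℕ) : Finset ℕ := (Ioo (2 ^ (h-1)) (2 ^ h)).filter Nat.Prime

lemma mem_Yp {h y : ℕ} : y ∈ Yp h ↔ (2 ^ (h-1) < y ∧ y < 2 ^ h) ∧ y.Prime := by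
  simp [Yp]

lemma Yp_pos {h y : ℕ} (hy : y ∈ Yp h) : 0 < y := (mem_Yp.mp hy).2.pos

lemma card_Yp_le (h : ℕ) : (Yp h).card ≤ 2 ^ h := by
  have h1 : (Yp h).card ≤ (Ioo (2 ^ (h-1)) (2 ^ h)).card := card_filter_le _ _
  rw [Nat.card_Ioo] at h1
  exact h1.trans ((Nat.sub_le _ _).trans (Nat.sub_le _ _))

lemma logb_two_pow (h : ℕ) : Real.logb 2 ((2 ^ h : ℕ) : ℝ) = h := by
  rw [Nat.cast_pow, Nat.cast_ofNat, Real.logb_pow, Real.logb_self_eq_one (by norm_num), mul_one]

lemma logb_lt {h y : ℕ} (hy : y ∈ Yp h) : Real.logb 2 y < h := by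
  have h0 := Yp_pos hy
  rw [← logb_two_pow h]
  exact Real.logb_lt_logb (by norm_num) (by exact_mod_cast h0)
    (by exact_mod_cast (mem_Yp.mp hy).1.2)

lemma lt_logb {h y : ℕ} (hy : y ∈ Yp h) : (h : ℝ) - 1 < Real.logb 2 y := by
  have h0 := Yp_pos hy
  rcases Nat.eq_zero_or_pos h with rfl | hh
  · have := mem_Yp.mp hy
    simp at this
    omega
  have : ((h - 1 : ℕ) : ℝ) < Real.logb 2 y := by
    rw [← logb_two_pow (h-1)]
    exact Real.logb_lt_logb (by norm_num) (by positivity) (by exact_mod_cast (mem_Yp.mp hy).1.1)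
  rw [Nat.cast_sub hh] at this
  simpa using this

lemma logb_nonneg' {y : ℕ} (hy : 0 < y) : 0 ≤ Real.logb 2 y :=
  Real.logb_nonneg (by norm_num) (by exact_mod_cast hy)

lemma Rc_le {l y : ℕ} (hy : 0 < y) : (Rc l y : ℝ) ≤ 2 ^ l * Real.logb 2 y :=
  Nat.floor_le (mul_nonneg (by positivity) (logb_nonneg' hy))

lemma lt_Rc {l y : ℕ} : 2 ^ l * Real.logb 2 y < (Rc l y : ℝ) + 1 := Nat.lt_floor_add_one _

/-- restriction to the first digits -/
lemma Rc_div {k l y : ℕ} (h : k ≤ l) : Rc l y / 2 ^ (l - k) = Rc k y := by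
  unfold Rc
  rw [← Nat.floor_div_natCast]
  congr 1
  push_cast
  rw [div_eq_iff (by positivity)]
  have : (2:ℝ) ^ l = 2 ^ k * 2 ^ (l - k) := by
    rw [← pow_add]; congr 1; omega
  rw [this]; ring

lemma two_rpow_le {x : ℝ} (h0 : 0 ≤ x) (h1 : x ≤ 1) : (2:ℝ) ^ x ≤ 1 + x := by
  have := rpow_one_add_le_one_add_mul_self (s := 1) (by norm_num) h0 h1
  have e : (1:ℝ) + 1 = 2 := by norm_num
  rw [e, mul_one] at this
  exact this

lemma le_logb_one_add {x : ℝ} (h0 : 0 ≤ x) (h1 : x ≤ 1) : x ≤ Real.logb 2 (1 + x) := by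
  rw [Real.le_logb_iff_rpow_le (by norm_num) (by linarith)]
  exact two_rpow_le h0 h1

/-- the contents are separated -/
lemma Rc_sep {h l y z : ℕ} (hy : 0 < y) (hyz : y < z) (hz : z ≤ 2 ^ h) (hl : h ≤ l) :
    Rc l y + 2 ^ (l - h) ≤ Rc l z := by
  have hy' : (0:ℝ) < y := by exact_mod_cast hy
  have h1 : Real.logb 2 y + 1 / 2 ^ h ≤ Real.logb 2 z := by
    have h2 : (y:ℝ) * (1 + 1 / y) ≤ z := by
      have : (y:ℝ) + 1 ≤ z := by exact_mod_cast hyz
      rw [mul_add, mul_one, mul_one_div, div_self hy'.ne']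
      exact this
    have h3 : (1:ℝ) / 2 ^ h ≤ 1 / y := by
      apply one_div_le_one_div_of_le hy'
      have : y ≤ 2 ^ h := by omega
      exact_mod_cast this
    have h4 : (1:ℝ) / y ≤ 1 := by
      rw [div_le_one hy']
      exact_mod_cast hy
    have h5 := le_logb_one_add (x := 1 / (y:ℝ)) (by positivity) h4
    calc Real.logb 2 y + 1 / 2 ^ h ≤ Real.logb 2 y + Real.logb 2 (1 + 1 / y) := by linarith
      _ = Real.logb 2 (y * (1 + 1 / y)) := by
          rw [Real.logb_mul (by positivity) (by positivity)]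
      _ ≤ Real.logb 2 z := Real.logb_le_logb_of_le (by norm_num) (by positivity) h2
  unfold Rc
  rw [← Nat.floor_add_natCast (mul_nonneg (by positivity) (logb_nonneg' hy))]
  apply Nat.floor_mono
  push_cast
  have h6 : (2:ℝ) ^ (l - h) = 2 ^ l * (1 / 2 ^ h) := by
    rw [mul_one_div, eq_div_iff (by positivity), ← pow_add]
    congr 1; omega
  rw [h6, ← mul_add]
  exact mul_le_mul_of_nonneg_left h1 (by positivity)

lemma Rc_two_pow (l h : ℕ) : Rc l (2 ^ h) = 2 ^ l * h := by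
  unfold Rc
  rw [logb_two_pow]
  have : (2:ℝ) ^ l * h = ((2 ^ l * h : ℕ) : ℝ) := by push_cast; ring
  rw [this, Nat.floor_natCast]

lemma Rc_lt_top {h l y t : ℕ} (hy : y ∈ Yp h) (hl : h ≤ l) (ht : t < 2 ^ (l - h)) :
    Rc l y + t < 2 ^ l * h := by
  have := Rc_sep (l := l) (Yp_pos hy) (mem_Yp.mp hy).1.2 (le_refl _) hl
  rw [Rc_two_pow] at this
  omega

lemma le_Rc {h l y : ℕ} (hy : y ∈ Yp h) : 2 ^ l * (h - 1) ≤ Rc l y := by
  rw [← Rc_two_pow]
  unfold Rc
  apply Nat.floor_mono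
  refine mul_le_mul_of_nonneg_left ?_ (by positivity)
  exact Real.logb_le_logb_of_le (by norm_num) (by positivity)
    (by exact_mod_cast (mem_Yp.mp hy).1.1.le)

/-- injectivity of the contents of a region with a block -/
lemma Rc_inj {h l y z t s : ℕ} (hy : y ∈ Yp h) (hz : z ∈ Yp h) (hl : h ≤ l)
    (ht : t < 2 ^ (l - h)) (hs : s < 2 ^ (l - h))
    (he : Rc l y + t ≡ Rc l z + s [MOD 2 ^ l]) : y = z ∧ t = s := by
  have hh : 1 ≤ h := by
    rcases Nat.eq_zero_or_pos h with rfl | hh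
    · have := mem_Yp.mp hy
      simp at this
      omega
    · exact hh
  have a1 := Rc_lt_top hy hl ht
  have a2 := Rc_lt_top hz hl hs
  have b1 := le_Rc (l := l) hy
  have b2 := le_Rc (l := l) hz
  have e : 2 ^ l * h = 2 ^ l * (h - 1) + 2 ^ l := by
    obtain ⟨k, rfl⟩ : ∃ k, h = k + 1 := ⟨h - 1, by omega⟩
    simp only [Nat.add_sub_cancel]; ring
  rw [e] at a1 a2
  obtain ⟨p, hp⟩ := Nat.exists_eq_add_of_le b1
  obtain ⟨q, hq⟩ := Nat.exists_eq_add_of_le b2
  have he' : p + t ≡ q + s [MOD 2 ^ l] := by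
    rw [hp, hq, add_assoc, add_assoc] at he
    exact Nat.ModEq.add_left_cancel' _ he
  have he2 : p + t = q + s := he'.eq_of_lt_of_lt (by omega) (by omega)
  have he3 : Rc l y + t = Rc l z + s := by omega
  have hyz : y = z := by
    rcases lt_trichotomy y z with hlt | heq | hgt
    · have := Rc_sep (l := l) (Yp_pos hy) hlt (mem_Yp.mp hz).1.2.le hl
      omega
    · exact heq
    · have := Rc_sep (l := l) (Yp_pos hz) hgt (mem_Yp.mp hy).1.2.le hl
      omega
  subst hyz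
  exact ⟨rfl, by omega⟩

/-- two primes are determined by their product up to the order -/
lemma prime_mul_eq {y y' z z' : ℕ} (hy : y.Prime) (hz : z.Prime)
    (hz' : z'.Prime) (h : y * y' = z * z') : (y = z ∧ y' = z') ∨ (y = z' ∧ y' = z) := by
  have h1 : y ∣ z * z' := ⟨y', h.symm⟩
  rcases (Nat.Prime.dvd_mul hy).mp h1 with h2 | h2
  · have h3 := (Nat.prime_dvd_prime_iff_eq hy hz).mp h2
    subst h3
    exact Or.inl ⟨rfl, Nat.eq_of_mul_eq_mul_left hy.pos h⟩
  · have h3 := (Nat.prime_dvd_prime_iff_eq hy hz').mp h2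
    subst h3
    refine Or.inr ⟨rfl, ?_⟩
    rw [mul_comm z y] at h
    exact Nat.eq_of_mul_eq_mul_left hy.pos h

/-- pairs of primes with products in a given set -/
lemma card_pairs_le (D : Finset (ℕ × ℕ)) (T : Finset ℕ)
    (hD : ∀ p ∈ D, p.1.Prime ∧ p.2.Prime ∧ p.1 * p.2 ∈ T) : D.card ≤ 2 * T.card := by
  classical
  refine card_le_mul_card_image_of_maps_to (f := fun p : ℕ × ℕ => p.1 * p.2)
    (fun p hp => (hD p hp).2.2) 2 ?_
  intro P _
  rcases (D.filter (fun p => p.1 * p.2 = P)).eq_empty_or_nonempty with he | ⟨p₀, hp₀⟩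
  · rw [he]; simp
  · rw [mem_filter] at hp₀
    have hsub : D.filter (fun p => p.1 * p.2 = P) ⊆ {p₀, (p₀.2, p₀.1)} := by
      intro p hp
      rw [mem_filter] at hp
      have h1 := hD p hp.1
      have h2 := hD p₀ hp₀.1
      rw [mem_insert, mem_singleton]
      rcases prime_mul_eq h1.1 h2.1 h2.2.1 (hp.2.trans hp₀.2.symm) with h | h
      · exact Or.inl (Prod.ext h.1 h.2)
      · exact Or.inr (Prod.ext h.1 h.2)
    exact (card_le_card hsub).trans card_le_two

/-- integers in a short logarithmic interval -/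
lemma card_log_interval (T : Finset ℕ) (a w : ℝ) (B : ℝ) (hB : 0 ≤ B) (h0 : 0 ≤ w) (h1 : w ≤ 1)
    (hT : ∀ P ∈ T, 0 < P ∧ a ≤ Real.logb 2 P ∧ Real.logb 2 P ≤ a + w ∧ (P : ℝ) ≤ B) :
    (T.card : ℝ) ≤ 1 + B * w := by
  rcases T.eq_empty_or_nonempty with he | hne
  · rw [he]
    simp only [card_empty, Nat.cast_zero]
    positivity
  · set m := T.min' hne with hm
    have hmT : m ∈ T := T.min'_mem hne
    set M := T.max' hne with hM
    have hMT : M ∈ T := T.max'_mem hne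
    have h2 : T ⊆ Icc m M := by
      intro P hP
      rw [mem_Icc]
      exact ⟨T.min'_le P hP, T.le_max' P hP⟩
    have h3 := card_le_card h2
    rw [Nat.card_Icc] at h3
    have hmM : m ≤ M := T.min'_le M hMT
    have h4 : (T.card : ℝ) ≤ (M : ℝ) + 1 - m := by
      have : T.card + m ≤ M + 1 := by omega
      have : ((T.card + m : ℕ) : ℝ) ≤ ((M + 1 : ℕ) : ℝ) := by exact_mod_cast this
      push_cast at this
      linarith
    obtain ⟨q1, q2, q3, q4⟩ := hT m hmT
    obtain ⟨r1, r2, r3, r4⟩ := hT M hMT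
    have hm0 : (0:ℝ) < m := by exact_mod_cast q1
    have hM0 : (0:ℝ) < M := by exact_mod_cast r1
    have h5 : (M : ℝ) ≤ m * 2 ^ w := by
      have : Real.logb 2 M ≤ Real.logb 2 (m * 2 ^ w) := by
        rw [Real.logb_mul hm0.ne' (by positivity), Real.logb_rpow (by norm_num) (by norm_num)]
        linarith
      rwa [Real.logb_le_logb (by norm_num) hM0 (by positivity)] at this
    have h6 : (M : ℝ) ≤ m * (1 + w) :=
      h5.trans (mul_le_mul_of_nonneg_left (two_rpow_le h0 h1) hm0.le)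
    have h7 : (m : ℝ) * w ≤ B * w := mul_le_mul_of_nonneg_right q4 h0
    linarith

end Pool.Agent.ETS.RC
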