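import Mathlib
import Pool.Agent.Helper86.ET.R1

/-!
# E-T (MP_12a1af_nt), project T*: the R code, pairs of regions with the same top
-/

set_option autoImplicit false

open Finset

namespace Pool.Agent.ETS.RC

/-- the canonical equation of two R regions with the same top, lengths `l ≤ l'` -/
def REq (l l' ν y t y' t' : ℕ) : Prop :=
  2 ^ (l' - l) * (Rc l y + t) + (Rc l' y' + t') ≡ ν [MOD 2 ^ l']

lemma log_of_REq {l l' ν y t y' t' : ℕ} (hl : l ≤ l') (hy : 0 < y) (hy' : 0 < y')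
    (h : REq l l' ν y t y' t') :
    ∃ m : ℤ, (ν:ℝ) / 2 ^ l' + m - t / 2 ^ l - t' / 2 ^ l' ≤ Real.logb 2 y + Real.logb 2 y' ∧
      Real.logb 2 y + Real.logb 2 y' <
        (ν:ℝ) / 2 ^ l' + m - t / 2 ^ l - t' / 2 ^ l' + 1 / 2 ^ l + 1 / 2 ^ l' := by
  unfold REq at h
  have h1 := (Nat.modEq_iff_dvd.mp h.symm)
  obtain ⟨m, hm⟩ := h1
  push_cast at hm
  have hm' : (2:ℝ) ^ (l' - l) * (Rc l y + t) + (Rc l' y' + t') - ν = 2 ^ l' * m := by
    exact_mod_cast hm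
  have e1 : (2:ℝ) ^ (l' - l) = 2 ^ l' / 2 ^ l := by
    rw [eq_div_iff (by positivity), ← pow_add]; congr 1; omega
  have hp : (0:ℝ) < 2 ^ l := by positivity
  have hp' : (0:ℝ) < 2 ^ l' := by positivity
  have hsum : (Rc l y : ℝ) / 2 ^ l + Rc l' y' / 2 ^ l' = ν / 2 ^ l' + m - t / 2 ^ l - t' / 2 ^ l' := by
    rw [e1] at hm'
    field_simp at hm' ⊢
    linarith
  have a1 : (Rc l y : ℝ) / 2 ^ l ≤ Real.logb 2 y := by
    rw [div_le_iff₀ hp, mul_comm]; exact Rc_le hy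
  have a2 : Real.logb 2 y < (Rc l y : ℝ) / 2 ^ l + 1 / 2 ^ l := by
    rw [← add_div, lt_div_iff₀ hp, mul_comm]; exact lt_Rc
  have b1 : (Rc l' y' : ℝ) / 2 ^ l' ≤ Real.logb 2 y' := by
    rw [div_le_iff₀ hp', mul_comm]; exact Rc_le hy'
  have b2 : Real.logb 2 y' < (Rc l' y' : ℝ) / 2 ^ l' + 1 / 2 ^ l' := by
    rw [← add_div, lt_div_iff₀ hp', mul_comm]; exact lt_Rc
  exact ⟨m, by linarith, by linarith⟩

/-- the integer part takes at most three values -/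
lemma three_m (s β ε δ : ℝ) (h : ε + δ ≤ 1) : ∃ M₀ : ℤ, ∀ (x : ℝ) (m : ℤ), s - 2 < x → x < s →
    β + m - ε ≤ x → x ≤ β + m + δ → m = M₀ ∨ m = M₀ + 1 ∨ m = M₀ + 2 := by
  refine ⟨⌊s - 2 - β - δ⌋ + 1, fun x m h1 h2 h3 h4 => ?_⟩
  have a1 : s - 2 - β - δ < m := by linarith
  have a2 : (m:ℝ) < s - 2 - β - δ + 3 := by linarith
  have b1 : ⌊s - 2 - β - δ⌋ < m := Int.floor_lt.mpr a1
  have b2 : m < ⌊s - 2 - β - δ⌋ + 1 + 3 := by
    have := Int.lt_floor_add_one (s - 2 - β - δ)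
    have : (m:ℝ) < (⌊s - 2 - β - δ⌋ : ℝ) + 1 + 3 := by linarith
    exact_mod_cast this
  omega

lemma logb_mul_cast {y y' : ℕ} (hy : 0 < y) (hy' : 0 < y') :
    Real.logb 2 ((y * y' : ℕ) : ℝ) = Real.logb 2 y + Real.logb 2 y' := by
  push_cast
  exact Real.logb_mul (by exact_mod_cast hy.ne') (by exact_mod_cast hy'.ne')

/-- pairs of variables with the logarithm of the product near to one class modulo 1 -/
lemma card_prod {h h' : ℕ} (D : Finset (ℕ × ℕ)) (β ε δ : ℝ) (hε : 0 ≤ ε) (hδ : 0 ≤ δ)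
    (hεδ : ε + δ ≤ 1)
    (hD : ∀ p ∈ D, p.1 ∈ Yp h ∧ p.2 ∈ Yp h' ∧ ∃ m : ℤ,
      β + m - ε ≤ Real.logb 2 p.1 + Real.logb 2 p.2 ∧
      Real.logb 2 p.1 + Real.logb 2 p.2 ≤ β + m + δ) :
    (D.card : ℝ) ≤ 6 * (1 + 2 ^ (h + h') * (ε + δ)) := by
  classical
  obtain ⟨M₀, hM₀⟩ := three_m ((h:ℝ) + h') β ε δ hεδ
  let Tj : ℕ → Finset ℕ := fun j => (D.image (fun p => p.1 * p.2)).filter (fun P =>
    β + ((M₀ + j : ℤ) : ℝ) - ε ≤ Real.logb 2 P ∧ Real.logb 2 P ≤ β + ((M₀ + j : ℤ) : ℝ) + δ)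
  have hTj : ∀ j, ((Tj j).card : ℝ) ≤ 1 + 2 ^ (h + h') * (ε + δ) := by
    intro j
    refine card_log_interval (Tj j) (β + ((M₀ + j : ℤ) : ℝ) - ε) (ε + δ) (2 ^ (h + h'))
      (by positivity) (by linarith) hεδ ?_
    intro P hP
    simp only [Tj, mem_filter, mem_image] at hP
    obtain ⟨⟨p, hp, rfl⟩, h1, h2⟩ := hP
    obtain ⟨hy, hy', -⟩ := hD p hp
    refine ⟨Nat.mul_pos (Yp_pos hy) (Yp_pos hy'), h1, by linarith, ?_⟩
    have a1 := (mem_Yp.mp hy).1.2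
    have a2 := (mem_Yp.mp hy').1.2
    have : p.1 * p.2 ≤ 2 ^ h * 2 ^ h' := Nat.mul_le_mul a1.le a2.le
    rw [← pow_add] at this
    exact_mod_cast this
  have hsub : ∀ p ∈ D, p.1.Prime ∧ p.2.Prime ∧ p.1 * p.2 ∈ Tj 0 ∪ Tj 1 ∪ Tj 2 := by
    intro p hp
    obtain ⟨hy, hy', m, h1, h2⟩ := hD p hp
    refine ⟨(mem_Yp.mp hy).2, (mem_Yp.mp hy').2, ?_⟩
    have e := logb_mul_cast (Yp_pos hy) (Yp_pos hy')
    have l1 := logb_lt hy
    have l2 := logb_lt hy'
    have l3 := lt_logb hy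
    have l4 := lt_logb hy'
    have hmem : p.1 * p.2 ∈ D.image (fun p => p.1 * p.2) := mem_image_of_mem _ hp
    rcases hM₀ _ m (by linarith) (by linarith) h1 h2 with rfl | rfl | rfl
    · rw [mem_union, mem_union]; left; left
      simp only [Tj, mem_filter]
      refine ⟨hmem, ?_, ?_⟩
      · rw [e]; push_cast; linarith
      · rw [e]; push_cast; linarith
    · rw [mem_union, mem_union]; left; right
      simp only [Tj, mem_filter]
      refine ⟨hmem, ?_, ?_⟩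
      · rw [e]; push_cast; push_cast at h1; linarith
      · rw [e]; push_cast; push_cast at h2; linarith
    · rw [mem_union]; right
      simp only [Tj, mem_filter]
      refine ⟨hmem, ?_, ?_⟩
      · rw [e]; push_cast; push_cast at h1; linarith
      · rw [e]; push_cast; push_cast at h2; linarith
  have h3 := card_pairs_le D _ hsub
  have h4 : (Tj 0 ∪ Tj 1 ∪ Tj 2).card ≤ (Tj 0).card + (Tj 1).card + (Tj 2).card :=
    (card_union_le _ _).trans (Nat.add_le_add_right (card_union_le _ _) _)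
  have h5 : (D.card : ℝ) ≤ 2 * ((Tj 0).card + (Tj 1).card + (Tj 2).card) := by
    have : D.card ≤ 2 * ((Tj 0).card + (Tj 1).card + (Tj 2).card) := by omega
    exact_mod_cast this
  have := hTj 0
  have := hTj 1
  have := hTj 2
  linarith

/-- number of pairs `(y, y')` alone -/
lemma card_yy {l l' h h' ν : ℕ} (hl : l ≤ l') (D : Finset (ℕ × ℕ)) (E : ℝ) (hE : 0 ≤ E)
    (hE1 : E + 2 / 2 ^ l ≤ 1)
    (hD : ∀ p ∈ D, p.1 ∈ Yp h ∧ p.2 ∈ Yp h' ∧ ∃ t t' : ℕ,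
      (t:ℝ) / 2 ^ l + t' / 2 ^ l' ≤ E ∧ REq l l' ν p.1 t p.2 t') :
    (D.card : ℝ) ≤ 6 * (1 + 2 ^ (h + h') * (E + 2 / 2 ^ l)) := by
  refine card_prod D ((ν:ℝ) / 2 ^ l') E (2 / 2 ^ l) hE (by positivity) hE1 ?_
  intro p hp
  obtain ⟨hy, hy', t, t', ht, he⟩ := hD p hp
  obtain ⟨m, h1, h2⟩ := log_of_REq hl (Yp_pos hy) (Yp_pos hy') he
  have h3 : (1:ℝ) / 2 ^ l' ≤ 1 / 2 ^ l :=
    one_div_le_one_div_of_le (by positivity) (pow_le_pow_right₀ (by norm_num) hl)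
  have h4 : (2:ℝ) / 2 ^ l = 1 / 2 ^ l + 1 / 2 ^ l := by ring
  have h5 : (0:ℝ) ≤ (t:ℝ) / 2 ^ l := by positivity
  have h6 : (0:ℝ) ≤ (t':ℝ) / 2 ^ l' := by positivity
  refine ⟨hy, hy', m, by linarith, by rw [h4]; linarith⟩

/-- the block variable of the longer region is determined by the others -/
lemma REq_unique {l l' ν y t y' t' s' : ℕ} (ht' : t' < 2 ^ l') (hs' : s' < 2 ^ l')
    (h1 : REq l l' ν y t y' t') (h2 : REq l l' ν y t y' s') : t' = s' := by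
  unfold REq at h1 h2
  have h3 := h1.trans h2.symm
  have h4 := Nat.ModEq.add_left_cancel' _ h3
  have h5 := Nat.ModEq.add_left_cancel' _ h4
  exact h5.eq_of_lt_of_lt ht' hs'

/-- `(RR1)` : the block variable `t` of the shorter region runs through `X`, the block variable of
the longer region is smaller than `2 ^ (l' - l)` (it is `0` if the region has no block). -/
theorem card_RR1 {l l' h h' ν : ℕ} (hl : l ≤ l') (hl2 : 2 ≤ l) (X : Finset ℕ)
    (S : Finset ((ℕ × ℕ) × (ℕ × ℕ)))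
    (hS : ∀ s ∈ S, s.1.1 ∈ Yp h ∧ s.1.2 ∈ X ∧ s.2.1 ∈ Yp h' ∧ s.2.2 < 2 ^ (l' - l) ∧
      REq l l' ν s.1.1 s.1.2 s.2.1 s.2.2) :
    (S.card : ℝ) ≤ X.card * (6 * (1 + 3 * 2 ^ (h + h') / 2 ^ l)) := by
  classical
  have h1 : S.card = ∑ t ∈ X, (S.filter (fun s => s.1.2 = t)).card :=
    card_eq_sum_card_fiberwise (f := fun s : (ℕ × ℕ) × (ℕ × ℕ) => s.1.2) (t := X)
      (fun s hs => (hS s hs).2.1)
  rw [h1]
  push_cast
  rw [← nsmul_eq_mul, ← Finset.sum_const]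
  refine Finset.sum_le_sum (fun t _ => ?_)
  set St := S.filter (fun s => s.1.2 = t) with hSt
  have hinj : Set.InjOn (fun s : (ℕ × ℕ) × (ℕ × ℕ) => (s.1.1, s.2.1)) St := by
    intro s hs r hr he
    simp only [hSt, coe_filter, Set.mem_ofPred_eq] at hs hr
    simp only [Prod.mk.injEq] at he
    have hs1 := hS s hs.1
    have hr1 := hS r hr.1
    have e1 : s.1 = r.1 := Prod.ext he.1 (hs.2.trans hr.2.symm)
    have hle : 2 ^ (l' - l) ≤ 2 ^ l' := Nat.pow_le_pow_right (by norm_num) (Nat.sub_le _ _)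
    have e2 : s.2.2 = r.2.2 := by
      have h3 := hs1.2.2.2.2
      have h4 := hr1.2.2.2.2
      rw [e1, he.2] at h3
      exact REq_unique (lt_of_lt_of_le hs1.2.2.2.1 hle) (lt_of_lt_of_le hr1.2.2.2.1 hle) h3 h4
    exact Prod.ext e1 (Prod.ext he.2 e2)
  rw [← card_image_of_injOn hinj]
  have h2 : (2:ℝ) ^ l ≥ 4 := by
    calc (2:ℝ) ^ l ≥ 2 ^ 2 := pow_le_pow_right₀ (by norm_num) hl2
      _ = 4 := by norm_num
  have h3 := card_prod (h := h) (h' := h') (St.image (fun s => (s.1.1, s.2.1)))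
    ((ν:ℝ) / 2 ^ l' - t / 2 ^ l) (1 / 2 ^ l) (2 / 2 ^ l) (by positivity) (by positivity)
    (by
      rw [← add_div, div_le_one (by positivity)]
      linarith) ?_
  · refine h3.trans (le_of_eq ?_)
    ring
  · intro p hp
    rw [mem_image] at hp
    obtain ⟨s, hs, rfl⟩ := hp
    rw [hSt, mem_filter] at hs
    obtain ⟨hy, -, hy', ht', he⟩ := hS s hs.1
    obtain ⟨m, a1, a2⟩ := log_of_REq hl (Yp_pos hy) (Yp_pos hy') he
    refine ⟨hy, hy', m, ?_, ?_⟩
    · have : (s.2.2 : ℝ) / 2 ^ l' ≤ 1 / 2 ^ l := by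
        rw [div_le_div_iff₀ (by positivity) (by positivity)]
        have h5 : s.2.2 * 2 ^ l ≤ 2 ^ l' := by
          calc s.2.2 * 2 ^ l ≤ 2 ^ (l' - l) * 2 ^ l := Nat.mul_le_mul_right _ ht'.le
            _ = 2 ^ l' := by rw [← pow_add]; congr 1; omega
        have : (s.2.2 : ℝ) * 2 ^ l ≤ 2 ^ l' := by exact_mod_cast h5
        linarith
      rw [hs.2] at a1
      simp only
      linarith
    · have h3 : (1:ℝ) / 2 ^ l' ≤ 1 / 2 ^ l :=
        one_div_le_one_div_of_le (by positivity) (pow_le_pow_right₀ (by norm_num) hl)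
      have h4 : (2:ℝ) / 2 ^ l = 1 / 2 ^ l + 1 / 2 ^ l := by ring
      have h6 : (0:ℝ) ≤ (s.2.2:ℝ) / 2 ^ l' := by positivity
      rw [hs.2] at a2
      rw [h4]
      simp only
      linarith

/-- `(RR3)` : both regions have the same bottom and blocks of width at most `W`. -/
theorem card_RR3 {l h h' ν W r : ℕ} (hW : W + 2 ≤ l) (hh : h + h' + W ≤ l) (X X' : Finset ℕ)
    (hX : ∀ t ∈ X, t < 2 ^ W) (hX' : ∀ t ∈ X', t < 2 ^ W)
    (hr : ∀ s, ((X ×ˢ X').filter (fun p => p.1 + p.2 = s)).card ≤ r)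
    (S : Finset ((ℕ × ℕ) × (ℕ × ℕ)))
    (hS : ∀ s ∈ S, s.1.1 ∈ Yp h ∧ s.1.2 ∈ X ∧ s.2.1 ∈ Yp h' ∧ s.2.2 ∈ X' ∧
      REq l l ν s.1.1 s.1.2 s.2.1 s.2.2) :
    S.card ≤ 30 * r := by
  classical
  set D := S.image (fun s => (s.1.1, s.2.1)) with hD
  have hWl : (4:ℝ) * 2 ^ W ≤ 2 ^ l := by
    calc (4:ℝ) * 2 ^ W = 2 ^ (W + 2) := by rw [pow_add]; ring
      _ ≤ 2 ^ l := pow_le_pow_right₀ (by norm_num) hW
  have hW1 : (1:ℝ) ≤ 2 ^ W := one_le_pow₀ (by norm_num)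
  have hD1 : (D.card : ℝ) ≤ 30 := by
    have h3 := card_yy (l := l) (l' := l) (h := h) (h' := h') (ν := ν) (le_refl _) D
      (2 * 2 ^ W / 2 ^ l) (by positivity) (by
        rw [← add_div, div_le_one (by positivity)]
        linarith) ?_
    · refine h3.trans ?_
      have h4 : (2:ℝ) * 2 ^ W / 2 ^ l + 2 / 2 ^ l ≤ 4 * 2 ^ W / 2 ^ l := by
        rw [← add_div]
        refine div_le_div_of_nonneg_right ?_ (by positivity)
        linarith
      have h5 : (2:ℝ) ^ (h + h') * (4 * 2 ^ W / 2 ^ l) ≤ 4 := by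
        rw [mul_div_assoc', div_le_iff₀ (by positivity)]
        calc (2:ℝ) ^ (h + h') * (4 * 2 ^ W) = 4 * 2 ^ (h + h' + W) := by rw [pow_add]; ring
          _ ≤ 4 * 2 ^ l := mul_le_mul_of_nonneg_left (pow_le_pow_right₀ (by norm_num) hh)
              (by norm_num)
      have h6 : (2:ℝ) ^ (h + h') * (2 * 2 ^ W / 2 ^ l + 2 / 2 ^ l) ≤ 4 :=
        (mul_le_mul_of_nonneg_left h4 (by positivity)).trans h5
      linarith
    · intro p hp
      rw [hD, mem_image] at hp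
      obtain ⟨s, hs, rfl⟩ := hp
      obtain ⟨hy, ht, hy', ht', he⟩ := hS s hs
      refine ⟨hy, hy', s.1.2, s.2.2, ?_, he⟩
      rw [← add_div]
      refine div_le_div_of_nonneg_right ?_ (by positivity)
      have a1 := hX _ ht
      have a2 := hX' _ ht'
      have : s.1.2 + s.2.2 ≤ 2 * 2 ^ W := by omega
      exact_mod_cast this
  have hD2 : D.card ≤ 30 := by exact_mod_cast hD1
  have hfib : ∀ p ∈ D, (S.filter (fun s => (s.1.1, s.2.1) = p)).card ≤ r := by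
    intro p _
    rcases (S.filter (fun s => (s.1.1, s.2.1) = p)).eq_empty_or_nonempty with he | ⟨s₀, hs₀⟩
    · rw [he]; simp
    · rw [mem_filter] at hs₀
      refine le_trans ?_ (hr (s₀.1.2 + s₀.2.2))
      refine card_le_card_of_injOn (fun s => (s.1.2, s.2.2)) ?_ ?_
      · intro s hs
        simp only [coe_filter, Set.mem_ofPred_eq] at hs
        have a := hS s hs.1
        have b := hS s₀ hs₀.1
        simp only [coe_filter, mem_product, Set.mem_ofPred_eq]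
        refine ⟨⟨a.2.1, a.2.2.2.1⟩, ?_⟩
        have e := hs.2.trans hs₀.2.symm
        simp only [Prod.mk.injEq] at e
        have q1 := a.2.2.2.2
        have q2 := b.2.2.2.2
        unfold REq at q1 q2
        rw [e.1, e.2] at q1
        simp only [Nat.sub_self, pow_zero, one_mul] at q1 q2
        have q3 := q1.trans q2.symm
        have q4 : (Rc l s₀.1.1 + Rc l s₀.2.1) + (s.1.2 + s.2.2) ≡
            (Rc l s₀.1.1 + Rc l s₀.2.1) + (s₀.1.2 + s₀.2.2) [MOD 2 ^ l] := by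
          have e1 : Rc l s₀.1.1 + s.1.2 + (Rc l s₀.2.1 + s.2.2) =
            (Rc l s₀.1.1 + Rc l s₀.2.1) + (s.1.2 + s.2.2) := by ring
          have e2 : Rc l s₀.1.1 + s₀.1.2 + (Rc l s₀.2.1 + s₀.2.2) =
            (Rc l s₀.1.1 + Rc l s₀.2.1) + (s₀.1.2 + s₀.2.2) := by ring
          rwa [e1, e2] at q3
        have q5 := Nat.ModEq.add_left_cancel' _ q4
        have hlt : 2 ^ W + 2 ^ W ≤ 2 ^ l := by
          have : 2 ^ (W + 1) ≤ 2 ^ l := Nat.pow_le_pow_right (by norm_num) (by omega)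
          rw [pow_succ] at this; omega
        have z1 := hX _ a.2.1
        have z2 := hX' _ a.2.2.2.1
        have z3 := hX _ b.2.1
        have z4 := hX' _ b.2.2.2.1
        exact q5.eq_of_lt_of_lt (by omega) (by omega)
      · intro s hs u hu hsu
        simp only [coe_filter, Set.mem_ofPred_eq] at hs hu
        simp only [Prod.mk.injEq] at hsu
        have e := hs.2.trans hu.2.symm
        simp only [Prod.mk.injEq] at e
        exact Prod.ext (Prod.ext e.1 hsu.1) (Prod.ext e.2 hsu.2)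
  have h7 : S.card ≤ r * D.card :=
    card_le_mul_card_image_of_maps_to (f := fun s : (ℕ × ℕ) × (ℕ × ℕ) => (s.1.1, s.2.1))
      (fun s hs => mem_image_of_mem _ hs) r hfib
  calc S.card ≤ r * D.card := h7
    _ ≤ r * 30 := Nat.mul_le_mul_left _ hD2
    _ = 30 * r := mul_comm _ _

end Pool.Agent.ETS.RC
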