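import Mathlib
import Pool.Agent.Helper86.ET.R2

/-!
# E-T (MP_12a1af_nt), project T*: the R code, slope lemma
-/

set_option autoImplicit false

open Finset

namespace Pool.Agent.ETS.RC

/-- discretised progressions: `floor((j + k i) / 2^(2w)) mod 2^(2w)`, `i < 2^w` -/
def Qs (w j k : ℕ) : Finset ℕ :=
  (range (2 ^ w)).image (fun i => ((j + k * i) / 2 ^ (2 * w)) % 2 ^ (2 * w))

lemma card_Qs_le (w j k : ℕ) : (Qs w j k).card ≤ 2 ^ w := by
  refine card_image_le.trans ?_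
  simp

lemma log_lower {x : ℝ} (h0 : 0 ≤ x) (h1 : x ≤ 1) : x - x ^ 2 ≤ Real.log (1 + x) := by
  rcases eq_or_lt_of_le h0 with rfl | hx
  · simp
  have h2 : 1 - (1 + x)⁻¹ ≤ Real.log (1 + x) := Real.one_sub_inv_le_log_of_pos (by linarith)
  have h3 : x - x ^ 2 ≤ 1 - (1 + x)⁻¹ := by
    have : 1 - (1 + x)⁻¹ = x / (1 + x) := by field_simp; ring
    rw [this, le_div_iff₀ (by linarith)]
    nlinarith [pow_pos hx 3]
  linarith

/-- the logarithm is almost linear on short intervals -/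
lemma log_linear {w l H i : ℕ} (hH : 0 < H) (hw : 2 ^ w ≤ H) (hH2 : 2 ^ (l + 2 * w + 1) ≤ H ^ 2)
    (hi : i < 2 ^ w) :
    (2:ℝ) ^ l * Real.logb 2 H + 2 ^ l / (H * Real.log 2) * i - 1 ≤
      2 ^ l * Real.logb 2 ((H + i : ℕ) : ℝ) ∧
    2 ^ l * Real.logb 2 ((H + i : ℕ) : ℝ) ≤
      (2:ℝ) ^ l * Real.logb 2 H + 2 ^ l / (H * Real.log 2) * i := by
  have hH' : (0:ℝ) < H := by exact_mod_cast hH
  set x : ℝ := (i:ℝ) / H with hx
  have hx0 : 0 ≤ x := by positivity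
  have hx1 : x ≤ 1 := by
    rw [hx, div_le_one hH']
    have : i ≤ H := by omega
    exact_mod_cast this
  have e1 : (((H + i : ℕ) : ℝ)) = H * (1 + x) := by
    rw [hx]; push_cast; field_simp
  have hl2 : 0 < Real.log 2 := Real.log_pos (by norm_num)
  have e2 : Real.logb 2 ((H + i : ℕ) : ℝ) = Real.logb 2 H + Real.log (1 + x) / Real.log 2 := by
    rw [e1, Real.logb_mul hH'.ne' (by positivity)]
    rfl
  have e3 : (2:ℝ) ^ l / (H * Real.log 2) * i = 2 ^ l * (x / Real.log 2) := by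
    rw [hx]; field_simp
  rw [e2, e3, mul_add]
  have hu : Real.log (1 + x) ≤ x := by
    have := Real.log_le_sub_one_of_pos (show 0 < 1 + x by positivity)
    linarith
  have hlo := log_lower hx0 hx1
  constructor
  · have h1 : (2:ℝ) ^ l * (x / Real.log 2) - 1 ≤ 2 ^ l * (Real.log (1 + x) / Real.log 2) := by
      have h2 : (2:ℝ) ^ l * x ^ 2 ≤ 1 / 2 := by
        rw [hx, div_pow, mul_div_assoc', div_le_iff₀ (by positivity)]
        have h3 : (i:ℝ) ^ 2 ≤ (2 ^ w) ^ 2 := by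
          have : (i:ℝ) ≤ 2 ^ w := by exact_mod_cast hi.le
          exact pow_le_pow_left₀ (by positivity) this 2
        have h4 : (2:ℝ) ^ (l + 2 * w + 1) ≤ H ^ 2 := by exact_mod_cast hH2
        calc (2:ℝ) ^ l * (i:ℝ) ^ 2 ≤ 2 ^ l * (2 ^ w) ^ 2 := mul_le_mul_of_nonneg_left h3 (by positivity)
          _ = 1 / 2 * 2 ^ (l + 2 * w + 1) := by rw [← pow_mul, pow_add, pow_add]; ring
          _ ≤ 1 / 2 * H ^ 2 := mul_le_mul_of_nonneg_left h4 (by norm_num)
      have h5 : (1:ℝ) / 2 ≤ Real.log 2 := by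
        have := Real.log_two_gt_d9; linarith
      have h6 : (2:ℝ) ^ l * (x / Real.log 2) - 2 ^ l * (Real.log (1 + x) / Real.log 2) ≤ 1 := by
        rw [← mul_sub, ← sub_div, mul_div_assoc', div_le_one hl2]
        calc (2:ℝ) ^ l * (x - Real.log (1 + x)) ≤ 2 ^ l * x ^ 2 :=
              mul_le_mul_of_nonneg_left (by linarith) (by positivity)
          _ ≤ 1 / 2 := h2
          _ ≤ Real.log 2 := h5
      linarith
    linarith
  · have : (2:ℝ) ^ l * (Real.log (1 + x) / Real.log 2) ≤ 2 ^ l * (x / Real.log 2) := by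
      refine mul_le_mul_of_nonneg_left ?_ (by positivity)
      exact div_le_div_of_nonneg_right hu hl2.le
    linarith

/-- reduction of the parameters modulo `2^(4w)` -/
lemma mod_reduce {w a : ℕ} {z : ℤ} {t : ℕ} (ht : t < 2 ^ (2 * w))
    (h : (a : ℤ) ≡ z [ZMOD ((2 ^ (4 * w) : ℕ) : ℤ)])
    (hz : z / ((2 ^ (2 * w) : ℕ) : ℤ) = t) : (a / 2 ^ (2 * w)) % 2 ^ (2 * w) = t := by
  obtain ⟨q, hq⟩ := (Int.modEq_iff_dvd.mp h.symm)
  have e1 : ((2 ^ (4 * w) : ℕ) : ℤ) = ((2 ^ (2 * w) : ℕ) : ℤ) * ((2 ^ (2 * w) : ℕ) : ℤ) := by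
    push_cast; rw [← pow_add]; congr 1; ring
  have hD : ((2 ^ (2 * w) : ℕ) : ℤ) ≠ 0 := by positivity
  have e2 : (a : ℤ) = z + ((2 ^ (2 * w) : ℕ) : ℤ) * (((2 ^ (2 * w) : ℕ) : ℤ) * q) := by
    rw [e1] at hq; linarith
  have e3 : ((a / 2 ^ (2 * w) : ℕ) : ℤ) = t + ((2 ^ (2 * w) : ℕ) : ℤ) * q := by
    rw [Int.natCast_div, e2, Int.add_mul_ediv_left _ _ hD, hz]
  have e4 : ((a / 2 ^ (2 * w) % 2 ^ (2 * w) : ℕ) : ℤ) = t := by
    rw [Int.natCast_mod, e3, Int.add_mul_emod_self_left]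
    exact Int.emod_eq_of_lt (by positivity) (by exact_mod_cast ht)
  exact_mod_cast e4

/-- real progressions are covered by seven discretised progressions -/
lemma real_progression (w : ℕ) (C c : ℝ) : ∃ J K : ℕ, J < 2 ^ (4 * w) ∧ K < 2 ^ (4 * w) ∧
    ∀ i : ℕ, i < 2 ^ w → ∀ t : ℕ, t < 2 ^ (2 * w) → C - c * i - 1 ≤ (t:ℝ) → (t:ℝ) ≤ C - c * i + 3 →
      ∃ e < 7, t ∈ Qs w ((J + e * 2 ^ (2 * w)) % 2 ^ (4 * w)) K := by
  set D : ℕ := 2 ^ (2 * w) with hD
  have hDpos : 0 < D := by positivity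
  have hDZ : (0:ℤ) < (D:ℤ) := by exact_mod_cast hDpos
  have hDR : (0:ℝ) < (D:ℝ) := by exact_mod_cast hDpos
  set j0 : ℤ := ⌊(D:ℝ) * C⌋ with hj0
  set k0 : ℤ := ⌊(D:ℝ) * c⌋ with hk0
  set N4 : ℤ := ((2 ^ (4 * w) : ℕ) : ℤ) with hN4
  have hN4pos : 0 < N4 := by rw [hN4]; positivity
  refine ⟨((j0 - 2 * D) % N4).toNat, ((-k0) % N4).toNat, ?_, ?_, ?_⟩
  · have h1 := Int.emod_nonneg (j0 - 2 * D) hN4pos.ne'
    have h2 := Int.emod_lt_of_pos (j0 - 2 * D) hN4pos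
    zify
    rw [Int.toNat_of_nonneg h1]
    exact_mod_cast h2
  · have h1 := Int.emod_nonneg (-k0) hN4pos.ne'
    have h2 := Int.emod_lt_of_pos (-k0) hN4pos
    zify
    rw [Int.toNat_of_nonneg h1]
    exact_mod_cast h2
  · intro i hi t ht h1 h2
    have a1 : (j0:ℝ) ≤ D * C := Int.floor_le _
    have a2 : (D:ℝ) * C < j0 + 1 := Int.lt_floor_add_one _
    have b1 : (k0:ℝ) ≤ D * c := Int.floor_le _
    have b2 : (D:ℝ) * c < k0 + 1 := Int.lt_floor_add_one _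
    have hi0 : (0:ℝ) ≤ i := by positivity
    have hiD : (i:ℝ) + 1 ≤ D := by
      have : i + 1 ≤ D := by
        have : 2 ^ w ≤ D := Nat.pow_le_pow_right (by norm_num) (by omega)
        omega
      exact_mod_cast this
    have c1 : (k0:ℝ) * i ≤ D * c * i := mul_le_mul_of_nonneg_right b1 hi0
    have c2 : (D:ℝ) * c * i ≤ (k0 + 1) * i := mul_le_mul_of_nonneg_right b2.le hi0
    have d1 : (D:ℝ) * (C - c * i - 1) ≤ D * t := mul_le_mul_of_nonneg_left h1 hDR.le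
    have d2 : (D:ℝ) * t ≤ D * (C - c * i + 3) := mul_le_mul_of_nonneg_left h2 hDR.le
    set z : ℤ := j0 - k0 * i with hz
    have e1 : (z:ℝ) - 2 * D ≤ D * t := by
      rw [hz]; push_cast; nlinarith
    have e2 : (D:ℝ) * t < z + 4 * D := by
      rw [hz]; push_cast; nlinarith
    have e1' : z - 2 * D ≤ D * t := by exact_mod_cast e1
    have e2' : (D:ℤ) * t < z + 4 * D := by exact_mod_cast e2
    -- `e = ⌈(D t - z) / D⌉ + 2`
    set q : ℤ := (D:ℤ) * t - z with hq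
    set e : ℤ := -((-q) / D) + 2 with he
    have f1 : (-q) / (D:ℤ) * D ≤ -q := Int.ediv_mul_le _ hDZ.ne'
    have f2 : -q < ((-q) / (D:ℤ) + 1) * D := Int.lt_ediv_add_one_mul_self _ hDZ
    have g1 : 0 ≤ e := by
      rw [he]
      have : (-q) / (D:ℤ) < 3 := by
        rw [Int.ediv_lt_iff_lt_mul hDZ]; linarith
      omega
    have g2 : e < 7 := by
      rw [he]
      have : -4 ≤ (-q) / (D:ℤ) := by
        rw [Int.le_ediv_iff_mul_le hDZ]; linarith
      omega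
    obtain ⟨en, hen⟩ := Int.eq_ofNat_of_zero_le g1
    refine ⟨en, by omega, ?_⟩
    unfold Qs
    rw [mem_image]
    refine ⟨i, mem_range.mpr hi, ?_⟩
    refine mod_reduce (z := z + (e - 2) * D) ht ?_ ?_
    · push_cast
      have k1 : (((((j0 - 2 * D) % N4).toNat : ℕ) : ℤ)) = (j0 - 2 * D) % N4 :=
        Int.toNat_of_nonneg (Int.emod_nonneg _ hN4pos.ne')
      have k2 : (((((-k0) % N4).toNat : ℕ) : ℤ)) = (-k0) % N4 :=
        Int.toNat_of_nonneg (Int.emod_nonneg _ hN4pos.ne')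
      rw [k1, k2]
      have k3 : (2:ℤ) ^ (4 * w) = N4 := by rw [hN4]; push_cast; rfl
      rw [k3]
      have m1 : (j0 - 2 * D) % N4 ≡ (j0 - 2 * D) [ZMOD N4] := Int.mod_modEq _ _
      have m2 : (-k0) % N4 ≡ (-k0) [ZMOD N4] := Int.mod_modEq _ _
      have m3 : ((j0 - 2 * D) % N4 + en * D) % N4 ≡ (j0 - 2 * D) + en * D [ZMOD N4] :=
        (Int.mod_modEq _ _).trans (m1.add_right _)
      have m4 := m3.add (m2.mul_right (i:ℤ))
      refine m4.trans ?_
      have : (j0 - 2 * D) + en * D + (-k0) * i = z + (e - 2) * D := by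
        rw [hz, hen]; ring
      rw [this]
    · rw [← hD]
      have : z + (e - 2) * D = D * t - (q + (-q) / D * D) := by
        rw [he, hq]; ring
      rw [this]
      have r0 : 0 ≤ -(q + (-q) / (D:ℤ) * D) := by linarith
      have r1 : -(q + (-q) / (D:ℤ) * D) < D := by linarith
      have : (D:ℤ) * t - (q + (-q) / D * D) = -(q + (-q) / (D:ℤ) * D) + D * t := by ring
      rw [this, Int.add_mul_ediv_left _ _ hDZ.ne', Int.ediv_eq_zero_of_lt r0 r1, zero_add]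

end Pool.Agent.ETS.RC
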