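import Mathlib
import Pool.Agent.Helper96.PNT
import Pool.Agent.Helper86.ET.R2

/-!
# E-T (MP_12a1af_nt), project T*: the R code, cut regions and the number of variables
-/

set_option autoImplicit false

open Finset

namespace Pool.Agent.ETS.RC

/-- the integer part of one logarithm takes at most two values -/
lemma two_m (s β ε δ : ℝ) (h : ε + δ ≤ 1) : ∃ M₀ : ℤ, ∀ (x : ℝ) (m : ℤ), s - 1 < x → x < s →
    β + m - ε ≤ x → x ≤ β + m + δ → m = M₀ ∨ m = M₀ + 1 := by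
  refine ⟨⌊s - 1 - β - δ⌋ + 1, fun x m h1 h2 h3 h4 => ?_⟩
  have a1 : s - 1 - β - δ < m := by linarith
  have a2 : (m:ℝ) < s - 1 - β - δ + 2 := by linarith
  have b1 : ⌊s - 1 - β - δ⌋ < m := Int.floor_lt.mpr a1
  have b2 : m < ⌊s - 1 - β - δ⌋ + 1 + 2 := by
    have := Int.lt_floor_add_one (s - 1 - β - δ)
    have : (m:ℝ) < (⌊s - 1 - β - δ⌋ : ℝ) + 1 + 2 := by linarith
    exact_mod_cast this
  omega

/-- variables with the logarithm near to one class modulo 1 -/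
lemma card_one {h : ℕ} (D : Finset ℕ) (β ε δ : ℝ) (hε : 0 ≤ ε) (hδ : 0 ≤ δ)
    (hD : ∀ y ∈ D, y ∈ Yp h ∧ ∃ m : ℤ, β + m - ε ≤ Real.logb 2 y ∧ Real.logb 2 y ≤ β + m + δ) :
    (D.card : ℝ) ≤ 2 * (1 + 2 ^ h * (ε + δ)) := by
  classical
  rcases le_or_gt (ε + δ) 1 with hεδ | hεδ
  · obtain ⟨M₀, hM₀⟩ := two_m (h:ℝ) β ε δ hεδ
    let Tj : ℕ → Finset ℕ := fun j => D.filter (fun P =>
      β + ((M₀ + j : ℤ) : ℝ) - ε ≤ Real.logb 2 P ∧ Real.logb 2 P ≤ β + ((M₀ + j : ℤ) : ℝ) + δ)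
    have hTj : ∀ j, ((Tj j).card : ℝ) ≤ 1 + 2 ^ h * (ε + δ) := by
      intro j
      refine card_log_interval (Tj j) (β + ((M₀ + j : ℤ) : ℝ) - ε) (ε + δ) (2 ^ h)
        (by positivity) (by linarith) hεδ ?_
      intro P hP
      simp only [Tj, mem_filter] at hP
      obtain ⟨hP, h1, h2⟩ := hP
      obtain ⟨hy, -⟩ := hD P hP
      refine ⟨Yp_pos hy, h1, by linarith, ?_⟩
      exact_mod_cast (mem_Yp.mp hy).1.2.le
    have hsub : D ⊆ Tj 0 ∪ Tj 1 := by
      intro P hP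
      obtain ⟨hy, m, h1, h2⟩ := hD P hP
      have l1 := logb_lt hy
      have l3 := lt_logb hy
      rcases hM₀ _ m (by linarith) (by linarith) h1 h2 with rfl | rfl
      · rw [mem_union]; left
        simp only [Tj, mem_filter]
        exact ⟨hP, by push_cast; linarith, by push_cast; linarith⟩
      · rw [mem_union]; right
        simp only [Tj, mem_filter]
        refine ⟨hP, ?_, ?_⟩
        · push_cast; push_cast at h1; linarith
        · push_cast; push_cast at h2; linarith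
    have h3 := (card_le_card hsub).trans (card_union_le _ _)
    have h5 : (D.card : ℝ) ≤ (Tj 0).card + (Tj 1).card := by exact_mod_cast h3
    have := hTj 0
    have := hTj 1
    linarith
  · have h1 : D ⊆ Yp h := fun y hy => (hD y hy).1
    have h2 := (card_le_card h1).trans (card_Yp_le h)
    have h3 : (D.card : ℝ) ≤ 2 ^ h := by exact_mod_cast h2
    have h4 : (0:ℝ) < 2 ^ h := by positivity
    nlinarith

/-- region containing the cut -/
theorem card_cut {l h κ ρ L w : ℕ} (D : Finset ℕ)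
    (hD : ∀ y ∈ D, y ∈ Yp h ∧ ∃ t r : ℕ, t < 2 ^ w ∧ r ≤ L ∧
      Rc l y + t + κ ≡ ρ + r [MOD 2 ^ l]) :
    (D.card : ℝ) ≤ 2 * (1 + 2 ^ h * ((L + 2 ^ w + 1) / 2 ^ l)) := by
  have hlp : (0:ℝ) < 2 ^ l := by positivity
  have h0 := card_one (h := h) D (((ρ:ℝ) - κ) / 2 ^ l) (2 ^ w / 2 ^ l) ((L + 1) / 2 ^ l)
    (by positivity) (by positivity) ?_
  · refine h0.trans (le_of_eq ?_)
    ring
  · intro y hy
    obtain ⟨hyY, t, r, ht, hr, he⟩ := hD y hy
    obtain ⟨m, hm⟩ := (Nat.modEq_iff_dvd.mp he.symm)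
    push_cast at hm
    have hm' : (Rc l y : ℝ) + t + κ - (ρ + r) = 2 ^ l * m := by exact_mod_cast hm
    have e : (Rc l y : ℝ) / 2 ^ l = ((ρ:ℝ) - κ) / 2 ^ l + m + (r - t) / 2 ^ l := by
      field_simp
      linarith
    have a1 : (Rc l y : ℝ) / 2 ^ l ≤ Real.logb 2 y := by
      rw [div_le_iff₀ hlp, mul_comm]; exact Rc_le (Yp_pos hyY)
    have a2 : Real.logb 2 y < (Rc l y : ℝ) / 2 ^ l + 1 / 2 ^ l := by
      rw [← add_div, lt_div_iff₀ hlp, mul_comm]; exact lt_Rc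
    have b1 : -(2 ^ w / 2 ^ l : ℝ) ≤ ((r:ℝ) - t) / 2 ^ l := by
      rw [← neg_div]
      refine div_le_div_of_nonneg_right ?_ hlp.le
      have : (t:ℝ) ≤ 2 ^ w := by exact_mod_cast ht.le
      have : (0:ℝ) ≤ r := by positivity
      linarith
    have b2 : ((r:ℝ) - t) / 2 ^ l + 1 / 2 ^ l ≤ (L + 1) / 2 ^ l := by
      rw [← add_div]
      refine div_le_div_of_nonneg_right ?_ hlp.le
      have : (r:ℝ) ≤ L := by exact_mod_cast hr
      have : (0:ℝ) ≤ t := by positivity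
      linarith
    exact ⟨hyY, m, by linarith, by linarith⟩

lemma not_prime_two_pow {h : ℕ} (hh : 2 ≤ h) : ¬ (2 ^ h).Prime := by
  intro hp
  have := hp.eq_one_or_self_of_dvd 2 (dvd_pow_self 2 (by omega))
  have h4 : 2 ^ 2 ≤ 2 ^ h := Nat.pow_le_pow_right (by norm_num) hh
  omega

lemma Yp_nonempty {h : ℕ} (hh : 2 ≤ h) : (Yp h).Nonempty := by
  obtain ⟨p, hp, h1, h2⟩ := Nat.exists_prime_lt_and_le_two_mul (2 ^ (h-1)) (by positivity)
  refine ⟨p, mem_Yp.mpr ⟨⟨h1, lt_of_le_of_ne ?_ ?_⟩, hp⟩⟩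
  · have : 2 * 2 ^ (h-1) = 2 ^ h := by
      rw [← pow_succ']; congr 1; omega
    omega
  · rintro rfl
    exact not_prime_two_pow hh hp

/-- the number of variables -/
theorem card_Yp_ge : ∃ c : ℝ, 0 < c ∧ ∀ h : ℕ, 2 ≤ h → c * 2 ^ h / h ≤ (Yp h).card := by
  have h1 := Helper96.PNT.eventually_primes_short (c := 1 / 2) (by norm_num) (by norm_num)
  have h2 : Filter.Tendsto (fun h : ℕ => (2:ℝ) ^ h) Filter.atTop Filter.atTop :=
    tendsto_pow_atTop_atTop_of_one_lt (by norm_num)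
  obtain ⟨h₀, hh₀⟩ := Filter.eventually_atTop.mp (h2.eventually h1)
  refine ⟨min (1 / 4) (1 / 2 ^ h₀), by positivity, fun h hh => ?_⟩
  have hhR : (0:ℝ) < h := by
    have : 0 < h := by omega
    exact_mod_cast this
  rcases le_or_gt h₀ h with hle | hlt
  · have h3 := hh₀ h hle
    have h4 : (((Icc 1 ⌊(2:ℝ) ^ h⌋₊).filter
        (fun p : ℕ => p.Prime ∧ (1 - 1 / 2) * (2:ℝ) ^ h < p)).card : ℝ) ≤ (Yp h).card := by
      have : ((Icc 1 ⌊(2:ℝ) ^ h⌋₊).filter
        (fun p : ℕ => p.Prime ∧ (1 - 1 / 2) * (2:ℝ) ^ h < p)) ⊆ Yp h := by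
        intro p hp
        rw [mem_filter, mem_Icc] at hp
        obtain ⟨⟨_, a⟩, b, c⟩ := hp
        have e : ⌊(2:ℝ) ^ h⌋₊ = 2 ^ h := by
          have : (2:ℝ) ^ h = ((2 ^ h : ℕ) : ℝ) := by push_cast; rfl
          rw [this, Nat.floor_natCast]
        rw [e] at a
        rw [mem_Yp]
        refine ⟨⟨?_, lt_of_le_of_ne a ?_⟩, b⟩
        · have e2 : (1 - 1 / 2) * (2:ℝ) ^ h = 2 ^ (h-1) := by
            obtain ⟨k, rfl⟩ : ∃ k, h = k + 1 := ⟨h - 1, by omega⟩
            simp only [Nat.add_sub_cancel]; rw [pow_succ]; ring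
          rw [e2] at c
          exact_mod_cast c
        · rintro rfl
          exact not_prime_two_pow hh b
      exact_mod_cast card_le_card this
    refine le_trans ?_ (h3.trans h4)
    have hl : Real.log ((2:ℝ) ^ h) ≤ h := by
      rw [Real.log_pow]
      have : Real.log 2 ≤ 1 := by have := Real.log_two_lt_d9; linarith
      nlinarith
    have hlpos : 0 < Real.log ((2:ℝ) ^ h) := by
      rw [Real.log_pow]
      have : 0 < Real.log 2 := Real.log_pos (by norm_num)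
      positivity
    calc min (1 / 4) (1 / 2 ^ h₀) * (2:ℝ) ^ h / h ≤ (1 / 4) * (2:ℝ) ^ h / h := by
          refine div_le_div_of_nonneg_right ?_ hhR.le
          exact mul_le_mul_of_nonneg_right (min_le_left _ _) (by positivity)
      _ ≤ (1 / 4) * (2:ℝ) ^ h / Real.log ((2:ℝ) ^ h) :=
          div_le_div_of_nonneg_left (by positivity) hlpos hl
      _ = 1 / 2 / 2 * (2:ℝ) ^ h / Real.log ((2:ℝ) ^ h) := by norm_num
  · have h3 : (1:ℝ) ≤ (Yp h).card := by
      exact_mod_cast Finset.card_pos.mpr (Yp_nonempty hh)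
    refine le_trans ?_ h3
    rw [div_le_one hhR]
    calc min (1 / 4) (1 / 2 ^ h₀) * (2:ℝ) ^ h ≤ (1 / 2 ^ h₀) * (2:ℝ) ^ h :=
          mul_le_mul_of_nonneg_right (min_le_right _ _) (by positivity)
      _ ≤ (1 / 2 ^ h₀) * (2:ℝ) ^ h₀ :=
          mul_le_mul_of_nonneg_left (pow_le_pow_right₀ (by norm_num) hlt.le) (by positivity)
      _ = 1 := by rw [one_div, inv_mul_cancel₀ (by positivity)]
      _ ≤ h := by
          have : 1 ≤ h := by omega
          exact_mod_cast this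

end Pool.Agent.ETS.RC
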