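import Mathlib
import Pool.Agent.Helper86.ET.R3
import Pool.Agent.Helper86.ET.R5

/-!
# E-T (MP_12a1af_nt), project T*: the R code, with the variable `1` in length `0`
-/

set_option autoImplicit false

open Finset

namespace Pool.Agent.ETS.RC

/-- variables of the R code: the primes in `(2^(h-1), 2^h)`, and `1` for `h = 0` -/
def Yq (h : ℕ) : Finset ℕ := if h = 0 then {1} else Yp h

@[simp] lemma Yq_zero : Yq 0 = {1} := rfl

lemma Yq_of_pos {h : ℕ} (hh : h ≠ 0) : Yq h = Yp h := by simp [Yq, hh]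

lemma Yq_cases {h y : ℕ} (hy : y ∈ Yq h) : (h = 0 ∧ y = 1) ∨ (h ≠ 0 ∧ y ∈ Yp h) := by
  rcases Nat.eq_zero_or_pos h with rfl | hh
  · left
    simpa using hy
  · right
    rw [Yq_of_pos hh.ne'] at hy
    exact ⟨hh.ne', hy⟩

lemma Yq_pos {h y : ℕ} (hy : y ∈ Yq h) : 0 < y := by
  rcases Yq_cases hy with ⟨_, rfl⟩ | ⟨_, h1⟩
  · norm_num
  · exact Yp_pos h1

lemma Yq_le {h y : ℕ} (hy : y ∈ Yq h) : y ≤ 2 ^ h := by
  rcases Yq_cases hy with ⟨rfl, rfl⟩ | ⟨_, h1⟩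
  · norm_num
  · exact (mem_Yp.mp h1).1.2.le

lemma le_Yq {h y : ℕ} (hy : y ∈ Yq h) : 2 ^ (h - 1) ≤ y := by
  rcases Yq_cases hy with ⟨rfl, rfl⟩ | ⟨_, h1⟩
  · norm_num
  · exact (mem_Yp.mp h1).1.1.le

lemma card_Yq_le (h : ℕ) : (Yq h).card ≤ 2 ^ h := by
  rcases Nat.eq_zero_or_pos h with rfl | hh
  · simp
  · rw [Yq_of_pos hh.ne']; exact card_Yp_le h

lemma logb_le_q {h y : ℕ} (hy : y ∈ Yq h) : Real.logb 2 y ≤ h := by
  rcases Yq_cases hy with ⟨rfl, rfl⟩ | ⟨_, h1⟩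
  · simp
  · exact (logb_lt h1).le

lemma lt_logb_q {h y : ℕ} (hy : y ∈ Yq h) : (h : ℝ) - 1 < Real.logb 2 y := by
  rcases Yq_cases hy with ⟨rfl, rfl⟩ | ⟨_, h1⟩
  · simp
  · exact lt_logb h1

/-- injectivity of the contents of a region with a block -/
lemma Rc_inj_q {h l y z t s : ℕ} (hy : y ∈ Yq h) (hz : z ∈ Yq h) (hl : h ≤ l)
    (ht : t < 2 ^ (l - h)) (hs : s < 2 ^ (l - h))
    (he : Rc l y + t ≡ Rc l z + s [MOD 2 ^ l]) : y = z ∧ t = s := by
  rcases Yq_cases hy with ⟨rfl, rfl⟩ | ⟨h0, h1⟩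
  · rcases Yq_cases hz with ⟨_, rfl⟩ | ⟨h0, _⟩
    · refine ⟨rfl, ?_⟩
      rw [Nat.sub_zero] at ht hs
      exact (Nat.ModEq.add_left_cancel' _ he).eq_of_lt_of_lt ht hs
    · exact absurd rfl h0
  · rcases Yq_cases hz with ⟨rfl, _⟩ | ⟨_, h2⟩
    · exact absurd rfl h0
    · exact Rc_inj h1 h2 hl ht hs he

/-- pairs of variables with products in a given set -/
lemma card_pairs_q {h h' : ℕ} (D : Finset (ℕ × ℕ)) (T : Finset ℕ)
    (hD : ∀ p ∈ D, p.1 ∈ Yq h ∧ p.2 ∈ Yq h' ∧ p.1 * p.2 ∈ T) : D.card ≤ 2 * T.card := by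
  classical
  rcases Nat.eq_zero_or_pos h with h0 | h0
  · subst h0
    have h1 : Set.InjOn (fun p : ℕ × ℕ => p.1 * p.2) D := by
      intro p hp q hq he
      have a1 : p.1 = 1 := by simpa using (hD p hp).1
      have a2 : q.1 = 1 := by simpa using (hD q hq).1
      simp only [a1, a2, one_mul] at he
      exact Prod.ext (a1.trans a2.symm) he
    have h2 := card_le_card_of_injOn (fun p : ℕ × ℕ => p.1 * p.2) (fun p hp => (hD p hp).2.2) h1
    omega
  · rcases Nat.eq_zero_or_pos h' with h1 | h1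
    · subst h1
      have h2 : Set.InjOn (fun p : ℕ × ℕ => p.1 * p.2) D := by
        intro p hp q hq he
        have a1 : p.2 = 1 := by simpa using (hD p hp).2.1
        have a2 : q.2 = 1 := by simpa using (hD q hq).2.1
        simp only [a1, a2, mul_one] at he
        exact Prod.ext he (a1.trans a2.symm)
      have h3 := card_le_card_of_injOn (fun p : ℕ × ℕ => p.1 * p.2) (fun p hp => (hD p hp).2.2) h2
      omega
    · refine card_pairs_le D T (fun p hp => ?_)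
      obtain ⟨a, b, c⟩ := hD p hp
      rw [Yq_of_pos h0.ne'] at a
      rw [Yq_of_pos h1.ne'] at b
      exact ⟨(mem_Yp.mp a).2, (mem_Yp.mp b).2, c⟩

/-- the integer part takes at most three values -/
lemma three_q (s β ε δ : ℝ) (h : ε + δ ≤ 1) : ∃ M₀ : ℤ, ∀ (x : ℝ) (m : ℤ), s - 2 < x → x ≤ s →
    β + m - ε ≤ x → x ≤ β + m + δ → m = M₀ ∨ m = M₀ + 1 ∨ m = M₀ + 2 := by
  refine ⟨⌊s - 2 - β - δ⌋ + 1, fun x m h1 h2 h3 h4 => ?_⟩
  have a1 : s - 2 - β - δ < m := by linarith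
  have a2 : (m:ℝ) ≤ s - 2 - β - δ + 3 := by linarith
  have b1 : ⌊s - 2 - β - δ⌋ < m := Int.floor_lt.mpr a1
  have b2 : m < ⌊s - 2 - β - δ⌋ + 1 + 3 := by
    have := Int.lt_floor_add_one (s - 2 - β - δ)
    have : (m:ℝ) < (⌊s - 2 - β - δ⌋ : ℝ) + 1 + 3 := by linarith
    exact_mod_cast this
  omega

/-- the integer part of one logarithm takes at most two values -/
lemma two_q (s β ε δ : ℝ) (h : ε + δ ≤ 1) : ∃ M₀ : ℤ, ∀ (x : ℝ) (m : ℤ), s - 1 < x → x ≤ s →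
    β + m - ε ≤ x → x ≤ β + m + δ → m = M₀ ∨ m = M₀ + 1 := by
  refine ⟨⌊s - 1 - β - δ⌋ + 1, fun x m h1 h2 h3 h4 => ?_⟩
  have a1 : s - 1 - β - δ < m := by linarith
  have a2 : (m:ℝ) ≤ s - 1 - β - δ + 2 := by linarith
  have b1 : ⌊s - 1 - β - δ⌋ < m := Int.floor_lt.mpr a1
  have b2 : m < ⌊s - 1 - β - δ⌋ + 1 + 2 := by
    have := Int.lt_floor_add_one (s - 1 - β - δ)
    have : (m:ℝ) < (⌊s - 1 - β - δ⌋ : ℝ) + 1 + 2 := by linarith
    exact_mod_cast this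
  omega

/-- pairs of variables with the logarithm of the product near to one class modulo 1 -/
lemma card_prod_q {h h' : ℕ} (D : Finset (ℕ × ℕ)) (β ε δ : ℝ) (hε : 0 ≤ ε) (hδ : 0 ≤ δ)
    (hεδ : ε + δ ≤ 1)
    (hD : ∀ p ∈ D, p.1 ∈ Yq h ∧ p.2 ∈ Yq h' ∧ ∃ m : ℤ,
      β + m - ε ≤ Real.logb 2 p.1 + Real.logb 2 p.2 ∧
      Real.logb 2 p.1 + Real.logb 2 p.2 ≤ β + m + δ) :
    (D.card : ℝ) ≤ 6 * (1 + 2 ^ (h + h') * (ε + δ)) := by
  classical
  obtain ⟨M₀, hM₀⟩ := three_q ((h:ℝ) + h') β ε δ hεδ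
  let Tj : ℕ → Finset ℕ := fun j => (D.image (fun p => p.1 * p.2)).filter (fun P =>
    β + ((M₀ + j : ℤ) : ℝ) - ε ≤ Real.logb 2 P ∧ Real.logb 2 P ≤ β + ((M₀ + j : ℤ) : ℝ) + δ)
  have hTj : ∀ j, ((Tj j).card : ℝ) ≤ 1 + 2 ^ (h + h') * (ε + δ) := by
    intro j
    refine card_log_interval (Tj j) (β + ((M₀ + j : ℤ) : ℝ) - ε) (ε + δ) (2 ^ (h + h'))
      (by positivity) (by linarith) hεδ ?_
    intro P hP
    simp only [Tj, mem_filter, mem_image] at hP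
    obtain ⟨⟨p, hp, rfl⟩, h1, h2⟩ := hP
    obtain ⟨hy, hy', -⟩ := hD p hp
    refine ⟨Nat.mul_pos (Yq_pos hy) (Yq_pos hy'), h1, by linarith, ?_⟩
    have : p.1 * p.2 ≤ 2 ^ h * 2 ^ h' := Nat.mul_le_mul (Yq_le hy) (Yq_le hy')
    rw [← pow_add] at this
    exact_mod_cast this
  have hsub : ∀ p ∈ D, p.1 ∈ Yq h ∧ p.2 ∈ Yq h' ∧ p.1 * p.2 ∈ Tj 0 ∪ Tj 1 ∪ Tj 2 := by
    intro p hp
    obtain ⟨hy, hy', m, h1, h2⟩ := hD p hp
    refine ⟨hy, hy', ?_⟩
    have e := logb_mul_cast (Yq_pos hy) (Yq_pos hy')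
    have l1 := logb_le_q hy
    have l2 := logb_le_q hy'
    have l3 := lt_logb_q hy
    have l4 := lt_logb_q hy'
    have hmem : p.1 * p.2 ∈ D.image (fun p => p.1 * p.2) := mem_image_of_mem _ hp
    rcases hM₀ _ m (by linarith) (by linarith) h1 h2 with rfl | rfl | rfl
    · rw [mem_union, mem_union]; left; left
      simp only [Tj, mem_filter]
      refine ⟨hmem, ?_, ?_⟩
      · rw [e]; push_cast; linarith
      · rw [e]; push_cast; linarith
    · rw [mem_union, mem_union]; left; right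
      simp only [Tj, mem_filter]
      refine ⟨hmem, ?_, ?_⟩
      · rw [e]; push_cast; push_cast at h1; linarith
      · rw [e]; push_cast; push_cast at h2; linarith
    · rw [mem_union]; right
      simp only [Tj, mem_filter]
      refine ⟨hmem, ?_, ?_⟩
      · rw [e]; push_cast; push_cast at h1; linarith
      · rw [e]; push_cast; push_cast at h2; linarith
  have h3 := card_pairs_q D _ hsub
  have h4 : (Tj 0 ∪ Tj 1 ∪ Tj 2).card ≤ (Tj 0).card + (Tj 1).card + (Tj 2).card :=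
    (card_union_le _ _).trans (Nat.add_le_add_right (card_union_le _ _) _)
  have h5 : (D.card : ℝ) ≤ 2 * ((Tj 0).card + (Tj 1).card + (Tj 2).card) := by
    have : D.card ≤ 2 * ((Tj 0).card + (Tj 1).card + (Tj 2).card) := by omega
    exact_mod_cast this
  have := hTj 0
  have := hTj 1
  have := hTj 2
  linarith

/-- variables with the logarithm near to one class modulo 1 -/
lemma card_one_q {h : ℕ} (D : Finset ℕ) (β ε δ : ℝ) (hε : 0 ≤ ε) (hδ : 0 ≤ δ)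
    (hD : ∀ y ∈ D, y ∈ Yq h ∧ ∃ m : ℤ, β + m - ε ≤ Real.logb 2 y ∧ Real.logb 2 y ≤ β + m + δ) :
    (D.card : ℝ) ≤ 2 * (1 + 2 ^ h * (ε + δ)) := by
  classical
  rcases le_or_gt (ε + δ) 1 with hεδ | hεδ
  · obtain ⟨M₀, hM₀⟩ := two_q (h:ℝ) β ε δ hεδ
    let Tj : ℕ → Finset ℕ := fun j => D.filter (fun P =>
      β + ((M₀ + j : ℤ) : ℝ) - ε ≤ Real.logb 2 P ∧ Real.logb 2 P ≤ β + ((M₀ + j : ℤ) : ℝ) + δ)
    have hTj : ∀ j, ((Tj j).card : ℝ) ≤ 1 + 2 ^ h * (ε + δ) := by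
      intro j
      refine card_log_interval (Tj j) (β + ((M₀ + j : ℤ) : ℝ) - ε) (ε + δ) (2 ^ h)
        (by positivity) (by linarith) hεδ ?_
      intro P hP
      simp only [Tj, mem_filter] at hP
      obtain ⟨hP, h1, h2⟩ := hP
      obtain ⟨hy, -⟩ := hD P hP
      refine ⟨Yq_pos hy, h1, by linarith, ?_⟩
      exact_mod_cast Yq_le hy
    have hsub : D ⊆ Tj 0 ∪ Tj 1 := by
      intro P hP
      obtain ⟨hy, m, h1, h2⟩ := hD P hP
      have l1 := logb_le_q hy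
      have l3 := lt_logb_q hy
      rcases hM₀ _ m (by linarith) (by linarith) h1 h2 with rfl | rfl
      · rw [mem_union]; left
        simp only [Tj, mem_filter]
        exact ⟨hP, by push_cast; linarith, by push_cast; linarith⟩
      · rw [mem_union]; right
        simp only [Tj, mem_filter]
        refine ⟨hP, ?_, ?_⟩
        · push_cast; push_cast at h1; linarith
        · push_cast; push_cast at h2; linarith
    have h3 := (card_le_card hsub).trans (card_union_le _ _)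
    have h5 : (D.card : ℝ) ≤ (Tj 0).card + (Tj 1).card := by exact_mod_cast h3
    have := hTj 0
    have := hTj 1
    linarith
  · have h1 : D ⊆ Yq h := fun y hy => (hD y hy).1
    have h2 := (card_le_card h1).trans (card_Yq_le h)
    have h3 : (D.card : ℝ) ≤ 2 ^ h := by exact_mod_cast h2
    have h4 : (0:ℝ) < 2 ^ h := by positivity
    nlinarith

/-- region containing the cut -/
theorem card_cut_q {l h κ ρ L w : ℕ} (D : Finset ℕ)
    (hD : ∀ y ∈ D, y ∈ Yq h ∧ ∃ t r : ℕ, t < 2 ^ w ∧ r ≤ L ∧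
      Rc l y + t + κ ≡ ρ + r [MOD 2 ^ l]) :
    (D.card : ℝ) ≤ 2 * (1 + 2 ^ h * ((L + 2 ^ w + 1) / 2 ^ l)) := by
  have hlp : (0:ℝ) < 2 ^ l := by positivity
  have h0 := card_one_q (h := h) D (((ρ:ℝ) - κ) / 2 ^ l) (2 ^ w / 2 ^ l) ((L + 1) / 2 ^ l)
    (by positivity) (by positivity) ?_
  · refine h0.trans (le_of_eq ?_)
    ring
  · intro y hy
    obtain ⟨hyY, t, r, ht, hr, he⟩ := hD y hy
    obtain ⟨m, hm⟩ := (Nat.modEq_iff_dvd.mp he.symm)
    push_cast at hm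
    have hm' : (Rc l y : ℝ) + t + κ - (ρ + r) = 2 ^ l * m := by exact_mod_cast hm
    have e : (Rc l y : ℝ) / 2 ^ l = ((ρ:ℝ) - κ) / 2 ^ l + m + (r - t) / 2 ^ l := by
      field_simp
      linarith
    have a1 : (Rc l y : ℝ) / 2 ^ l ≤ Real.logb 2 y := by
      rw [div_le_iff₀ hlp, mul_comm]; exact Rc_le (Yq_pos hyY)
    have a2 : Real.logb 2 y < (Rc l y : ℝ) / 2 ^ l + 1 / 2 ^ l := by
      rw [← add_div, lt_div_iff₀ hlp, mul_comm]; exact lt_Rc
    have b1 : -(2 ^ w / 2 ^ l : ℝ) ≤ ((r:ℝ) - t) / 2 ^ l := by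
      rw [← neg_div]
      refine div_le_div_of_nonneg_right ?_ hlp.le
      have : (t:ℝ) ≤ 2 ^ w := by exact_mod_cast ht.le
      have : (0:ℝ) ≤ r := by positivity
      linarith
    have b2 : ((r:ℝ) - t) / 2 ^ l + 1 / 2 ^ l ≤ (L + 1) / 2 ^ l := by
      rw [← add_div]
      refine div_le_div_of_nonneg_right ?_ hlp.le
      have : (r:ℝ) ≤ L := by exact_mod_cast hr
      have : (0:ℝ) ≤ t := by positivity
      linarith
    exact ⟨hyY, m, by linarith, by linarith⟩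

end Pool.Agent.ETS.RC
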