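import Mathlib
import Pool.Agent.Helper86.ET.Q1

/-!
# E-T (MP_12a1af_nt), project T*: the R code, general counting lemmas

`S` is any finite set of objects `s` with variables `y s`, `y' s` and `t s` (block of the upper
region) such that `2^l * (log y + log y')` is known modulo `2^l` up to `t` and an error of at
most `4`.
-/

set_option autoImplicit false

open Finset

namespace Pool.Agent.ETS.RC

/-- `(G1)` : fix `t`, count the products. -/
theorem gen1 {α : Type*} {l h h' : ℕ} (hl : 3 ≤ l) (S : Finset α) (y t y' : α → ℕ)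
    (X : Finset ℕ) (C : ℝ)
    (hS : ∀ s ∈ S, y s ∈ Yq h ∧ y' s ∈ Yq h' ∧ t s ∈ X ∧ ∃ m : ℤ,
      C + 2 ^ l * m - t s - 4 ≤ 2 ^ l * (Real.logb 2 (y s) + Real.logb 2 (y' s)) ∧
      2 ^ l * (Real.logb 2 (y s) + Real.logb 2 (y' s)) ≤ C + 2 ^ l * m - t s + 4)
    (hinj : ∀ s ∈ S, ∀ r ∈ S, y s = y r → y' s = y' r → t s = t r → s = r) :
    (S.card : ℝ) ≤ X.card * (6 * (1 + 8 * 2 ^ (h + h') / 2 ^ l)) := by
  classical
  have hlp : (0:ℝ) < 2 ^ l := by positivity
  have h1 : S.card = ∑ t₀ ∈ X, (S.filter (fun s => t s = t₀)).card :=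
    card_eq_sum_card_fiberwise (f := t) (t := X) (fun s hs => (hS s hs).2.2.1)
  rw [h1]
  push_cast
  rw [← nsmul_eq_mul, ← Finset.sum_const]
  refine Finset.sum_le_sum (fun t₀ _ => ?_)
  set St := S.filter (fun s => t s = t₀) with hSt
  have hinj' : Set.InjOn (fun s : α => (y s, y' s)) St := by
    intro s hs r hr he
    simp only [hSt, coe_filter, Set.mem_ofPred_eq] at hs hr
    simp only [Prod.mk.injEq] at he
    exact hinj s hs.1 r hr.1 he.1 he.2 (hs.2.trans hr.2.symm)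
  rw [← card_image_of_injOn hinj']
  have h8 : (8:ℝ) ≤ 2 ^ l := by
    calc (8:ℝ) = 2 ^ 3 := by norm_num
      _ ≤ 2 ^ l := pow_le_pow_right₀ (by norm_num) hl
  have h3 := card_prod_q (h := h) (h' := h') (St.image (fun s => (y s, y' s)))
    ((C - t₀) / 2 ^ l) (4 / 2 ^ l) (4 / 2 ^ l) (by positivity) (by positivity)
    (by
      rw [← add_div, div_le_one (by positivity)]
      linarith) ?_
  · refine h3.trans (le_of_eq ?_)
    ring
  · intro p hp
    rw [mem_image] at hp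
    obtain ⟨s, hs, rfl⟩ := hp
    rw [hSt, mem_filter] at hs
    obtain ⟨hy, hy', -, m, a1, a2⟩ := hS s hs.1
    rw [hs.2] at a1 a2
    refine ⟨hy, hy', m, ?_, ?_⟩
    · have : (C - t₀) / 2 ^ l + m - 4 / 2 ^ l = (C + 2 ^ l * m - t₀ - 4) / 2 ^ l := by
        field_simp; ring
      rw [this, div_le_iff₀ hlp]
      simp only
      linarith
    · have : (C - t₀) / 2 ^ l + m + 4 / 2 ^ l = (C + 2 ^ l * m - t₀ + 4) / 2 ^ l := by
        field_simp; ring
      rw [this, le_div_iff₀ hlp]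
      simp only
      linarith

/-- real progressions are covered by thirteen discretised progressions -/
lemma real_progression5 (w : ℕ) (C c : ℝ) : ∃ J K : ℕ, J < 2 ^ (4 * w) ∧ K < 2 ^ (4 * w) ∧
    ∀ i : ℕ, i < 2 ^ w → ∀ t : ℕ, t < 2 ^ (2 * w) → C - c * i - 5 ≤ (t:ℝ) →
      (t:ℝ) ≤ C - c * i + 5 → ∃ e < 13, t ∈ Qs w ((J + e * 2 ^ (2 * w)) % 2 ^ (4 * w)) K := by
  set D : ℕ := 2 ^ (2 * w) with hD
  have hDpos : 0 < D := by positivity
  have hDZ : (0:ℤ) < (D:ℤ) := by exact_mod_cast hDpos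
  have hDR : (0:ℝ) < (D:ℝ) := by exact_mod_cast hDpos
  set j0 : ℤ := ⌊(D:ℝ) * C⌋ with hj0
  set k0 : ℤ := ⌊(D:ℝ) * c⌋ with hk0
  set N4 : ℤ := ((2 ^ (4 * w) : ℕ) : ℤ) with hN4
  have hN4pos : 0 < N4 := by rw [hN4]; positivity
  refine ⟨((j0 - 6 * D) % N4).toNat, ((-k0) % N4).toNat, ?_, ?_, ?_⟩
  · have h1 := Int.emod_nonneg (j0 - 6 * D) hN4pos.ne'
    have h2 := Int.emod_lt_of_pos (j0 - 6 * D) hN4pos
    zify
    rw [Int.toNat_of_nonneg h1]
    exact_mod_cast h2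
  · have h1 := Int.emod_nonneg (-k0) hN4pos.ne'
    have h2 := Int.emod_lt_of_pos (-k0) hN4pos
    zify
    rw [Int.toNat_of_nonneg h1]
    exact_mod_cast h2
  · intro i hi t ht h1 h2
    have a1 : (j0:ℝ) ≤ D * C := Int.floor_le _
    have a2 : (D:ℝ) * C < j0 + 1 := Int.lt_floor_add_one _
    have b1 : (k0:ℝ) ≤ D * c := Int.floor_le _
    have b2 : (D:ℝ) * c < k0 + 1 := Int.lt_floor_add_one _
    have hi0 : (0:ℝ) ≤ i := by positivity
    have hiD : (i:ℝ) + 1 ≤ D := by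
      have : i + 1 ≤ D := by
        have : 2 ^ w ≤ D := Nat.pow_le_pow_right (by norm_num) (by omega)
        omega
      exact_mod_cast this
    have c1 : (k0:ℝ) * i ≤ D * c * i := mul_le_mul_of_nonneg_right b1 hi0
    have c2 : (D:ℝ) * c * i ≤ (k0 + 1) * i := mul_le_mul_of_nonneg_right b2.le hi0
    have d1 : (D:ℝ) * (C - c * i - 5) ≤ D * t := mul_le_mul_of_nonneg_left h1 hDR.le
    have d2 : (D:ℝ) * t ≤ D * (C - c * i + 5) := mul_le_mul_of_nonneg_left h2 hDR.le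
    set z : ℤ := j0 - k0 * i with hz
    have e1 : (z:ℝ) - 6 * D ≤ D * t := by
      rw [hz]; push_cast; nlinarith
    have e2 : (D:ℝ) * t < z + 6 * D := by
      rw [hz]; push_cast; nlinarith
    have e1' : z - 6 * D ≤ D * t := by exact_mod_cast e1
    have e2' : (D:ℤ) * t < z + 6 * D := by exact_mod_cast e2
    -- `e = ⌈(D t - z) / D⌉ + 6`
    set q : ℤ := (D:ℤ) * t - z with hq
    set e : ℤ := -((-q) / D) + 6 with he
    have f1 : (-q) / (D:ℤ) * D ≤ -q := Int.ediv_mul_le _ hDZ.ne'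
    have f2 : -q < ((-q) / (D:ℤ) + 1) * D := Int.lt_ediv_add_one_mul_self _ hDZ
    have g1 : 0 ≤ e := by
      rw [he]
      have : (-q) / (D:ℤ) < 7 := by
        rw [Int.ediv_lt_iff_lt_mul hDZ]; linarith
      omega
    have g2 : e < 13 := by
      rw [he]
      have : -6 ≤ (-q) / (D:ℤ) := by
        rw [Int.le_ediv_iff_mul_le hDZ]; linarith
      omega
    obtain ⟨en, hen⟩ := Int.eq_ofNat_of_zero_le g1
    refine ⟨en, by omega, ?_⟩
    unfold Qs
    rw [mem_image]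
    refine ⟨i, mem_range.mpr hi, ?_⟩
    refine mod_reduce (z := z + (e - 6) * D) ht ?_ ?_
    · push_cast
      have k1 : (((((j0 - 6 * D) % N4).toNat : ℕ) : ℤ)) = (j0 - 6 * D) % N4 :=
        Int.toNat_of_nonneg (Int.emod_nonneg _ hN4pos.ne')
      have k2 : (((((-k0) % N4).toNat : ℕ) : ℤ)) = (-k0) % N4 :=
        Int.toNat_of_nonneg (Int.emod_nonneg _ hN4pos.ne')
      rw [k1, k2]
      have k3 : (2:ℤ) ^ (4 * w) = N4 := by rw [hN4]; push_cast; rfl
      rw [k3]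
      have m1 : (j0 - 6 * D) % N4 ≡ (j0 - 6 * D) [ZMOD N4] := Int.mod_modEq _ _
      have m2 : (-k0) % N4 ≡ (-k0) [ZMOD N4] := Int.mod_modEq _ _
      have m3 : ((j0 - 6 * D) % N4 + en * D) % N4 ≡ (j0 - 6 * D) + en * D [ZMOD N4] :=
        (Int.mod_modEq _ _).trans (m1.add_right _)
      have m4 := m3.add (m2.mul_right (i:ℤ))
      refine m4.trans ?_
      have : (j0 - 6 * D) + en * D + (-k0) * i = z + (e - 6) * D := by
        rw [hz, hen]; ring
      rw [this]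
    · rw [← hD]
      have : z + (e - 6) * D = D * t - (q + (-q) / D * D) := by
        rw [he, hq]; ring
      rw [this]
      have r0 : 0 ≤ -(q + (-q) / (D:ℤ) * D) := by linarith
      have r1 : -(q + (-q) / (D:ℤ) * D) < D := by linarith
      have : (D:ℤ) * t - (q + (-q) / D * D) = -(q + (-q) / (D:ℤ) * D) + D * t := by ring
      rw [this, Int.add_mul_ediv_left _ _ hDZ.ne', Int.ediv_eq_zero_of_lt r0 r1, zero_add]

/-- `(G2)` : the block set `X` of the upper region has at most `B` points on every discretised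
progression. -/
theorem gen2 {α : Type*} {l h h' w B : ℕ} (hw3 : 3 ≤ w) (hh : h + h' + w ≤ l)
    (hh2 : l + 2 * w ≤ 2 * (h + h') + 1) (S : Finset α) (y t y' : α → ℕ) (X : Finset ℕ) (C : ℝ)
    (hX : ∀ t ∈ X, t < 2 ^ (2 * w))
    (hB : ∀ j k, j < 2 ^ (4 * w) → k < 2 ^ (4 * w) → (X ∩ Qs w j k).card ≤ B)
    (hS : ∀ s ∈ S, y s ∈ Yq h ∧ y' s ∈ Yq h' ∧ t s ∈ X ∧ ∃ m : ℤ,
      C + 2 ^ l * m - t s - 4 ≤ 2 ^ l * (Real.logb 2 (y s) + Real.logb 2 (y' s)) ∧
      2 ^ l * (Real.logb 2 (y s) + Real.logb 2 (y' s)) ≤ C + 2 ^ l * m - t s + 4)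
    (hinj : ∀ s ∈ S, ∀ r ∈ S, y s = y r → y' s = y' r → t s = t r → s = r) :
    S.card ≤ 153738 * B := by
  classical
  have hlp : (0:ℝ) < 2 ^ l := by positivity
  set β : ℝ := C / 2 ^ l with hβ
  have hβC : (2:ℝ) ^ l * β = C := by rw [hβ]; exact mul_div_cancel₀ _ hlp.ne'
  set ε : ℝ := 2 ^ (2 * w) / 2 ^ l + 4 / 2 ^ l with hε
  set δ : ℝ := 4 / 2 ^ l with hδ
  have hw1 : (1:ℝ) ≤ 2 ^ (2 * w) := one_le_pow₀ (by norm_num)
  have hεδ4 : ε + δ ≤ 9 * 2 ^ (2 * w) / 2 ^ l := by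
    rw [hε, hδ, ← add_div, ← add_div]
    refine div_le_div_of_nonneg_right ?_ hlp.le
    linarith
  have hεδ : ε + δ ≤ 1 := by
    refine hεδ4.trans ?_
    rw [div_le_one hlp]
    calc (9:ℝ) * 2 ^ (2 * w) ≤ 16 * 2 ^ (2 * w) := by linarith
      _ = 2 ^ (2 * w + 4) := by rw [pow_add]; ring
      _ ≤ 2 ^ l := pow_le_pow_right₀ (by norm_num) (by omega)
  obtain ⟨M₀, hM₀⟩ := three_q ((h:ℝ) + h') β ε δ hεδ
  have hε0 : 0 ≤ ε := by positivity
  have hδ0 : 0 ≤ δ := by positivity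
  let PS : Finset ℕ := S.image (fun s => y s * y' s)
  let Tj : ℕ → Finset ℕ := fun j => PS.filter (fun P =>
    β + ((M₀ + j : ℤ) : ℝ) - ε ≤ Real.logb 2 P ∧ Real.logb 2 P ≤ β + ((M₀ + j : ℤ) : ℝ) + δ)
  let A : ℕ → ℕ := fun j => if hne : (Tj j).Nonempty then (Tj j).min' hne else 0
  have hPS : ∀ P ∈ PS, 2 ^ (h + h' - 2) ≤ P ∧ P ≤ 2 ^ (h + h') := by
    intro P hP
    simp only [PS, mem_image] at hP
    obtain ⟨s, hs, rfl⟩ := hP
    obtain ⟨hy, hy', -, -⟩ := hS s hs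
    have a1 := le_Yq hy
    have a2 := le_Yq hy'
    have a3 := Yq_le hy
    have a4 := Yq_le hy'
    constructor
    · calc 2 ^ (h + h' - 2) ≤ 2 ^ ((h - 1) + (h' - 1)) :=
            Nat.pow_le_pow_right (by norm_num) (by omega)
        _ = 2 ^ (h-1) * 2 ^ (h'-1) := by rw [pow_add]
        _ ≤ _ := Nat.mul_le_mul a1 a2
    · calc y s * y' s ≤ 2 ^ h * 2 ^ h' := Nat.mul_le_mul a3 a4
        _ = _ := by rw [pow_add]
  -- elements of `Tj j` are near to the least one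
  have hnear : ∀ j, ∀ P ∈ Tj j, 2 ^ (h + h' - 2) ≤ A j ∧ A j ≤ P ∧ P ≤ A j + 9 * 2 ^ w := by
    intro j P hP
    have hne : (Tj j).Nonempty := ⟨P, hP⟩
    have hA : A j = (Tj j).min' hne := by simp only [A]; rw [dif_pos hne]
    have hAm : A j ∈ Tj j := by rw [hA]; exact (Tj j).min'_mem hne
    have hAP : A j ≤ P := by rw [hA]; exact (Tj j).min'_le P hP
    simp only [Tj, mem_filter] at hAm hP
    have hA1 := hPS _ hAm.1
    have hP1 := hPS _ hP.1
    refine ⟨hA1.1, hAP, ?_⟩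
    have hApos : (0:ℝ) < A j := by
      have : 0 < 2 ^ (h + h' - 2) := by positivity
      exact_mod_cast (lt_of_lt_of_le this hA1.1)
    have hPpos : (0:ℝ) < P := by
      have : (A j : ℝ) ≤ P := by exact_mod_cast hAP
      linarith
    have h5 : (P : ℝ) ≤ A j * 2 ^ (ε + δ) := by
      have : Real.logb 2 P ≤ Real.logb 2 (A j * 2 ^ (ε + δ)) := by
        rw [Real.logb_mul hApos.ne' (by positivity), Real.logb_rpow (by norm_num) (by norm_num)]
        linarith [hAm.2.1, hP.2.2]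
      rwa [Real.logb_le_logb (by norm_num) hPpos (by positivity)] at this
    have h6 : (P : ℝ) ≤ A j * (1 + (ε + δ)) :=
      h5.trans (mul_le_mul_of_nonneg_left (two_rpow_le (by positivity) hεδ) hApos.le)
    have h7 : (A j : ℝ) * (ε + δ) ≤ 9 * 2 ^ w := by
      have e1 : (A j : ℝ) ≤ 2 ^ (h + h') := by exact_mod_cast hA1.2
      calc (A j : ℝ) * (ε + δ) ≤ 2 ^ (h + h') * (9 * 2 ^ (2 * w) / 2 ^ l) :=
            mul_le_mul e1 hεδ4 (by positivity) (by positivity)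
        _ = 9 * 2 ^ (h + h' + 2 * w) / 2 ^ l := by rw [pow_add]; ring
        _ ≤ 9 * 2 ^ w := by
            rw [div_le_iff₀ hlp, mul_assoc, ← pow_add]
            refine mul_le_mul_of_nonneg_left ?_ (by norm_num)
            exact pow_le_pow_right₀ (by norm_num) (by omega)
    have h8 : (P : ℝ) ≤ A j + 9 * 2 ^ w := by linarith
    exact_mod_cast h8
  choose J K hJ hK hcov using fun jq : ℕ × ℕ => real_progression5 w
    ((2:ℝ) ^ l * (β + ((M₀ + jq.1 : ℤ) : ℝ)) -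
      2 ^ l * Real.logb 2 ((A jq.1 + jq.2 * 2 ^ (w - 3) : ℕ) : ℝ))
    ((2:ℝ) ^ l / (((A jq.1 + jq.2 * 2 ^ (w - 3) : ℕ) : ℝ) * Real.log 2))
  obtain ⟨N, hN⟩ : ∃ N : ℕ, N = 73 := ⟨73, rfl⟩
  set Tocc := S.image t with hTocc
  have hsub : Tocc ⊆ (range 3 ×ˢ (range N ×ˢ range 13)).biUnion (fun a => X ∩
      Qs w ((J (a.1, a.2.1) + a.2.2 * 2 ^ (2 * w)) % 2 ^ (4 * w)) (K (a.1, a.2.1))) := by
    intro t₀ ht
    rw [hTocc, mem_image] at ht
    obtain ⟨s, hs, rfl⟩ := ht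
    obtain ⟨hy, hy', htX, m, b1, b2⟩ := hS s hs
    have hlog := logb_mul_cast (Yq_pos hy) (Yq_pos hy')
    have l1 := logb_le_q hy
    have l2 := logb_le_q hy'
    have l3 := lt_logb_q hy
    have l4 := lt_logb_q hy'
    set x := Real.logb 2 (y s) + Real.logb 2 (y' s) with hx
    have ht1 : (t s : ℝ) ≤ 2 ^ (2 * w) := by exact_mod_cast (hX _ htX).le
    have ht0 : 0 ≤ (t s : ℝ) := by positivity
    have c1 : β + m - ε ≤ x := by
      have : β + m - ε = (C + 2 ^ l * m - 2 ^ (2 * w) - 4) / 2 ^ l := by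
        rw [hβ, hε, hδ]; field_simp; ring
      rw [this, div_le_iff₀ hlp]
      linarith
    have c2 : x ≤ β + m + δ := by
      have : β + m + δ = (C + 2 ^ l * m + 4) / 2 ^ l := by
        rw [hβ, hδ]; field_simp
      rw [this, le_div_iff₀ hlp]
      linarith
    obtain ⟨j, hj, hmj⟩ : ∃ j : ℕ, j < 3 ∧ m = M₀ + (j : ℤ) := by
      rcases hM₀ _ m (by linarith) (by linarith) c1 c2 with h | h | h
      · exact ⟨0, by norm_num, by rw [h]; simp⟩
      · exact ⟨1, by norm_num, by rw [h]; simp⟩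
      · exact ⟨2, by norm_num, by rw [h]; simp⟩
    have hPT : y s * y' s ∈ Tj j := by
      simp only [Tj, PS, mem_filter, mem_image]
      refine ⟨⟨s, hs, rfl⟩, ?_, ?_⟩
      · rw [hlog, ← hmj]; exact c1
      · rw [hlog, ← hmj]; exact c2
    obtain ⟨d1, d2, d3⟩ := hnear j _ hPT
    set P := y s * y' s with hP
    obtain ⟨r, hr⟩ := Nat.exists_eq_add_of_le d2
    set q := r / 2 ^ (w - 3) with hq
    set i := r % 2 ^ (w - 3) with hi
    have hi0 : i < 2 ^ (w - 3) := Nat.mod_lt _ (by positivity)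
    have hi' : i < 2 ^ w := lt_of_lt_of_le hi0 (Nat.pow_le_pow_right (by norm_num) (by omega))
    have hw8 : 2 ^ w = 8 * 2 ^ (w - 3) := by
      rw [show (8:ℕ) = 2 ^ 3 by norm_num, ← pow_add]; congr 1; omega
    have hq5 : q < 73 := by
      rw [hq, Nat.div_lt_iff_lt_mul (by positivity)]
      have : 0 < 2 ^ (w - 3) := by positivity
      omega
    have hrq : r = q * 2 ^ (w - 3) + i := by
      rw [hq, hi, mul_comm]; exact (Nat.div_add_mod r (2 ^ (w - 3))).symm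
    set H := A j + q * 2 ^ (w - 3) with hH
    have hPH : P = H + i := by rw [hr, hH, hrq]; ring
    have hHge : 2 ^ (h + h' - 2) ≤ H := by rw [hH]; exact le_trans d1 (Nat.le_add_right _ _)
    have hHpos : 0 < H := lt_of_lt_of_le (by positivity) hHge
    have hwH : 2 ^ (w - 3) ≤ H := (Nat.pow_le_pow_right (by norm_num) (by omega)).trans hHge
    have hH2 : 2 ^ (l + 2 * (w - 3) + 1) ≤ H ^ 2 := by
      calc 2 ^ (l + 2 * (w - 3) + 1) ≤ 2 ^ ((h + h' - 2) * 2) :=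
            Nat.pow_le_pow_right (by norm_num) (by omega)
        _ = (2 ^ (h + h' - 2)) ^ 2 := by rw [pow_mul]
        _ ≤ H ^ 2 := Nat.pow_le_pow_left hHge 2
    obtain ⟨g1, g2⟩ := log_linear (l := l) hHpos hwH hH2 hi0
    have hlogP : Real.logb 2 ((H + i : ℕ) : ℝ) = x := by
      rw [← hPH]; exact hlog
    rw [hlogP] at g1 g2
    have hmj' : (m:ℝ) = ((M₀ + j : ℤ) : ℝ) := by rw [hmj]
    rw [hmj'] at b1 b2
    obtain ⟨e, he7, heQ⟩ := hcov (j, q) i hi' (t s) (hX _ htX) (by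
      simp only
      rw [← hH]
      simp only [mul_add]
      rw [hβC]
      linarith) (by
      simp only
      rw [← hH]
      simp only [mul_add]
      rw [hβC]
      linarith)
    rw [mem_biUnion]
    refine ⟨(j, (q, e)), ?_, ?_⟩
    · simp only [mem_product, mem_range]
      exact ⟨hj, by rw [hN]; exact hq5, he7⟩
    · rw [mem_inter]
      exact ⟨htX, heQ⟩
  have hcard : Tocc.card ≤ 2847 * B := by
    refine (card_le_card hsub).trans ((card_biUnion_le_card_mul _ _ B ?_).trans (le_of_eq ?_))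
    · intro a _
      exact hB _ _ (Nat.mod_lt _ (Nat.pow_pos (by norm_num))) (hK _)
    · rw [card_product, card_product, card_range, card_range, card_range, hN]
  have hl2 : 3 ≤ l := by omega
  have hfin := gen1 (h := h) (h' := h') hl2 S y t y' Tocc C (fun s hs => by
    obtain ⟨a, b, c, d⟩ := hS s hs
    exact ⟨a, b, mem_image_of_mem _ hs, d⟩) hinj
  have h24 : (6:ℝ) * (1 + 8 * 2 ^ (h + h') / 2 ^ l) ≤ 54 := by
    have : (8:ℝ) * 2 ^ (h + h') / 2 ^ l ≤ 8 := by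
      rw [div_le_iff₀ hlp]
      refine mul_le_mul_of_nonneg_left ?_ (by norm_num)
      exact pow_le_pow_right₀ (by norm_num) (by omega)
    linarith
  have hfin2 : (S.card : ℝ) ≤ Tocc.card * 54 :=
    hfin.trans (mul_le_mul_of_nonneg_left h24 (Nat.cast_nonneg _))
  have hfin3 : S.card ≤ Tocc.card * 54 := by exact_mod_cast hfin2
  calc S.card ≤ Tocc.card * 54 := hfin3
    _ ≤ (2847 * B) * 54 := Nat.mul_le_mul_right _ hcard
    _ = 153738 * B := by ring

/-- `(G3)` : blocks at the same place: `r` bounds the number of block variables for given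
`y`, `y'`. -/
theorem gen3 {α : Type*} {l h h' W r : ℕ} (hW : W + 4 ≤ l) (hh : h + h' + W ≤ l)
    (S : Finset α) (y y' : α → ℕ) (C : ℝ)
    (hS : ∀ s ∈ S, y s ∈ Yq h ∧ y' s ∈ Yq h' ∧ ∃ m : ℤ,
      C + 2 ^ l * m - 2 * 2 ^ W - 4 ≤ 2 ^ l * (Real.logb 2 (y s) + Real.logb 2 (y' s)) ∧
      2 ^ l * (Real.logb 2 (y s) + Real.logb 2 (y' s)) ≤ C + 2 ^ l * m + 4)
    (hr : ∀ y₀ y₀', ∀ (S' : Finset α), S' ⊆ S →
      (∀ s ∈ S', y s = y₀ ∧ y' s = y₀') → S'.card ≤ r) :
    S.card ≤ 66 * r := by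
  classical
  have hlp : (0:ℝ) < 2 ^ l := by positivity
  set D := S.image (fun s => (y s, y' s)) with hD
  have hWl : (16:ℝ) * 2 ^ W ≤ 2 ^ l := by
    calc (16:ℝ) * 2 ^ W = 2 ^ (W + 4) := by rw [pow_add]; ring
      _ ≤ 2 ^ l := pow_le_pow_right₀ (by norm_num) hW
  have hW1 : (1:ℝ) ≤ 2 ^ W := one_le_pow₀ (by norm_num)
  have hD1 : (D.card : ℝ) ≤ 66 := by
    have h3 := card_prod_q (h := h) (h' := h') D (C / 2 ^ l) ((2 * 2 ^ W + 4) / 2 ^ l) (4 / 2 ^ l)
      (by positivity) (by positivity) (by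
        rw [← add_div, div_le_one (by positivity)]
        linarith) ?_
    · refine h3.trans ?_
      have h4 : ((2:ℝ) * 2 ^ W + 4) / 2 ^ l + 4 / 2 ^ l ≤ 10 * 2 ^ W / 2 ^ l := by
        rw [← add_div]
        refine div_le_div_of_nonneg_right ?_ (by positivity)
        linarith
      have h5 : (2:ℝ) ^ (h + h') * (10 * 2 ^ W / 2 ^ l) ≤ 10 := by
        rw [mul_div_assoc', div_le_iff₀ (by positivity)]
        calc (2:ℝ) ^ (h + h') * (10 * 2 ^ W) = 10 * 2 ^ (h + h' + W) := by rw [pow_add]; ring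
          _ ≤ 10 * 2 ^ l := mul_le_mul_of_nonneg_left (pow_le_pow_right₀ (by norm_num) hh)
              (by norm_num)
      have h6 : (2:ℝ) ^ (h + h') * ((2 * 2 ^ W + 4) / 2 ^ l + 4 / 2 ^ l) ≤ 10 :=
        (mul_le_mul_of_nonneg_left h4 (by positivity)).trans h5
      linarith
    · intro p hp
      rw [hD, mem_image] at hp
      obtain ⟨s, hs, rfl⟩ := hp
      obtain ⟨hy, hy', m, a1, a2⟩ := hS s hs
      refine ⟨hy, hy', m, ?_, ?_⟩
      · have : C / 2 ^ l + m - (2 * 2 ^ W + 4) / 2 ^ l =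
            (C + 2 ^ l * m - 2 * 2 ^ W - 4) / 2 ^ l := by
          field_simp; ring
        rw [this, div_le_iff₀ hlp]
        simp only
        linarith
      · have : C / 2 ^ l + m + 4 / 2 ^ l = (C + 2 ^ l * m + 4) / 2 ^ l := by
          field_simp
        rw [this, le_div_iff₀ hlp]
        simp only
        linarith
  have hD2 : D.card ≤ 66 := by exact_mod_cast hD1
  have hfib : ∀ p ∈ D, (S.filter (fun s => (y s, y' s) = p)).card ≤ r := by
    intro p _
    refine hr p.1 p.2 _ (filter_subset _ _) ?_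
    intro s hs
    rw [mem_filter] at hs
    exact ⟨by rw [← hs.2], by rw [← hs.2]⟩
  have h7 : S.card ≤ r * D.card :=
    card_le_mul_card_image_of_maps_to (f := fun s => (y s, y' s))
      (fun s hs => mem_image_of_mem _ hs) r hfib
  calc S.card ≤ r * D.card := h7
    _ ≤ r * 66 := Nat.mul_le_mul_left _ hD2
    _ = 66 * r := mul_comm _ _

end Pool.Agent.ETS.RC
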