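import Mathlib
import Pool.Agent.Helper86.ET.Q2

/-!
# E-T (MP_12a1af_nt), project T*: zones of R type: the real equation and the multiplicities
-/

set_option autoImplicit false

open Finset

namespace Pool.Agent.ETS.RC

/-- data of a zone of R type: digits `a` below `b`, block `τ ∈ X₀` of length `w₀` on
`[b, b + w₀)`, then the R code with the block `t ∈ X` of length `w` on `[b + w₀, v)`. -/
structure RZ where
  b : ℕ
  w₀ : ℕ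
  w : ℕ
  X₀ : Finset ℕ
  X : Finset ℕ
  a : ℕ
  κ₀ : ℕ
  κ : ℕ

namespace RZ

/-- bottom of the R region -/
def u (Z : RZ) : ℕ := Z.b + Z.w₀

/-- the value -/
noncomputable def val (v : ℕ) (Z : RZ) (q : ℕ × ℕ × ℕ) : ℕ :=
  Z.a + 2 ^ Z.b * ((q.1 + Z.κ₀) % 2 ^ Z.w₀) +
    2 ^ Z.u * ((Rc (v - Z.u) q.2.1 + q.2.2 + Z.κ) % 2 ^ (v - Z.u))

/-- the variables -/
def V (v : ℕ) (Z : RZ) : Finset (ℕ × ℕ × ℕ) :=
  Z.X₀ ×ˢ (Yq ((v - Z.u - Z.w) / 2) ×ˢ Z.X)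

/-- the conditions -/
structure Ok (v : ℕ) (Z : RZ) : Prop where
  ha : Z.a < 2 ^ Z.b
  hX₀ : ∀ τ ∈ Z.X₀, τ < 2 ^ Z.w₀
  hX : ∀ t ∈ Z.X, t < 2 ^ Z.w
  hw : Z.w₀ = 0 ∨ Z.w = 0
  huv : Z.u + Z.w ≤ v
  h2 : 2 ∣ v - Z.u - Z.w
  h2w : 2 ∣ Z.w

end RZ

/-- solutions -/
noncomputable def Sol (v n : ℕ) (Z Z' : RZ) : Finset ((ℕ × ℕ × ℕ) × (ℕ × ℕ × ℕ)) :=
  (Z.V v ×ˢ Z'.V v).filter (fun s => Z.val v s.1 + Z'.val v s.2 ≡ n [MOD 2 ^ v])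

lemma mem_Sol {v n : ℕ} {Z Z' : RZ} {s : (ℕ × ℕ × ℕ) × (ℕ × ℕ × ℕ)} :
    s ∈ Sol v n Z Z' ↔ (s.1 ∈ Z.V v ∧ s.2 ∈ Z'.V v) ∧
      Z.val v s.1 + Z'.val v s.2 ≡ n [MOD 2 ^ v] := by
  unfold Sol
  rw [mem_filter, mem_product]

lemma RZ.mem_V {v : ℕ} {Z : RZ} {q : ℕ × ℕ × ℕ} :
    q ∈ Z.V v ↔ q.1 ∈ Z.X₀ ∧ q.2.1 ∈ Yq ((v - Z.u - Z.w) / 2) ∧ q.2.2 ∈ Z.X := by
  unfold RZ.V
  rw [mem_product, mem_product]

lemma card_Sol_comm (v n : ℕ) (Z Z' : RZ) : (Sol v n Z Z').card = (Sol v n Z' Z).card := by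
  refine card_bij (fun s _ => s.swap) ?_ ?_ ?_
  · intro s hs
    rw [mem_Sol] at hs ⊢
    refine ⟨⟨hs.1.2, hs.1.1⟩, ?_⟩
    simp only [Prod.fst_swap, Prod.snd_swap]
    rw [add_comm]
    exact hs.2
  · intro s _ s' _ h
    exact Prod.swap_injective h
  · intro s hs
    rw [mem_Sol] at hs
    refine ⟨s.swap, ?_, Prod.swap_swap s⟩
    rw [mem_Sol]
    refine ⟨⟨hs.1.2, hs.1.1⟩, ?_⟩
    simp only [Prod.fst_swap, Prod.snd_swap]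
    rw [add_comm]
    exact hs.2

/-- the known part of the equation -/
noncomputable def Cst (n : ℕ) (Z Z' : RZ) : ℝ :=
  (n : ℝ) / 2 ^ Z.u - Z.κ - Z'.κ / 2 ^ (Z.u - Z'.u)

lemma low_lt {v : ℕ} {Z : RZ} (hZ : Z.Ok v) (τ : ℕ) :
    Z.a + 2 ^ Z.b * ((τ + Z.κ₀) % 2 ^ Z.w₀) < 2 ^ Z.u := by
  have h1 : (τ + Z.κ₀) % 2 ^ Z.w₀ + 1 ≤ 2 ^ Z.w₀ := Nat.mod_lt _ (by positivity)
  have h2 := Nat.mul_le_mul_left (2 ^ Z.b) h1
  have h3 := hZ.ha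
  rw [RZ.u, pow_add]
  rw [mul_add, mul_one] at h2
  omega

/-- the real equation -/
lemma approx {v n : ℕ} {Z Z' : RZ} (hZ : Z.Ok v) (hZ' : Z'.Ok v) (hu : Z'.u ≤ Z.u)
    {s : (ℕ × ℕ × ℕ) × (ℕ × ℕ × ℕ)} (hs : s ∈ Sol v n Z Z') :
    ∃ m : ℤ, Cst n Z Z' + 2 ^ (v - Z.u) * m - s.1.2.2 - s.2.2.2 / 2 ^ (Z.u - Z'.u) - 2 ≤
        2 ^ (v - Z.u) * (Real.logb 2 s.1.2.1 + Real.logb 2 s.2.2.1) ∧
      2 ^ (v - Z.u) * (Real.logb 2 s.1.2.1 + Real.logb 2 s.2.2.1) ≤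
        Cst n Z Z' + 2 ^ (v - Z.u) * m - s.1.2.2 - s.2.2.2 / 2 ^ (Z.u - Z'.u) + 2 := by
  rw [mem_Sol, RZ.mem_V, RZ.mem_V] at hs
  obtain ⟨⟨⟨-, hy, -⟩, ⟨-, hy', -⟩⟩, he⟩ := hs
  obtain ⟨⟨τ, y, t⟩, ⟨τ', y', t'⟩⟩ := s
  simp only at hy hy' he ⊢
  have hA := low_lt hZ τ
  have hA' := low_lt hZ' τ'
  unfold RZ.val at he
  simp only at he
  set A := Z.a + 2 ^ Z.b * ((τ + Z.κ₀) % 2 ^ Z.w₀) with hAd
  set A' := Z'.a + 2 ^ Z'.b * ((τ' + Z'.κ₀) % 2 ^ Z'.w₀) with hAd'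
  have hv : Z.u ≤ v := by have := hZ.huv; omega
  have hv' : Z'.u ≤ v := by have := hZ'.huv; omega
  obtain ⟨m₀, hm₀⟩ := Nat.modEq_iff_dvd.mp he.symm
  have hy0 := Yq_pos hy
  have hy0' := Yq_pos hy'
  have c1 := Rc_le (l := v - Z.u) hy0
  have c2 := lt_Rc (l := v - Z.u) (y := y)
  have c3 := Rc_le (l := v - Z'.u) hy0'
  have c4 := lt_Rc (l := v - Z'.u) (y := y')
  have d1 := Nat.mod_add_div (Rc (v - Z.u) y + t + Z.κ) (2 ^ (v - Z.u))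
  have d2 := Nat.mod_add_div (Rc (v - Z'.u) y' + t' + Z'.κ) (2 ^ (v - Z'.u))
  set M := (Rc (v - Z.u) y + t + Z.κ) % 2 ^ (v - Z.u) with hM
  set M' := (Rc (v - Z'.u) y' + t' + Z'.κ) % 2 ^ (v - Z'.u) with hM'
  set q := (Rc (v - Z.u) y + t + Z.κ) / 2 ^ (v - Z.u) with hq
  set q' := (Rc (v - Z'.u) y' + t' + Z'.κ) / 2 ^ (v - Z'.u) with hq'
  -- powers of two
  set U : ℝ := 2 ^ Z.u with hU
  set U' : ℝ := 2 ^ Z'.u with hU'
  set L : ℝ := 2 ^ (v - Z.u) with hL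
  set L' : ℝ := 2 ^ (v - Z'.u) with hL'
  set Dd : ℝ := 2 ^ (Z.u - Z'.u) with hDd
  have hUp : 0 < U := by rw [hU]; positivity
  have hUp' : 0 < U' := by rw [hU']; positivity
  have hDp : 0 < Dd := by rw [hDd]; positivity
  have e1 : (2:ℝ) ^ v = U * L := by rw [hU, hL, ← pow_add]; congr 1; omega
  have e2 : (2:ℝ) ^ v = U' * L' := by rw [hU', hL', ← pow_add]; congr 1; omega
  have e3 : U = U' * Dd := by rw [hU, hU', hDd, ← pow_add]; congr 1; omega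
  have hD1 : 1 ≤ Dd := by rw [hDd]; exact one_le_pow₀ (by norm_num)
  have f1 : (M:ℝ) + L * q = Rc (v - Z.u) y + t + Z.κ := by
    rw [hL]; exact_mod_cast d1
  have f2 : (M':ℝ) + L' * q' = Rc (v - Z'.u) y' + t' + Z'.κ := by
    rw [hL']; exact_mod_cast d2
  have f3 : (A:ℝ) + U * M + (A' + U' * M') - n = 2 ^ v * m₀ := by
    rw [hU, hU']
    push_cast at hm₀
    exact_mod_cast hm₀
  have g1 : (A:ℝ) < U := by rw [hU]; exact_mod_cast hA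
  have g2 : (A':ℝ) < U' := by rw [hU']; exact_mod_cast hA'
  have g3 : (0:ℝ) ≤ A := by positivity
  have g4 : (0:ℝ) ≤ A' := by positivity
  have hUU : U' ≤ U := by rw [e3]; exact le_mul_of_one_le_right hUp'.le hD1
  -- the sum of the logarithms times `2^v`
  have k1 : U * (Rc (v - Z.u) y : ℝ) + U' * (Rc (v - Z'.u) y' : ℝ) ≤
      U * (L * (Real.logb 2 y + Real.logb 2 y')) := by
    have h1 := mul_le_mul_of_nonneg_left c1 hUp.le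
    have h2 := mul_le_mul_of_nonneg_left c3 hUp'.le
    have h3 : U' * (L' * Real.logb 2 y') = U * (L * Real.logb 2 y') := by
      rw [← mul_assoc, ← mul_assoc, ← e2, ← e1]
    rw [h3] at h2
    linarith
  have k2 : U * (L * (Real.logb 2 y + Real.logb 2 y')) ≤
      U * (Rc (v - Z.u) y : ℝ) + U' * (Rc (v - Z'.u) y' : ℝ) + 2 * U := by
    have h1 := mul_le_mul_of_nonneg_left c2.le hUp.le
    have h2 := mul_le_mul_of_nonneg_left c4.le hUp'.le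
    have h3 : U' * (L' * Real.logb 2 y') = U * (L * Real.logb 2 y') := by
      rw [← mul_assoc, ← mul_assoc, ← e2, ← e1]
    rw [h3] at h2
    linarith
  have k3 : U * (Rc (v - Z.u) y : ℝ) + U' * (Rc (v - Z'.u) y' : ℝ) =
      n + U * L * (m₀ + q + q' : ℤ) - A - A' - U * (t + Z.κ) - U' * (t' + Z'.κ) := by
    have h1 : (Rc (v - Z.u) y : ℝ) = M + L * q - t - Z.κ := by linarith
    have h2 : (Rc (v - Z'.u) y' : ℝ) = M' + L' * q' - t' - Z'.κ := by linarith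
    rw [h1, h2]
    have h3 : U' * (L' * q') = U * L * q' := by rw [← mul_assoc, ← e2, ← e1]
    have h4 : U * L * (m₀:ℝ) = (A:ℝ) + U * M + (A' + U' * M') - n := by rw [← e1, f3]
    push_cast
    linear_combination h3 - h4
  have k4 : U * (Cst n Z Z' + L * (m₀ + q + q' : ℤ) - t - t' / Dd) =
      n + U * L * (m₀ + q + q' : ℤ) - U * (t + Z.κ) - U' * (t' + Z'.κ) := by
    unfold Cst
    rw [← hU, ← hDd, e3]
    field_simp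
    ring
  refine ⟨m₀ + q + q', ?_, ?_⟩
  · refine le_of_mul_le_mul_left ?_ hUp
    have : U * (Cst n Z Z' + L * (m₀ + q + q' : ℤ) - t - t' / Dd - 2) =
      U * (Cst n Z Z' + L * (m₀ + q + q' : ℤ) - t - t' / Dd) - 2 * U := by ring
    rw [this, k4]
    linarith
  · refine le_of_mul_le_mul_left ?_ hUp
    have : U * (Cst n Z Z' + L * (m₀ + q + q' : ℤ) - t - t' / Dd + 2) =
      U * (Cst n Z Z' + L * (m₀ + q + q' : ℤ) - t - t' / Dd) + 2 * U := by ring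
    rw [this, k4]
    linarith

end Pool.Agent.ETS.RC
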