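import Mathlib
import Pool.Agent.Helper86.ET.Q3

/-!
# E-T (MP_12a1af_nt), project T*: zones of R type: multiplicities of the blocks
-/

set_option autoImplicit false

open Finset

namespace Pool.Agent.ETS.RC

lemma mul_mod_modEq (b w x : ℕ) : 2 ^ b * (x % 2 ^ w) ≡ 2 ^ b * x [MOD 2 ^ (b + w)] := by
  rw [pow_add]
  exact Nat.ModEq.mul_left' _ (Nat.mod_modEq _ _)

lemma mul_modEq_zero {b k : ℕ} (h : k ≤ b) (x : ℕ) : 2 ^ b * x ≡ 0 [MOD 2 ^ k] :=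
  (Nat.modEq_zero_iff_dvd).mpr (Dvd.dvd.mul_right (pow_dvd_pow 2 h) x)

/-- value modulo `2^b` -/
lemma val_mod_b (v : ℕ) (Z : RZ) (q : ℕ × ℕ × ℕ) : Z.val v q ≡ Z.a [MOD 2 ^ Z.b] := by
  unfold RZ.val
  have h1 := mul_modEq_zero (le_refl Z.b) ((q.1 + Z.κ₀) % 2 ^ Z.w₀)
  have h2 := mul_modEq_zero (show Z.b ≤ Z.u by rw [RZ.u]; omega)
    ((Rc (v - Z.u) q.2.1 + q.2.2 + Z.κ) % 2 ^ (v - Z.u))
  exact ((Nat.ModEq.refl Z.a).add h1).add h2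

/-- value modulo `2^u` -/
lemma val_mod_u (v : ℕ) (Z : RZ) (q : ℕ × ℕ × ℕ) :
    Z.val v q ≡ Z.a + 2 ^ Z.b * (q.1 + Z.κ₀) [MOD 2 ^ Z.u] := by
  unfold RZ.val
  have h1 := mul_mod_modEq Z.b Z.w₀ (q.1 + Z.κ₀)
  have h2 := mul_modEq_zero (le_refl Z.u)
    ((Rc (v - Z.u) q.2.1 + q.2.2 + Z.κ) % 2 ^ (v - Z.u))
  have h3 := ((Nat.ModEq.refl Z.a).add (show _ ≡ _ [MOD 2 ^ Z.u] from h1)).add h2
  rwa [add_zero] at h3

/-- value modulo `2^v` -/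
lemma val_mod_v {v : ℕ} {Z : RZ} (hv : Z.u ≤ v) (q : ℕ × ℕ × ℕ) :
    Z.val v q ≡ Z.a + 2 ^ Z.b * ((q.1 + Z.κ₀) % 2 ^ Z.w₀) +
      2 ^ Z.u * (Rc (v - Z.u) q.2.1 + q.2.2 + Z.κ) [MOD 2 ^ v] := by
  unfold RZ.val
  have h1 := mul_mod_modEq Z.u (v - Z.u) (Rc (v - Z.u) q.2.1 + q.2.2 + Z.κ)
  rw [Nat.add_sub_cancel' hv] at h1
  exact (Nat.ModEq.refl _).add h1

/-- the low digits determine the blocks for given `y` -/
lemma inj_low {v : ℕ} {Z : RZ} (hZ : Z.Ok v) {q r : ℕ × ℕ × ℕ} (hq : q ∈ Z.V v) (hr : r ∈ Z.V v)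
    (hy : q.2.1 = r.2.1) (he : Z.val v q ≡ Z.val v r [MOD 2 ^ (Z.u + Z.w)]) : q = r := by
  rw [RZ.mem_V] at hq hr
  have hv : Z.u ≤ v := by have := hZ.huv; omega
  have h1 : q.1 = r.1 := by
    have h2 : Z.val v q ≡ Z.val v r [MOD 2 ^ Z.u] :=
      he.of_dvd (pow_dvd_pow 2 (by omega))
    have h3 := (val_mod_u v Z q).symm.trans (h2.trans (val_mod_u v Z r))
    have h4 := Nat.ModEq.add_left_cancel' _ h3
    rw [RZ.u, pow_add] at h4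
    have h5 := Nat.ModEq.mul_left_cancel' (by positivity) h4
    have h6 := Nat.ModEq.add_right_cancel' _ h5
    exact h6.eq_of_lt_of_lt (hZ.hX₀ _ hq.1) (hZ.hX₀ _ hr.1)
  have h2 : q.2.2 = r.2.2 := by
    have a1 := (val_mod_v hv q).of_dvd (pow_dvd_pow 2 hZ.huv)
    have a2 := (val_mod_v hv r).of_dvd (pow_dvd_pow 2 hZ.huv)
    have a3 := a1.symm.trans (he.trans a2)
    rw [h1, hy] at a3
    have h4 := Nat.ModEq.add_left_cancel' _ a3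
    rw [pow_add] at h4
    have h5 := Nat.ModEq.mul_left_cancel' (by positivity) h4
    have h6 := Nat.ModEq.add_right_cancel' _ h5
    have h7 := Nat.ModEq.add_left_cancel' _ h6
    exact h7.eq_of_lt_of_lt (hZ.hX _ hq.2.2) (hZ.hX _ hr.2.2)
  exact Prod.ext h1 (Prod.ext hy h2)

/-- at most `r` solutions for given `y`, `t`, `y'` -/
def Fib (v n r : ℕ) (Z Z' : RZ) : Prop :=
  ∀ y₀ t₀ y₀', ∀ S' : Finset ((ℕ × ℕ × ℕ) × (ℕ × ℕ × ℕ)), S' ⊆ Sol v n Z Z' →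
    (∀ s ∈ S', s.1.2.1 = y₀ ∧ s.1.2.2 = t₀ ∧ s.2.2.1 = y₀') → S'.card ≤ r

/-- number of representations of the sums of two block sets -/
def Mult (W r : ℕ) (X X' : Finset ℕ) : Prop :=
  ∀ c, ((X ×ˢ X').filter (fun q => (q.1 + q.2) % 2 ^ W = c)).card ≤ r

lemma Fib.of_inj {v n : ℕ} {Z Z' : RZ}
    (h : ∀ s ∈ Sol v n Z Z', ∀ r ∈ Sol v n Z Z', s.1.2.1 = r.1.2.1 → s.1.2.2 = r.1.2.2 →
      s.2.2.1 = r.2.2.1 → s = r) : Fib v n 1 Z Z' := by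
  intro y₀ t₀ y₀' S' hS' hs
  rw [card_le_one]
  intro s hs1 r hr1
  obtain ⟨a1, a2, a3⟩ := hs s hs1
  obtain ⟨b1, b2, b3⟩ := hs r hr1
  exact h s (hS' hs1) r (hS' hr1) (a1.trans b1.symm) (a2.trans b2.symm) (a3.trans b3.symm)

/-- the blocks are separated: uniqueness -/
lemma inj_sep {v n : ℕ} {Z Z' : RZ} (hZ : Z.Ok v) (hZ' : Z'.Ok v)
    (hc : Z.w₀ = 0 ∨ (Z'.w₀ = 0 ∧ Z'.w = 0) ∨ Z'.u + Z'.w ≤ Z.b) :
    ∀ s ∈ Sol v n Z Z', ∀ r ∈ Sol v n Z Z', s.1.2.1 = r.1.2.1 → s.1.2.2 = r.1.2.2 →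
      s.2.2.1 = r.2.2.1 → s = r := by
  intro s hs r hr h1 h2 h3
  rw [mem_Sol] at hs hr
  obtain ⟨⟨hs1, hs2⟩, hse⟩ := hs
  obtain ⟨⟨hr1, hr2⟩, hre⟩ := hr
  have he := hse.trans hre.symm
  have hs1' := RZ.mem_V.mp hs1
  have hr1' := RZ.mem_V.mp hr1
  have hs2' := RZ.mem_V.mp hs2
  have hr2' := RZ.mem_V.mp hr2
  -- if the second components agree
  have key : s.2 = r.2 → s = r := by
    intro h
    rw [h] at he
    have h4 := Nat.ModEq.add_right_cancel' _ he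
    have h5 : Z.val v s.1 ≡ Z.val v r.1 [MOD 2 ^ (Z.u + Z.w)] :=
      h4.of_dvd (pow_dvd_pow 2 hZ.huv)
    exact Prod.ext (inj_low hZ hs1 hr1 h1 h5) h
  rcases hc with hc | ⟨hc1, hc2⟩ | hc
  · have h4 : s.1 = r.1 := by
      have a1 := hZ.hX₀ _ hs1'.1
      have a2 := hZ.hX₀ _ hr1'.1
      rw [hc, pow_zero] at a1 a2
      exact Prod.ext (by omega) (Prod.ext h1 h2)
    rw [h4] at he
    have h5 := Nat.ModEq.add_left_cancel' _ he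
    have h6 : Z'.val v s.2 ≡ Z'.val v r.2 [MOD 2 ^ (Z'.u + Z'.w)] :=
      h5.of_dvd (pow_dvd_pow 2 hZ'.huv)
    exact Prod.ext h4 (inj_low hZ' hs2 hr2 h3 h6)
  · apply key
    have a1 := hZ'.hX₀ _ hs2'.1
    have a2 := hZ'.hX₀ _ hr2'.1
    have a3 := hZ'.hX _ hs2'.2.2
    have a4 := hZ'.hX _ hr2'.2.2
    rw [hc1, pow_zero] at a1 a2
    rw [hc2, pow_zero] at a3 a4
    exact Prod.ext (by omega) (Prod.ext h3 (by omega))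
  · apply key
    have hb : Z.b ≤ v := by have := hZ.huv; rw [RZ.u] at this; omega
    have h4 : Z.val v s.1 + Z'.val v s.2 ≡ Z.val v r.1 + Z'.val v r.2 [MOD 2 ^ Z.b] :=
      he.of_dvd (pow_dvd_pow 2 hb)
    have h5 : Z.val v s.1 ≡ Z.val v r.1 [MOD 2 ^ Z.b] :=
      (val_mod_b v Z s.1).trans (val_mod_b v Z r.1).symm
    have h6 : Z'.val v s.2 ≡ Z'.val v r.2 [MOD 2 ^ Z.b] := Nat.ModEq.add_left_cancel h5 h4
    exact inj_low hZ' hs2 hr2 h3 (h6.of_dvd (pow_dvd_pow 2 hc))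

lemma Fib.sep {v n : ℕ} {Z Z' : RZ} (hZ : Z.Ok v) (hZ' : Z'.Ok v)
    (hc : Z.w₀ = 0 ∨ (Z'.w₀ = 0 ∧ Z'.w = 0) ∨ Z'.u + Z'.w ≤ Z.b) : Fib v n 1 Z Z' :=
  Fib.of_inj (inj_sep hZ hZ' hc)

lemma Fib.mono {v n r r' : ℕ} {Z Z' : RZ} (h : Fib v n r Z Z') (hr : r ≤ r') : Fib v n r' Z Z' :=
  fun y t y' S' h1 h2 => (h y t y' S' h1 h2).trans hr

/-- PT block of the upper zone and R block of the lower zone at the same place -/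
lemma Fib.same {v n r : ℕ} {Z Z' : RZ} (hZ : Z.Ok v) (hZ' : Z'.Ok v) (hb : Z.b = Z'.u)
    (hw : Z.w₀ = Z'.w) (hw0 : Z'.w₀ = 0) (hr : Mult Z.w₀ r Z.X₀ Z'.X) : Fib v n r Z Z' := by
  classical
  intro y₀ t₀ y₀' S' hS' hs
  rcases S'.eq_empty_or_nonempty with he | ⟨s₀, hs₀⟩
  · rw [he]; simp
  refine le_trans ?_ (hr ((s₀.1.1 + s₀.2.2.2) % 2 ^ Z.w₀))
  have hv : Z.u ≤ v := by have := hZ.huv; omega
  have hv' : Z'.u ≤ v := by have := hZ'.huv; omega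
  have hz : ∀ s ∈ S', s.2.1 = 0 := by
    intro s hs1
    have h1 := RZ.mem_V.mp (mem_Sol.mp (hS' hs1)).1.2
    have h2 := hZ'.hX₀ _ h1.1
    rw [hw0, pow_zero] at h2
    omega
  refine card_le_card_of_injOn (fun s => (s.1.1, s.2.2.2)) ?_ ?_
  · intro s hs1
    have hsm := mem_Sol.mp (hS' hs1)
    have hrm := mem_Sol.mp (hS' hs₀)
    rw [mem_coe, mem_filter, mem_product]
    refine ⟨⟨(RZ.mem_V.mp hsm.1.1).1, (RZ.mem_V.mp hsm.1.2).2.2⟩, ?_⟩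
    have he := (hsm.2.trans hrm.2.symm).of_dvd (pow_dvd_pow 2 hv)
    have a1 := val_mod_u v Z s.1
    have a2 := val_mod_u v Z s₀.1
    have a3 := (val_mod_v hv' s.2).of_dvd (pow_dvd_pow 2 hv)
    have a4 := (val_mod_v hv' s₀.2).of_dvd (pow_dvd_pow 2 hv)
    have a5 := ((a1.add a3).symm.trans he).trans (a2.add a4)
    rw [hz s hs1, hz s₀ hs₀, (hs s hs1).2.2, (hs s₀ hs₀).2.2, hb] at a5
    have a6 : (Z.a + (Z'.a + 2 ^ Z'.b * ((0 + Z'.κ₀) % 2 ^ Z'.w₀)) +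
        2 ^ Z'.u * (Z.κ₀ + Rc (v - Z'.u) y₀' + Z'.κ)) + 2 ^ Z'.u * (s.1.1 + s.2.2.2) ≡
        (Z.a + (Z'.a + 2 ^ Z'.b * ((0 + Z'.κ₀) % 2 ^ Z'.w₀)) +
        2 ^ Z'.u * (Z.κ₀ + Rc (v - Z'.u) y₀' + Z'.κ)) + 2 ^ Z'.u * (s₀.1.1 + s₀.2.2.2)
        [MOD 2 ^ Z.u] := by
      convert a5 using 1 <;> ring
    have a7 := Nat.ModEq.add_left_cancel' _ a6
    rw [RZ.u, pow_add, hb] at a7
    exact Nat.ModEq.mul_left_cancel' (by positivity) a7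
  · intro s hs1 q hq1 h
    simp only [Prod.mk.injEq] at h
    obtain ⟨a1, a2, a3⟩ := hs s hs1
    obtain ⟨b1, b2, b3⟩ := hs q hq1
    exact Prod.ext (Prod.ext h.1 (Prod.ext (a1.trans b1.symm) (a2.trans b2.symm)))
      (Prod.ext ((hz s hs1).trans (hz q hq1).symm) (Prod.ext (a3.trans b3.symm) h.2))

/-- PT blocks of both zones at the same place -/
lemma Fib.same' {v n r : ℕ} {Z Z' : RZ} (hZ : Z.Ok v) (hZ' : Z'.Ok v) (hb : Z.b = Z'.b)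
    (hw : Z.w₀ = Z'.w₀) (hw0 : Z'.w = 0) (hr : Mult Z.w₀ r Z.X₀ Z'.X₀) : Fib v n r Z Z' := by
  classical
  intro y₀ t₀ y₀' S' hS' hs
  rcases S'.eq_empty_or_nonempty with he | ⟨s₀, hs₀⟩
  · rw [he]; simp
  refine le_trans ?_ (hr ((s₀.1.1 + s₀.2.1) % 2 ^ Z.w₀))
  have hv : Z.u ≤ v := by have := hZ.huv; omega
  have huu : Z'.u = Z.u := by rw [RZ.u, RZ.u, hb, hw]
  have hz : ∀ s ∈ S', s.2.2.2 = 0 := by
    intro s hs1
    have h1 := RZ.mem_V.mp (mem_Sol.mp (hS' hs1)).1.2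
    have h2 := hZ'.hX _ h1.2.2
    rw [hw0, pow_zero] at h2
    omega
  refine card_le_card_of_injOn (fun s => (s.1.1, s.2.1)) ?_ ?_
  · intro s hs1
    have hsm := mem_Sol.mp (hS' hs1)
    have hrm := mem_Sol.mp (hS' hs₀)
    rw [mem_coe, mem_filter, mem_product]
    refine ⟨⟨(RZ.mem_V.mp hsm.1.1).1, (RZ.mem_V.mp hsm.1.2).1⟩, ?_⟩
    have he := (hsm.2.trans hrm.2.symm).of_dvd (pow_dvd_pow 2 hv)
    have a1 := val_mod_u v Z s.1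
    have a2 := val_mod_u v Z s₀.1
    have a3 := val_mod_u v Z' s.2
    have a4 := val_mod_u v Z' s₀.2
    rw [huu, ← hb] at a3 a4
    have a5 := ((a1.add a3).symm.trans he).trans (a2.add a4)
    have a6 : (Z.a + Z'.a + 2 ^ Z.b * (Z.κ₀ + Z'.κ₀)) + 2 ^ Z.b * (s.1.1 + s.2.1) ≡
        (Z.a + Z'.a + 2 ^ Z.b * (Z.κ₀ + Z'.κ₀)) + 2 ^ Z.b * (s₀.1.1 + s₀.2.1)
        [MOD 2 ^ Z.u] := by
      convert a5 using 1 <;> ring
    have a7 := Nat.ModEq.add_left_cancel' _ a6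
    rw [RZ.u, pow_add] at a7
    exact Nat.ModEq.mul_left_cancel' (by positivity) a7
  · intro s hs1 q hq1 h
    simp only [Prod.mk.injEq] at h
    obtain ⟨a1, a2, a3⟩ := hs s hs1
    obtain ⟨b1, b2, b3⟩ := hs q hq1
    exact Prod.ext (Prod.ext h.1 (Prod.ext (a1.trans b1.symm) (a2.trans b2.symm)))
      (Prod.ext h.2 (Prod.ext (a3.trans b3.symm) ((hz s hs1).trans (hz q hq1).symm)))

/-- R blocks of both zones at the same place -/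
lemma fib_blocks {v n r : ℕ} {Z Z' : RZ} (hZ : Z.Ok v) (hZ' : Z'.Ok v) (hu : Z.u = Z'.u)
    (hw : Z.w = Z'.w) (h0 : Z.w₀ = 0) (h0' : Z'.w₀ = 0) (hr : Mult Z.w r Z.X Z'.X) :
    ∀ y₀ y₀', ∀ S' : Finset ((ℕ × ℕ × ℕ) × (ℕ × ℕ × ℕ)), S' ⊆ Sol v n Z Z' →
    (∀ s ∈ S', s.1.2.1 = y₀ ∧ s.2.2.1 = y₀') → S'.card ≤ r := by
  classical
  intro y₀ y₀' S' hS' hs
  rcases S'.eq_empty_or_nonempty with he | ⟨s₀, hs₀⟩
  · rw [he]; simp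
  refine le_trans ?_ (hr ((s₀.1.2.2 + s₀.2.2.2) % 2 ^ Z.w))
  have hv : Z.u ≤ v := by have := hZ.huv; omega
  have hv' : Z'.u ≤ v := by have := hZ'.huv; omega
  have hz : ∀ s ∈ S', s.1.1 = 0 ∧ s.2.1 = 0 := by
    intro s hs1
    have h1 := RZ.mem_V.mp (mem_Sol.mp (hS' hs1)).1.1
    have h2 := hZ.hX₀ _ h1.1
    have h3 := RZ.mem_V.mp (mem_Sol.mp (hS' hs1)).1.2
    have h4 := hZ'.hX₀ _ h3.1
    rw [h0, pow_zero] at h2
    rw [h0', pow_zero] at h4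
    omega
  refine card_le_card_of_injOn (fun s => (s.1.2.2, s.2.2.2)) ?_ ?_
  · intro s hs1
    have hsm := mem_Sol.mp (hS' hs1)
    have hrm := mem_Sol.mp (hS' hs₀)
    rw [mem_coe, mem_filter, mem_product]
    refine ⟨⟨(RZ.mem_V.mp hsm.1.1).2.2, (RZ.mem_V.mp hsm.1.2).2.2⟩, ?_⟩
    have he := hsm.2.trans hrm.2.symm
    have a1 := val_mod_v hv s.1
    have a2 := val_mod_v hv s₀.1
    have a3 := val_mod_v hv' s.2
    have a4 := val_mod_v hv' s₀.2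
    have a5 := ((a1.add a3).symm.trans he).trans (a2.add a4)
    rw [(hz s hs1).1, (hz s hs1).2, (hz s₀ hs₀).1, (hz s₀ hs₀).2, (hs s hs1).1, (hs s hs1).2,
      (hs s₀ hs₀).1, (hs s₀ hs₀).2, ← hu] at a5
    set A := Z.a + 2 ^ Z.b * ((0 + Z.κ₀) % 2 ^ Z.w₀) with hA
    set A' := Z'.a + 2 ^ Z'.b * ((0 + Z'.κ₀) % 2 ^ Z'.w₀) with hA'
    have a6 : (A + A' + 2 ^ Z.u * (Rc (v - Z.u) y₀ + Z.κ + Rc (v - Z.u) y₀' + Z'.κ)) +
        2 ^ Z.u * (s.1.2.2 + s.2.2.2) ≡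
        (A + A' + 2 ^ Z.u * (Rc (v - Z.u) y₀ + Z.κ + Rc (v - Z.u) y₀' + Z'.κ)) +
        2 ^ Z.u * (s₀.1.2.2 + s₀.2.2.2) [MOD 2 ^ v] := by
      convert a5 using 1 <;> ring
    have a7 := Nat.ModEq.add_left_cancel' _ a6
    have a8 := a7.of_dvd (pow_dvd_pow 2 hZ.huv)
    rw [pow_add] at a8
    exact Nat.ModEq.mul_left_cancel' (by positivity) a8
  · intro s hs1 q hq1 h
    simp only [Prod.mk.injEq] at h
    obtain ⟨a1, a2⟩ := hs s hs1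
    obtain ⟨b1, b2⟩ := hs q hq1
    have c1 := hz s hs1
    have c2 := hz q hq1
    exact Prod.ext (Prod.ext (c1.1.trans c2.1.symm) (Prod.ext (a1.trans b1.symm) h.1))
      (Prod.ext (c1.2.trans c2.2.symm) (Prod.ext (a2.trans b2.symm) h.2))

end Pool.Agent.ETS.RC
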