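import Mathlib
import Pool.Agent.Helper86.ET.Q4
import Pool.Agent.Helper99.ETS.ShortR

/-!
# E-T (MP_12a1af_nt), project T*: zones of R type: the bounds
-/

set_option autoImplicit false

open Finset

namespace Pool.Agent.ETS.RC

/-- the three main variables of a solution -/
def key3 (s : (ℕ × ℕ × ℕ) × (ℕ × ℕ × ℕ)) : ℕ × ℕ × ℕ := (s.1.2.1, s.1.2.2, s.2.2.1)

lemma card_le_key {v n r : ℕ} {Z Z' : RZ} (h : Fib v n r Z Z') :
    (Sol v n Z Z').card ≤ r * ((Sol v n Z Z').image key3).card := by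
  refine card_le_mul_card_image_of_maps_to (f := key3)
    (fun s hs => mem_image_of_mem _ hs) r ?_
  intro d _
  refine h d.1 d.2.1 d.2.2 _ (filter_subset _ _) ?_
  intro s hs
  rw [mem_filter] at hs
  rw [← hs.2]
  exact ⟨rfl, rfl, rfl⟩

/-- the real equation when the lower block is below the upper region -/
lemma approx4 {v n : ℕ} {Z Z' : RZ} (hZ : Z.Ok v) (hZ' : Z'.Ok v) (hu : Z'.u + Z'.w ≤ Z.u)
    {s : (ℕ × ℕ × ℕ) × (ℕ × ℕ × ℕ)} (hs : s ∈ Sol v n Z Z') :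
    ∃ m : ℤ, Cst n Z Z' + 2 ^ (v - Z.u) * m - s.1.2.2 - 3 ≤
        2 ^ (v - Z.u) * (Real.logb 2 s.1.2.1 + Real.logb 2 s.2.2.1) ∧
      2 ^ (v - Z.u) * (Real.logb 2 s.1.2.1 + Real.logb 2 s.2.2.1) ≤
        Cst n Z Z' + 2 ^ (v - Z.u) * m - s.1.2.2 + 2 := by
  obtain ⟨m, h1, h2⟩ := approx hZ hZ' (show Z'.u ≤ Z.u by omega) hs
  have h3 : (0:ℝ) ≤ (s.2.2.2 : ℝ) / 2 ^ (Z.u - Z'.u) := by positivity
  have h4 : (s.2.2.2 : ℝ) / 2 ^ (Z.u - Z'.u) ≤ 1 := by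
    rw [div_le_one (by positivity)]
    have h5 := hZ'.hX _ (RZ.mem_V.mp (mem_Sol.mp hs).1.2).2.2
    have h6 : s.2.2.2 ≤ 2 ^ (Z.u - Z'.u) :=
      h5.le.trans (Nat.pow_le_pow_right (by norm_num) (by omega))
    exact_mod_cast h6
  exact ⟨m, by linarith, by linarith⟩

/-- `(I)` : blocks of the two R regions not in interaction -/
theorem bound_I {v n r : ℕ} {Z Z' : RZ} (hZ : Z.Ok v) (hZ' : Z'.Ok v)
    (hu : Z'.u + Z'.w + Z.w ≤ Z.u) (hl : 3 ≤ v - Z.u) (hX : Z.X.card ≤ 2 ^ (Z.w / 2))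
    (hr : Fib v n r Z Z') :
    (Sol v n Z Z').card ≤ 54 * r * 2 ^ ((Z.u - Z'.u - Z'.w) / 2) := by
  classical
  set h := (v - Z.u - Z.w) / 2 with hh
  set h' := (v - Z'.u - Z'.w) / 2 with hh'
  obtain ⟨c1, hc1⟩ := hZ.h2
  obtain ⟨c2, hc2⟩ := hZ'.h2
  obtain ⟨c3, hc3⟩ := hZ.h2w
  obtain ⟨c4, hc4⟩ := hZ'.h2w
  have huv := hZ.huv
  have huv' := hZ'.huv
  set e := (Z.u - Z'.u - Z'.w - Z.w) / 2 with he
  have e1 : h + h' = (v - Z.u) + e := by omega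
  have e2 : Z.w / 2 + e = (Z.u - Z'.u - Z'.w) / 2 := by omega
  have h1 := gen1 (l := v - Z.u) (h := h) (h' := h') hl ((Sol v n Z Z').image key3)
    (fun d => d.1) (fun d => d.2.1) (fun d => d.2.2) Z.X (Cst n Z Z') (by
      intro d hd
      rw [mem_image] at hd
      obtain ⟨s, hs, rfl⟩ := hd
      have hm := (mem_Sol.mp hs).1
      obtain ⟨m, a1, a2⟩ := approx4 hZ hZ' (by omega) hs
      refine ⟨(RZ.mem_V.mp hm.1).2.1, (RZ.mem_V.mp hm.2).2.1, (RZ.mem_V.mp hm.1).2.2, m, ?_, ?_⟩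
      · simp only [key3]; linarith
      · simp only [key3]; linarith) (by
      intro s _ q _ a b c
      exact Prod.ext a (Prod.ext c b))
  have h2 : (((Sol v n Z Z').image key3).card : ℝ) ≤ 54 * 2 ^ ((Z.u - Z'.u - Z'.w) / 2) := by
    refine h1.trans ?_
    have h3 : (8:ℝ) * 2 ^ (h + h') / 2 ^ (v - Z.u) = 8 * 2 ^ e := by
      rw [e1, pow_add]; field_simp
    have h4 : (1:ℝ) ≤ 2 ^ e := one_le_pow₀ (by norm_num)
    have h5 : (Z.X.card : ℝ) ≤ 2 ^ (Z.w / 2) := by exact_mod_cast hX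
    rw [h3]
    calc (Z.X.card : ℝ) * (6 * (1 + 8 * 2 ^ e)) ≤ 2 ^ (Z.w / 2) * (54 * 2 ^ e) := by
          refine mul_le_mul h5 (by linarith) (by positivity) (by positivity)
      _ = 54 * 2 ^ (Z.w / 2 + e) := by rw [pow_add]; ring
      _ = _ := by rw [e2]
  have h3 : ((Sol v n Z Z').image key3).card ≤ 54 * 2 ^ ((Z.u - Z'.u - Z'.w) / 2) := by
    exact_mod_cast h2
  calc (Sol v n Z Z').card ≤ r * ((Sol v n Z Z').image key3).card := card_le_key hr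
    _ ≤ r * (54 * 2 ^ ((Z.u - Z'.u - Z'.w) / 2)) := Nat.mul_le_mul_left _ h3
    _ = _ := by ring

/-- `(I)` for an empty upper region -/
theorem bound_I0 {v n r : ℕ} {Z Z' : RZ} (hZ : Z.Ok v) (hu : Z.u = v)
    (hr : Fib v n r Z Z') :
    (Sol v n Z Z').card ≤ r * 2 ^ ((v - Z'.u - Z'.w) / 2) := by
  classical
  have huv := hZ.huv
  have hw : Z.w = 0 := by omega
  refine (card_le_key hr).trans (Nat.mul_le_mul_left _ ?_)
  refine le_trans ?_ (card_Yq_le ((v - Z'.u - Z'.w) / 2))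
  refine card_le_card_of_injOn (fun d => d.2.2) ?_ ?_
  · intro d hd
    rw [mem_coe, mem_image] at hd
    obtain ⟨s, hs, rfl⟩ := hd
    exact (RZ.mem_V.mp (mem_Sol.mp hs).1.2).2.1
  · intro d hd d' hd' he
    rw [mem_coe, mem_image] at hd hd'
    obtain ⟨s, hs, rfl⟩ := hd
    obtain ⟨s', hs', rfl⟩ := hd'
    have hone : ∀ q ∈ Sol v n Z Z', q.1.2.1 = 1 ∧ q.1.2.2 = 0 := by
      intro q hq
      have h1 := RZ.mem_V.mp (mem_Sol.mp hq).1.1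
      have h2 := h1.2.1
      have h3 := hZ.hX _ h1.2.2
      rw [hw, pow_zero] at h3
      rw [hu, hw, Nat.sub_self] at h2
      exact ⟨by simpa using h2, by omega⟩
    obtain ⟨a1, a2⟩ := hone s hs
    obtain ⟨b1, b2⟩ := hone s' hs'
    exact Prod.ext (a1.trans b1.symm) (Prod.ext (a2.trans b2.symm) he)

/-- `(II)` : the upper region starts at the end of the lower block and has a block itself -/
theorem bound_II {v n B : ℕ} {Z Z' : RZ} (hZ : Z.Ok v) (hZ' : Z'.Ok v)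
    (hu : Z.u = Z'.u + Z'.w) (hw6 : 6 ≤ Z.w) (hl : 2 * Z.w ≤ v - Z.u)
    (hB : ∀ j k, j < 2 ^ (4 * (Z.w / 2)) → k < 2 ^ (4 * (Z.w / 2)) →
      (Z.X ∩ Qs (Z.w / 2) j k).card ≤ B) :
    (Sol v n Z Z').card ≤ 153738 * B := by
  classical
  set h := (v - Z.u - Z.w) / 2 with hh
  set h' := (v - Z'.u - Z'.w) / 2 with hh'
  obtain ⟨c1, hc1⟩ := hZ.h2
  obtain ⟨c2, hc2⟩ := hZ'.h2
  obtain ⟨c3, hc3⟩ := hZ.h2w
  obtain ⟨c4, hc4⟩ := hZ'.h2w
  have huv := hZ.huv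
  have huv' := hZ'.huv
  have hw0 : Z.w₀ = 0 := by
    rcases hZ.hw with h0 | h0
    · exact h0
    · omega
  refine gen2 (l := v - Z.u) (h := h) (h' := h') (w := Z.w / 2) (by omega) (by omega) (by omega)
    (Sol v n Z Z') (fun s => s.1.2.1) (fun s => s.1.2.2) (fun s => s.2.2.1) Z.X (Cst n Z Z')
    ?_ hB ?_ ?_
  · intro t ht
    have e : 2 * (Z.w / 2) = Z.w := by omega
    rw [e]
    exact hZ.hX t ht
  · intro s hs
    have hm := (mem_Sol.mp hs).1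
    obtain ⟨m, a1, a2⟩ := approx4 hZ hZ' (by omega) hs
    refine ⟨(RZ.mem_V.mp hm.1).2.1, (RZ.mem_V.mp hm.2).2.1, (RZ.mem_V.mp hm.1).2.2, m, ?_, ?_⟩
    · linarith
    · linarith
  · intro s hs q hq a b c
    exact inj_sep hZ hZ' (Or.inl hw0) s hs q hq a c b

/-- `(II)` in length `W` -/
theorem bound_II' {v n B : ℕ} {Z Z' : RZ} (hZ : Z.Ok v) (hZ' : Z'.Ok v)
    (hu : Z.u = Z'.u + Z'.w) (hw0 : Z.w ≠ 0) (hl : v - Z.u = Z.w)
    (hB : ∀ ν, ν < 2 ^ Z.w → (Z.X ∩ SH.QR Z.w (Z.w / 2) ν).card ≤ B) :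
    (Sol v n Z Z').card ≤ 7 * B := by
  classical
  obtain ⟨c1, hc1⟩ := hZ.h2
  obtain ⟨c2, hc2⟩ := hZ'.h2
  obtain ⟨c3, hc3⟩ := hZ.h2w
  obtain ⟨c4, hc4⟩ := hZ'.h2w
  have huv := hZ.huv
  have huv' := hZ'.huv
  have hw00 : Z.w₀ = 0 := by
    rcases hZ.hw with h0 | h0
    · exact h0
    · omega
  have hh : (v - Z.u - Z.w) / 2 = 0 := by omega
  have hh' : (v - Z'.u - Z'.w) / 2 = Z.w / 2 := by omega
  have hy1 : ∀ s ∈ Sol v n Z Z', s.1.2.1 = 1 := by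
    intro s hs
    have := (RZ.mem_V.mp (mem_Sol.mp hs).1.1).2.1
    rw [hh] at this
    simpa using this
  -- the classes
  have hW : (0:ℤ) < ((2 ^ Z.w : ℕ) : ℤ) := by positivity
  let ν : ℕ → ℕ := fun j => ((⌊Cst n Z Z'⌋ - 4 + j) % ((2 ^ Z.w : ℕ) : ℤ)).toNat
  have hν : ∀ j, ((ν j : ℕ) : ℤ) ≡ ⌊Cst n Z Z'⌋ - 4 + j [ZMOD ((2 ^ Z.w : ℕ) : ℤ)] := by
    intro j
    simp only [ν]
    rw [Int.toNat_of_nonneg (Int.emod_nonneg _ hW.ne')]
    exact Int.mod_modEq _ _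
  let F : ℕ → Finset (ℕ × ℕ) := fun j =>
    ((Sol v n Z Z').image (fun s => (s.1.2.2, s.2.2.1))).filter
      (fun p => p.1 + Rc Z.w p.2 ≡ ν j [MOD 2 ^ Z.w])
  have hF : ∀ j, (F j).card ≤ B := by
    intro j
    refine SH.card_core (h' := Z.w / 2) (ν := ν j) (by omega) Z.X hZ.hX ?_ (F j) ?_
    · rw [SH.QR_mod]
      exact hB _ (Nat.mod_lt _ (by positivity))
    · intro p hp
      simp only [F, mem_filter, mem_image] at hp
      obtain ⟨⟨s, hs, rfl⟩, h1⟩ := hp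
      have hm := (mem_Sol.mp hs).1
      refine ⟨(RZ.mem_V.mp hm.1).2.2, ?_, h1⟩
      have := (RZ.mem_V.mp hm.2).2.1
      rw [hh', Yq_of_pos (by omega)] at this
      exact this
  have hcov : (Sol v n Z Z').image (fun s => (s.1.2.2, s.2.2.1)) ⊆ (range 7).biUnion F := by
    intro p hp
    rw [mem_image] at hp
    obtain ⟨s, hs, rfl⟩ := hp
    obtain ⟨m, a1, a2⟩ := approx4 hZ hZ' (by omega) hs
    rw [hy1 s hs, hl] at a1 a2
    have hlog1 : Real.logb 2 ((1:ℕ):ℝ) = 0 := by simp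
    rw [hlog1, zero_add] at a1 a2
    have hm := (mem_Sol.mp hs).1
    have hy' := Yq_pos (RZ.mem_V.mp hm.2).2.1
    have b1 := Rc_le (l := Z.w) hy'
    have b2 := lt_Rc (l := Z.w) (y := s.2.2.1)
    set R := Rc Z.w s.2.2.1 with hR
    set c := ⌊Cst n Z Z'⌋ with hc
    have c1' : (c:ℝ) ≤ Cst n Z Z' := Int.floor_le _
    have c2' : Cst n Z Z' < c + 1 := Int.lt_floor_add_one _
    have d1 : ((c:ℤ) : ℝ) - 4 < ((s.1.2.2 : ℤ) : ℝ) + (R:ℤ) - ((2 ^ Z.w : ℕ) : ℤ) * m := by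
      push_cast; linarith
    have d2 : ((s.1.2.2 : ℤ) : ℝ) + (R:ℤ) - ((2 ^ Z.w : ℕ) : ℤ) * m < ((c:ℤ) : ℝ) + 3 := by
      push_cast; linarith
    have d1' : c - 4 < (s.1.2.2 : ℤ) + (R:ℤ) - ((2 ^ Z.w : ℕ) : ℤ) * m := by exact_mod_cast d1
    have d2' : (s.1.2.2 : ℤ) + (R:ℤ) - ((2 ^ Z.w : ℕ) : ℤ) * m < c + 3 := by exact_mod_cast d2
    obtain ⟨j, hj⟩ := Int.eq_ofNat_of_zero_le
      (show 0 ≤ (s.1.2.2 : ℤ) + (R:ℤ) - ((2 ^ Z.w : ℕ) : ℤ) * m - (c - 4) by linarith)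
    rw [mem_biUnion]
    refine ⟨j, mem_range.mpr (by omega), ?_⟩
    simp only [F, mem_filter]
    refine ⟨mem_image_of_mem _ hs, ?_⟩
    rw [← Int.natCast_modEq_iff]
    refine Int.ModEq.trans ?_ (hν j).symm
    push_cast
    rw [← hR]
    have e : (s.1.2.2 : ℤ) + (R:ℤ) = (c - 4 + j) + 2 ^ Z.w * m := by
      push_cast at hj; linarith
    rw [e]
    exact (Int.modEq_iff_dvd.mpr ⟨-m, by ring⟩)
  have hinj : Set.InjOn (fun s : (ℕ × ℕ × ℕ) × (ℕ × ℕ × ℕ) => (s.1.2.2, s.2.2.1))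
      (Sol v n Z Z') := by
    intro s hs q hq he
    simp only [Prod.mk.injEq] at he
    exact inj_sep hZ hZ' (Or.inl hw00) s hs q hq ((hy1 s hs).trans (hy1 q hq).symm) he.1 he.2
  rw [← card_image_of_injOn hinj]
  refine (card_le_card hcov).trans ((card_biUnion_le_card_mul _ _ B (fun j _ => hF j)).trans ?_)
  rw [card_range]

/-- `(III)` : blocks of the two R regions at the same place -/
theorem bound_III {v n r : ℕ} {Z Z' : RZ} (hZ : Z.Ok v) (hZ' : Z'.Ok v)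
    (hu : Z.u = Z'.u) (hw : Z.w = Z'.w) (h0 : Z.w₀ = 0) (h0' : Z'.w₀ = 0)
    (hl : v - Z.u = Z.w ∨ Z.w + 4 ≤ v - Z.u) (hr : Mult Z.w r Z.X Z'.X) :
    (Sol v n Z Z').card ≤ 66 * r := by
  classical
  obtain ⟨c1, hc1⟩ := hZ.h2
  obtain ⟨c2, hc2⟩ := hZ'.h2
  obtain ⟨c3, hc3⟩ := hZ.h2w
  obtain ⟨c4, hc4⟩ := hZ'.h2w
  have huv := hZ.huv
  have huv' := hZ'.huv
  have hfib := fib_blocks (n := n) hZ hZ' hu hw h0 h0' hr
  rcases hl with hl | hl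
  · have h1 : (Sol v n Z Z').card ≤ r := by
      refine hfib 1 1 _ (Subset.refl _) ?_
      intro s hs
      have hm := (mem_Sol.mp hs).1
      have a1 := (RZ.mem_V.mp hm.1).2.1
      have a2 := (RZ.mem_V.mp hm.2).2.1
      have e1 : (v - Z.u - Z.w) / 2 = 0 := by omega
      have e2 : (v - Z'.u - Z'.w) / 2 = 0 := by omega
      rw [e1] at a1
      rw [e2] at a2
      exact ⟨by simpa using a1, by simpa using a2⟩
    omega
  · refine gen3 (l := v - Z.u) (h := (v - Z.u - Z.w) / 2) (h' := (v - Z'.u - Z'.w) / 2)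
      (W := Z.w) hl (by omega) (Sol v n Z Z') (fun s => s.1.2.1) (fun s => s.2.2.1)
      (Cst n Z Z') ?_ (fun y₀ y₀' S' h1 h2 => hfib y₀ y₀' S' h1 h2)
    intro s hs
    have hm := (mem_Sol.mp hs).1
    obtain ⟨m, a1, a2⟩ := approx hZ hZ' (by omega) hs
    have b1 : (s.1.2.2 : ℝ) ≤ 2 ^ Z.w := by
      have := hZ.hX _ (RZ.mem_V.mp hm.1).2.2
      exact_mod_cast this.le
    have b2 : (s.2.2.2 : ℝ) / 2 ^ (Z.u - Z'.u) ≤ 2 ^ Z.w := by
      rw [hu, Nat.sub_self, pow_zero, div_one, hw]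
      have := hZ'.hX _ (RZ.mem_V.mp hm.2).2.2
      exact_mod_cast this.le
    have b3 : (0:ℝ) ≤ (s.2.2.2 : ℝ) / 2 ^ (Z.u - Z'.u) := by positivity
    have b4 : (0:ℝ) ≤ (s.1.2.2 : ℝ) := by positivity
    exact ⟨(RZ.mem_V.mp hm.1).2.1, (RZ.mem_V.mp hm.2).2.1, m, by linarith, by linarith⟩

/-- trivial version for an empty upper region -/
theorem bound_triv0 {v n : ℕ} {Z Z' : RZ} (hZ : Z.Ok v) (hu : Z.u = v) :
    (Sol v n Z Z').card ≤
      (Z.X₀.card * Z.X.card * (Z'.X₀.card * Z'.X.card)) * 2 ^ ((v - Z'.u - Z'.w) / 2) := by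
  classical
  have huv := hZ.huv
  have hw : Z.w = 0 := by omega
  have h1 : (Z.V v).card ≤ Z.X₀.card * Z.X.card := by
    unfold RZ.V
    rw [card_product, card_product, hu, hw, Nat.sub_self]
    simp
  have h2 : (Z'.V v).card ≤ Z'.X₀.card * Z'.X.card * 2 ^ ((v - Z'.u - Z'.w) / 2) := by
    unfold RZ.V
    rw [card_product, card_product]
    calc Z'.X₀.card * ((Yq ((v - Z'.u - Z'.w) / 2)).card * Z'.X.card)
        ≤ Z'.X₀.card * (2 ^ ((v - Z'.u - Z'.w) / 2) * Z'.X.card) :=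
          Nat.mul_le_mul_left _ (Nat.mul_le_mul_right _ (card_Yq_le _))
      _ = _ := by ring
  unfold Sol
  refine (card_filter_le _ _).trans ?_
  rw [card_product]
  calc (Z.V v).card * (Z'.V v).card ≤ (Z.X₀.card * Z.X.card) *
        (Z'.X₀.card * Z'.X.card * 2 ^ ((v - Z'.u - Z'.w) / 2)) := Nat.mul_le_mul h1 h2
    _ = _ := by ring

/-- trivial version: any blocks -/
theorem bound_triv {v n : ℕ} {Z Z' : RZ} (hZ : Z.Ok v) (hZ' : Z'.Ok v) (hu : Z'.u ≤ Z.u)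
    (hl : 2 ≤ v - Z.u) : (Sol v n Z Z').card ≤
      (Z.X₀.card * Z.X.card * (Z'.X₀.card * Z'.X.card)) * (30 * 2 ^ ((Z.u - Z'.u) / 2)) := by
  classical
  obtain ⟨c1, hc1⟩ := hZ.h2
  obtain ⟨c2, hc2⟩ := hZ'.h2
  obtain ⟨c3, hc3⟩ := hZ.h2w
  obtain ⟨c4, hc4⟩ := hZ'.h2w
  have huv := hZ.huv
  have huv' := hZ'.huv
  let g : (ℕ × ℕ × ℕ) × (ℕ × ℕ × ℕ) → (ℕ × ℕ) × (ℕ × ℕ) :=
    fun s => ((s.1.1, s.1.2.2), (s.2.1, s.2.2.2))
  have hmaps : ∀ s ∈ Sol v n Z Z', g s ∈ (Z.X₀ ×ˢ Z.X) ×ˢ (Z'.X₀ ×ˢ Z'.X) := by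
    intro s hs
    have hm := (mem_Sol.mp hs).1
    have a1 := RZ.mem_V.mp hm.1
    have a2 := RZ.mem_V.mp hm.2
    simp only [g, mem_product]
    exact ⟨⟨a1.1, a1.2.2⟩, ⟨a2.1, a2.2.2⟩⟩
  have hfib : ∀ d ∈ (Z.X₀ ×ˢ Z.X) ×ˢ (Z'.X₀ ×ˢ Z'.X),
      ((Sol v n Z Z').filter (fun s => g s = d)).card ≤ 30 * 2 ^ ((Z.u - Z'.u) / 2) := by
    intro d _
    set St := (Sol v n Z Z').filter (fun s => g s = d) with hSt
    have hinj : Set.InjOn (fun s : (ℕ × ℕ × ℕ) × (ℕ × ℕ × ℕ) => (s.1.2.1, s.2.2.1)) St := by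
      intro s hs q hq he
      simp only [hSt, coe_filter, Set.mem_ofPred_eq] at hs hq
      have h1 := hs.2.trans hq.2.symm
      simp only [g, Prod.mk.injEq] at h1 he
      exact Prod.ext (Prod.ext h1.1.1 (Prod.ext he.1 h1.1.2))
        (Prod.ext h1.2.1 (Prod.ext he.2 h1.2.2))
    rw [← card_image_of_injOn hinj]
    have hlp : (0:ℝ) < 2 ^ (v - Z.u) := by positivity
    have h4 : (4:ℝ) ≤ 2 ^ (v - Z.u) := by
      calc (4:ℝ) = 2 ^ 2 := by norm_num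
        _ ≤ 2 ^ (v - Z.u) := pow_le_pow_right₀ (by norm_num) hl
    have h3 := card_prod_q (h := (v - Z.u - Z.w) / 2) (h' := (v - Z'.u - Z'.w) / 2)
      (St.image (fun s => (s.1.2.1, s.2.2.1)))
      ((Cst n Z Z' - d.1.2 - d.2.2 / 2 ^ (Z.u - Z'.u)) / 2 ^ (v - Z.u)) (2 / 2 ^ (v - Z.u))
      (2 / 2 ^ (v - Z.u)) (by positivity) (by positivity)
      (by rw [← add_div, div_le_one hlp]; linarith) ?_
    · have e1 : ((v - Z.u - Z.w) / 2 + (v - Z'.u - Z'.w) / 2) ≤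
          (v - Z.u) + (Z.u - Z'.u) / 2 := by omega
      have e2 : (2:ℝ) ^ ((v - Z.u - Z.w) / 2 + (v - Z'.u - Z'.w) / 2) ≤
          2 ^ (v - Z.u) * 2 ^ ((Z.u - Z'.u) / 2) := by
        rw [← pow_add]
        exact pow_le_pow_right₀ (by norm_num) e1
      have e3 : (2:ℝ) ^ ((v - Z.u - Z.w) / 2 + (v - Z'.u - Z'.w) / 2) *
          (2 / 2 ^ (v - Z.u) + 2 / 2 ^ (v - Z.u)) ≤ 4 * 2 ^ ((Z.u - Z'.u) / 2) := by
        calc _ ≤ (2 ^ (v - Z.u) * 2 ^ ((Z.u - Z'.u) / 2)) *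
              (2 / 2 ^ (v - Z.u) + 2 / 2 ^ (v - Z.u)) :=
              mul_le_mul_of_nonneg_right e2 (by positivity)
          _ = 4 * 2 ^ ((Z.u - Z'.u) / 2) := by field_simp; ring
      have e4 : (1:ℝ) ≤ 2 ^ ((Z.u - Z'.u) / 2) := one_le_pow₀ (by norm_num)
      have e5 : (((St.image (fun s => (s.1.2.1, s.2.2.1))).card : ℕ) : ℝ) ≤
          30 * 2 ^ ((Z.u - Z'.u) / 2) := by linarith
      exact_mod_cast e5
    · intro p hp
      rw [mem_image] at hp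
      obtain ⟨s, hs, rfl⟩ := hp
      rw [hSt, mem_filter] at hs
      have hm := (mem_Sol.mp hs.1).1
      obtain ⟨m, a1, a2⟩ := approx hZ hZ' hu hs.1
      have h5 := hs.2
      simp only [g] at h5
      have h6 : s.1.2.2 = d.1.2 := by rw [← h5]
      have h7 : s.2.2.2 = d.2.2 := by rw [← h5]
      rw [h6, h7] at a1 a2
      refine ⟨(RZ.mem_V.mp hm.1).2.1, (RZ.mem_V.mp hm.2).2.1, m, ?_, ?_⟩
      · have : (Cst n Z Z' - d.1.2 - d.2.2 / 2 ^ (Z.u - Z'.u)) / 2 ^ (v - Z.u) + m -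
            2 / 2 ^ (v - Z.u) = (Cst n Z Z' + 2 ^ (v - Z.u) * m - d.1.2 -
              d.2.2 / 2 ^ (Z.u - Z'.u) - 2) / 2 ^ (v - Z.u) := by
          generalize (d.2.2 : ℝ) / 2 ^ (Z.u - Z'.u) = x
          field_simp; ring
        rw [this, div_le_iff₀ hlp]
        simp only
        linarith
      · have : (Cst n Z Z' - d.1.2 - d.2.2 / 2 ^ (Z.u - Z'.u)) / 2 ^ (v - Z.u) + m +
            2 / 2 ^ (v - Z.u) = (Cst n Z Z' + 2 ^ (v - Z.u) * m - d.1.2 -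
              d.2.2 / 2 ^ (Z.u - Z'.u) + 2) / 2 ^ (v - Z.u) := by
          generalize (d.2.2 : ℝ) / 2 ^ (Z.u - Z'.u) = x
          field_simp; ring
        rw [this, le_div_iff₀ hlp]
        simp only
        linarith
  have h1 := card_le_mul_card_image_of_maps_to hmaps _ hfib
  refine h1.trans (le_of_eq ?_)
  rw [card_product, card_product, card_product]
  ring

end Pool.Agent.ETS.RC
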