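import Mathlib
import Pool.Agent.Helper86.ET.Q5
import Pool.Agent.ETS.Zone

/-!
# E-T (MP_12a1af_nt), project T*: pairs of zones of R type with the same top

`RHyp C e B r` collects what is needed of the codes.  `RKind` are the four kinds of zones of R type
above a position `b`; the boundary interval is `[lo, hi]`.
-/

set_option autoImplicit false

open Finset

namespace Pool.Agent.ETS.RC

/-- the zone of the data -/
noncomputable def RZ.zone (v : ℕ) (Q : RZ) : Zone where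
  top := v
  S := (Q.V v).image (Q.val v)

lemma zcons_le_Sol {K K' n v : ℕ} (Q Q' : RZ) (hv : v ≤ K) (hv' : v ≤ K') :
    (zcons K K' n (Q.zone v) (Q'.zone v)).card ≤ (Sol v n Q Q').card := by
  classical
  have hsub : zcons K K' n (Q.zone v) (Q'.zone v) ⊆
      (Sol v n Q Q').image (fun s => (Q.val v s.1, Q'.val v s.2)) := by
    intro s hs
    have h1 := zcons_modEq (m := v) hv hv' hs (le_refl _) (le_refl _)
    rw [mem_zcons] at hs
    obtain ⟨⟨h2, h3⟩, -⟩ := hs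
    simp only [RZ.zone, mem_image] at h2 h3
    obtain ⟨q, hq, hq2⟩ := h2
    obtain ⟨q', hq', hq2'⟩ := h3
    rw [mem_image]
    refine ⟨(q, q'), ?_, Prod.ext hq2 hq2'⟩
    rw [mem_Sol]
    refine ⟨⟨hq, hq'⟩, ?_⟩
    simp only
    rw [hq2, hq2']
    exact h1
  exact (card_le_card hsub).trans card_image_le

/-- the basic hypotheses on the codes in epoch `e` -/
structure RBase (C : Codes) (e : ℕ) : Prop where
  hY : ∀ l, C.Y l = Yq (l / 2)
  hE : ∀ l y, C.E l y = Rc l y % 2 ^ l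
  hW : 2 ∣ C.W e
  hW8 : 8 ≤ C.W e
  hT : ∀ t ∈ C.T e, t < 2 ^ C.W e
  hTh : ∀ t ∈ C.Th e, t < 2 ^ C.W e
  cT : (C.T e).card ≤ 2 ^ (C.W e / 2)
  cTh : (C.Th e).card ≤ 2 ^ (C.W e / 2)

/-- the hypotheses on the codes in epoch `e` -/
structure RHyp (C : Codes) (e B r : ℕ) : Prop extends RBase C e where
  fT : ∀ j k, j < 2 ^ (4 * (C.W e / 2)) → k < 2 ^ (4 * (C.W e / 2)) →
    (C.T e ∩ Qs (C.W e / 2) j k).card ≤ B
  fTh : ∀ j k, j < 2 ^ (4 * (C.W e / 2)) → k < 2 ^ (4 * (C.W e / 2)) →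
    (C.Th e ∩ Qs (C.W e / 2) j k).card ≤ B
  gT : ∀ ν, ν < 2 ^ C.W e → (C.T e ∩ SH.QR (C.W e) (C.W e / 2) ν).card ≤ B
  gTh : ∀ ν, ν < 2 ^ C.W e → (C.Th e ∩ SH.QR (C.W e) (C.W e / 2) ν).card ≤ B
  mTT : Mult (C.W e) r (C.T e) (C.T e)
  mTTh : Mult (C.W e) r (C.T e) (C.Th e)
  mThT : Mult (C.W e) r (C.Th e) (C.T e)
  mThTh : Mult (C.W e) r (C.Th e) (C.Th e)
  r1 : 1 ≤ r
  rB : r ≤ B

/-- kinds of zones of R type: plain, with `T`, with `Theta`, plain above `PT` -/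
inductive RKind
  | R
  | RT
  | RTh
  | RS

namespace RKind

/-- lower end of the boundary interval -/
def lo (W : ℕ) (k : RKind) (b : ℕ) : ℕ :=
  match k with
  | R => b
  | RT => b
  | RTh => b
  | RS => b + W

/-- upper end of the boundary interval -/
def hi (W : ℕ) (k : RKind) (b : ℕ) : ℕ :=
  match k with
  | R => b
  | RT => b + W
  | RTh => b + W
  | RS => b + W

/-- the zone: digits `a` below `b`, shifts `κ₀` (only used for `RS`) and `κ` -/
def zone (C : Codes) (e v : ℕ) (k : RKind) (b a κ₀ κ : ℕ) : Zone :=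
  match k with
  | R => zreg C (Reg.R b v) a κ
  | RT => zreg C (Reg.RT e b v) a κ
  | RTh => zreg C (Reg.RTh e b v) a κ
  | RS => zRS C e b v a κ₀ κ

/-- the data of the zone -/
def rz (C : Codes) (e : ℕ) (k : RKind) (b a κ₀ κ : ℕ) : RZ :=
  match k with
  | R => ⟨b, 0, 0, {0}, {0}, a, 0, κ⟩
  | RT => ⟨b, 0, C.W e, {0}, C.T e, a, 0, κ⟩
  | RTh => ⟨b, 0, C.W e, {0}, C.Th e, a, 0, κ⟩
  | RS => ⟨b, C.W e, 0, C.T e, {0}, a, κ₀, κ⟩

end RKind

lemma mod_add_mod_left (a b m : ℕ) : (a % m + b) % m = (a + b) % m := by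
  rw [Nat.add_mod, Nat.mod_mod, ← Nat.add_mod]

lemma zone_eq {C : Codes} {e : ℕ} (hC : RBase C e) (v : ℕ) (k : RKind) (b a κ₀ κ : ℕ) :
    k.zone C e v b a κ₀ κ = (k.rz C e b a κ₀ κ).zone v := by
  classical
  cases k with
  | R =>
    simp only [RKind.zone, RKind.rz, RZ.zone, zreg, Reg.top, Reg.V, Reg.bot, Reg.c, Zone.mk.injEq,
      true_and]
    ext s
    simp only [mem_image]
    constructor
    · rintro ⟨y, hy, rfl⟩
      rw [hC.hY] at hy
      refine ⟨(0, y, 0), ?_, ?_⟩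
      · rw [RZ.mem_V]
        simpa [RZ.u] using hy
      · simp only [RZ.val, RZ.u, add_zero, pow_zero, Nat.mod_one, mul_zero]
        rw [hC.hE, mod_add_mod_left]
    · rintro ⟨q, hq, rfl⟩
      rw [RZ.mem_V] at hq
      simp only [mem_singleton, RZ.u, add_zero, Nat.sub_zero] at hq
      refine ⟨q.2.1, ?_, ?_⟩
      · rw [hC.hY]; exact hq.2.1
      · simp only [RZ.val, RZ.u, add_zero, pow_zero, Nat.mod_one, mul_zero]
        rw [hC.hE, mod_add_mod_left, hq.2.2, add_zero]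
  | RT =>
    simp only [RKind.zone, RKind.rz, RZ.zone, zreg, Reg.top, Reg.V, Reg.bot, Reg.c, Zone.mk.injEq,
      true_and]
    ext s
    simp only [mem_image]
    constructor
    · rintro ⟨y, hy, rfl⟩
      rw [mem_pairs, hC.hY] at hy
      refine ⟨(0, (Nat.unpair y).1, (Nat.unpair y).2), ?_, ?_⟩
      · rw [RZ.mem_V]
        simpa [RZ.u] using hy
      · simp only [RZ.val, RZ.u, add_zero, pow_zero, Nat.mod_one, mul_zero]
        rw [hC.hE, add_assoc, add_assoc, mod_add_mod_left]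
    · rintro ⟨q, hq, rfl⟩
      rw [RZ.mem_V] at hq
      simp only [mem_singleton, RZ.u, add_zero] at hq
      refine ⟨Nat.pair q.2.1 q.2.2, ?_, ?_⟩
      · rw [mem_pairs, hC.hY, Nat.unpair_pair]; exact hq.2
      · simp only [RZ.val, RZ.u, add_zero, pow_zero, Nat.mod_one, mul_zero, Nat.unpair_pair]
        rw [hC.hE, add_assoc, add_assoc, mod_add_mod_left]
  | RTh =>
    simp only [RKind.zone, RKind.rz, RZ.zone, zreg, Reg.top, Reg.V, Reg.bot, Reg.c, Zone.mk.injEq,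
      true_and]
    ext s
    simp only [mem_image]
    constructor
    · rintro ⟨y, hy, rfl⟩
      rw [mem_pairs, hC.hY] at hy
      refine ⟨(0, (Nat.unpair y).1, (Nat.unpair y).2), ?_, ?_⟩
      · rw [RZ.mem_V]
        simpa [RZ.u] using hy
      · simp only [RZ.val, RZ.u, add_zero, pow_zero, Nat.mod_one, mul_zero]
        rw [hC.hE, add_assoc, add_assoc, mod_add_mod_left]
    · rintro ⟨q, hq, rfl⟩
      rw [RZ.mem_V] at hq
      simp only [mem_singleton, RZ.u, add_zero] at hq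
      refine ⟨Nat.pair q.2.1 q.2.2, ?_, ?_⟩
      · rw [mem_pairs, hC.hY, Nat.unpair_pair]; exact hq.2
      · simp only [RZ.val, RZ.u, add_zero, pow_zero, Nat.mod_one, mul_zero, Nat.unpair_pair]
        rw [hC.hE, add_assoc, add_assoc, mod_add_mod_left]
  | RS =>
    simp only [RKind.zone, RKind.rz, RZ.zone, zRS, Zone.mk.injEq, true_and]
    ext s
    simp only [mem_image]
    constructor
    · rintro ⟨y, hy, rfl⟩
      rw [mem_pairs, hC.hY] at hy
      refine ⟨((Nat.unpair y).2, (Nat.unpair y).1, 0), ?_, ?_⟩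
      · rw [RZ.mem_V]
        simp only [RZ.u, mem_singleton, Nat.sub_zero]
        exact ⟨hy.2, hy.1, trivial⟩
      · simp only [RZ.val, RZ.u, add_zero]
        rw [hC.hE, mod_add_mod_left]
    · rintro ⟨q, hq, rfl⟩
      rw [RZ.mem_V] at hq
      simp only [mem_singleton, RZ.u, Nat.sub_zero] at hq
      refine ⟨Nat.pair q.2.1 q.1, ?_, ?_⟩
      · rw [mem_pairs, hC.hY, Nat.unpair_pair]; exact ⟨hq.2.1, hq.1⟩
      · simp only [RZ.val, RZ.u, Nat.unpair_pair]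
        rw [hC.hE, mod_add_mod_left, hq.2.2, add_zero]

/-- conditions on the position of a zone -/
structure RPos (W v : ℕ) (k : RKind) (b a : ℕ) : Prop where
  ha : a < 2 ^ b
  hb : b < v
  hhi : k.hi W b ≤ v
  hdvd : W ∣ v - b

lemma rz_u (C : Codes) (e : ℕ) (k : RKind) (b a κ₀ κ : ℕ) :
    (k.rz C e b a κ₀ κ).u = k.lo (C.W e) b := by
  cases k <;> rfl

lemma rz_uw (C : Codes) (e : ℕ) (k : RKind) (b a κ₀ κ : ℕ) :
    (k.rz C e b a κ₀ κ).u + (k.rz C e b a κ₀ κ).w = k.hi (C.W e) b := by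
  cases k <;> rfl

lemma two_dvd_of {W v b : ℕ} (hW : 2 ∣ W) (h : W ∣ v - b) : 2 ∣ v - b := hW.trans h

lemma rz_ok {C : Codes} {e : ℕ} (hC : RBase C e) {v : ℕ} {k : RKind} {b a : ℕ}
    (h : RPos (C.W e) v k b a) (κ₀ κ : ℕ) : (k.rz C e b a κ₀ κ).Ok v := by
  have hlo := h.hb
  have hhi := h.hhi
  obtain ⟨c, hc⟩ := two_dvd_of hC.hW h.hdvd
  obtain ⟨d, hd⟩ := hC.hW
  cases k with
  | R =>
    refine ⟨h.ha, ?_, ?_, Or.inl rfl, by rw [rz_uw]; exact h.hhi, ?_, ?_⟩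
    · intro τ hτ; simp only [RKind.rz, mem_singleton] at hτ ⊢; subst hτ; simp
    · intro τ hτ; simp only [RKind.rz, mem_singleton] at hτ ⊢; subst hτ; simp
    · simp only [RKind.rz, RZ.u, add_zero, Nat.sub_zero]; exact ⟨c, hc⟩
    · simp [RKind.rz]
  | RT =>
    refine ⟨h.ha, ?_, ?_, Or.inl rfl, by rw [rz_uw]; exact h.hhi, ?_, ?_⟩
    · intro τ hτ; simp only [RKind.rz, mem_singleton] at hτ ⊢; subst hτ; simp
    · exact hC.hT
    · simp only [RKind.rz, RZ.u, add_zero]; omega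
    · exact hC.hW
  | RTh =>
    refine ⟨h.ha, ?_, ?_, Or.inl rfl, by rw [rz_uw]; exact h.hhi, ?_, ?_⟩
    · intro τ hτ; simp only [RKind.rz, mem_singleton] at hτ ⊢; subst hτ; simp
    · exact hC.hTh
    · simp only [RKind.rz, RZ.u, add_zero]; omega
    · exact hC.hW
  | RS =>
    refine ⟨h.ha, ?_, ?_, Or.inr rfl, by rw [rz_uw]; exact h.hhi, ?_, ?_⟩
    · exact hC.hT
    · intro τ hτ; simp only [RKind.rz, mem_singleton] at hτ ⊢; subst hτ; simp
    · simp only [RKind.rz, RZ.u, Nat.sub_zero]; omega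
    · simp [RKind.rz]

lemma rz_X {C : Codes} {e : ℕ} (hC : RBase C e) (k : RKind) (b a κ₀ κ : ℕ) :
    (k.rz C e b a κ₀ κ).X.card ≤ 2 ^ ((k.rz C e b a κ₀ κ).w / 2) := by
  cases k with
  | R => simp [RKind.rz]
  | RT => exact hC.cT
  | RTh => exact hC.cTh
  | RS => simp [RKind.rz]

lemma rz_w {C : Codes} {e : ℕ} {k : RKind} {b a κ₀ κ : ℕ} :
    (k.rz C e b a κ₀ κ).w = 0 ∨ (k.rz C e b a κ₀ κ).w = C.W e := by
  cases k <;> simp [RKind.rz]

lemma rz_w₀ {C : Codes} {e : ℕ} {k : RKind} {b a κ₀ κ : ℕ} :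
    (k.rz C e b a κ₀ κ).w₀ = 0 ∨ (k.rz C e b a κ₀ κ).w₀ = C.W e := by
  cases k <;> simp [RKind.rz]

lemma rz_b {C : Codes} {e : ℕ} {k : RKind} {b a κ₀ κ : ℕ} : (k.rz C e b a κ₀ κ).b = b := by
  cases k <;> rfl

/-- multiples of `W` -/
lemma mult_cases {W v b b' : ℕ} (hb : b ≤ v) (hb' : b' ≤ v) (h : W ∣ v - b) (h' : W ∣ v - b')
    (hbb : b' ≤ b) : b = b' ∨ b' + W ≤ b := by
  obtain ⟨c, hc⟩ := h
  obtain ⟨c', hc'⟩ := h'
  rcases Nat.lt_or_ge b' b with hlt | hge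
  · right
    have h1 : W * c < W * c' := by omega
    have h2 : c < c' := lt_of_mul_lt_mul_left h1 (Nat.zero_le _)
    have h3 : W * (c + 1) ≤ W * c' := Nat.mul_le_mul_left _ h2
    rw [mul_add, mul_one] at h3
    omega
  · left; omega

/-- families -/
lemma rz_F {C : Codes} {e B r : ℕ} (hC : RHyp C e B r) {k : RKind} {b a κ₀ κ : ℕ}
    (hw : (k.rz C e b a κ₀ κ).w ≠ 0) :
    (k.rz C e b a κ₀ κ).w = C.W e ∧ (k.rz C e b a κ₀ κ).w₀ = 0 ∧
    (∀ i j, i < 2 ^ (4 * (C.W e / 2)) → j < 2 ^ (4 * (C.W e / 2)) →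
      ((k.rz C e b a κ₀ κ).X ∩ Qs (C.W e / 2) i j).card ≤ B) ∧
    (∀ ν, ν < 2 ^ C.W e → ((k.rz C e b a κ₀ κ).X ∩ SH.QR (C.W e) (C.W e / 2) ν).card ≤ B) := by
  cases k with
  | R => exact absurd rfl hw
  | RT => exact ⟨rfl, rfl, hC.fT, hC.gT⟩
  | RTh => exact ⟨rfl, rfl, hC.fTh, hC.gTh⟩
  | RS => exact absurd rfl hw

end Pool.Agent.ETS.RC
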