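import Mathlib
import Pool.Agent.Helper86.ET.Q6

/-!
# E-T (MP_12a1af_nt), project T*: pairs of zones of R type with the same top, final form
-/

set_option autoImplicit false

open Finset

namespace Pool.Agent.ETS.RC

lemma Mult.zero_left {W r : ℕ} {X : Finset ℕ} (hr : 1 ≤ r) (hX : ∀ t ∈ X, t < 2 ^ W) :
    Mult W r {0} X := by
  intro c
  refine le_trans ?_ hr
  rw [card_le_one]
  intro p hp q hq
  rw [mem_filter, mem_product, mem_singleton] at hp hq
  obtain ⟨⟨a1, a2⟩, a3⟩ := hp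
  obtain ⟨⟨b1, b2⟩, b3⟩ := hq
  rw [a1, zero_add, Nat.mod_eq_of_lt (hX _ a2)] at a3
  rw [b1, zero_add, Nat.mod_eq_of_lt (hX _ b2)] at b3
  exact Prod.ext (a1.trans b1.symm) (a3.trans b3.symm)

/-- multiplicity of the fibres -/
lemma rz_fib {C : Codes} {e B r v n : ℕ} (hC : RHyp C e B r) {k k' : RKind}
    {b a b' a' : ℕ} (h : RPos (C.W e) v k b a) (h' : RPos (C.W e) v k' b' a') (κ₀ κ κ₀' κ' : ℕ)
    (hu : k'.hi (C.W e) b' ≤ k.lo (C.W e) b) :
    Fib v n r (k.rz C e b a κ₀ κ) (k'.rz C e b' a' κ₀' κ') := by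
  have ho := rz_ok hC.toRBase h κ₀ κ
  have ho' := rz_ok hC.toRBase h' κ₀' κ'
  have hW8 := hC.hW8
  have hblo : b ≤ v := h.hb.le
  have hblo' : b' ≤ v := h'.hb.le
  cases k with
  | R => exact (Fib.sep ho ho' (Or.inl rfl)).mono hC.r1
  | RT => exact (Fib.sep ho ho' (Or.inl rfl)).mono hC.r1
  | RTh => exact (Fib.sep ho ho' (Or.inl rfl)).mono hC.r1
  | RS =>
    simp only [RKind.lo] at hu
    cases k' with
    | R => exact (Fib.sep ho ho' (Or.inr (Or.inl ⟨rfl, rfl⟩))).mono hC.r1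
    | RT =>
      simp only [RKind.hi] at hu
      rcases mult_cases hblo hblo' h.hdvd h'.hdvd (by omega) with hb | hb
      · exact Fib.same ho ho' (by rw [rz_u]; exact hb) rfl rfl hC.mTT
      · refine (Fib.sep ho ho' (Or.inr (Or.inr ?_))).mono hC.r1
        rw [rz_uw]; exact hb
    | RTh =>
      simp only [RKind.hi] at hu
      rcases mult_cases hblo hblo' h.hdvd h'.hdvd (by omega) with hb | hb
      · exact Fib.same ho ho' (by rw [rz_u]; exact hb) rfl rfl hC.mTTh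
      · refine (Fib.sep ho ho' (Or.inr (Or.inr ?_))).mono hC.r1
        rw [rz_uw]; exact hb
    | RS =>
      simp only [RKind.hi] at hu
      rcases mult_cases hblo hblo' h.hdvd h'.hdvd (by omega) with hb | hb
      · exact Fib.same' ho ho' hb rfl rfl hC.mTT
      · refine (Fib.sep ho ho' (Or.inr (Or.inr ?_))).mono hC.r1
        rw [rz_uw]; exact hb

/-- distance of the two boundary intervals -/
def rdist (W : ℕ) (k k' : RKind) (b b' : ℕ) : ℕ :=
  (k.lo W b - k'.hi W b') + (k'.lo W b' - k.hi W b)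

lemma rdist_comm (W : ℕ) (k k' : RKind) (b b' : ℕ) : rdist W k k' b b' = rdist W k' k b' b := by
  unfold rdist; ring

lemma lo_le_hi (W : ℕ) (k : RKind) (b : ℕ) : k.lo W b ≤ k.hi W b := by
  cases k <;> simp [RKind.lo, RKind.hi]

/-- `(I)` in terms of zones: blocks not in interaction -/
lemma sol_I' {C : Codes} {e m v n : ℕ} (hC : RBase C e) {k k' : RKind}
    {b a b' a' : ℕ} (h : RPos (C.W e) v k b a) (h' : RPos (C.W e) v k' b' a') (κ₀ κ κ₀' κ' : ℕ)
    (hu : k'.hi (C.W e) b' + (k.hi (C.W e) b - k.lo (C.W e) b) ≤ k.lo (C.W e) b)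
    (hm : Fib v n m (k.rz C e b a κ₀ κ) (k'.rz C e b' a' κ₀' κ')) :
    (Sol v n (k.rz C e b a κ₀ κ) (k'.rz C e b' a' κ₀' κ')).card ≤
      54 * m * 2 ^ (rdist (C.W e) k k' b b' / 2) := by
  have hW8 := hC.hW8
  have hlh := lo_le_hi (C.W e) k b
  have hlh' := lo_le_hi (C.W e) k' b'
  have hlo := h.hb
  have e1 := rz_u C e k b a κ₀ κ
  have e2 := rz_uw C e k b a κ₀ κ
  have e1' := rz_u C e k' b' a' κ₀' κ'
  have e2' := rz_uw C e k' b' a' κ₀' κ'
  have hblo : b ≤ v := hlo.le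
  have hv : k.lo (C.W e) b = v ∨ C.W e ≤ v - k.lo (C.W e) b := by
    obtain ⟨c, hc⟩ := h.hdvd
    have hhi := h.hhi
    cases k with
    | RS =>
      simp only [RKind.lo, RKind.hi] at hhi ⊢
      rcases c with _ | _ | c
      · omega
      · left; rw [zero_add, mul_one] at hc; omega
      · right
        have : C.W e * (c + 1 + 1) = C.W e * c + C.W e + C.W e := by ring
        rw [this] at hc
        omega
    | R =>
      right
      simp only [RKind.lo]
      rcases c with _ | c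
      · omega
      · rw [mul_add, mul_one] at hc; omega
    | RT =>
      right
      simp only [RKind.lo]
      rcases c with _ | c
      · omega
      · rw [mul_add, mul_one] at hc; omega
    | RTh =>
      right
      simp only [RKind.lo]
      rcases c with _ | c
      · omega
      · rw [mul_add, mul_one] at hc; omega
  rcases hv with hv | hv
  · have hhi := h.hhi
    refine (bound_I0 (r := m) (rz_ok hC h κ₀ κ) (by omega) hm).trans ?_
    have e3 : (v - (k'.rz C e b' a' κ₀' κ').u - (k'.rz C e b' a' κ₀' κ').w) / 2 =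
        rdist (C.W e) k k' b b' / 2 := by
      unfold rdist
      congr 1
      omega
    rw [e3]
    exact Nat.mul_le_mul_right _ (by omega)
  refine (bound_I (r := m) (rz_ok hC h κ₀ κ) (rz_ok hC h' κ₀' κ') (by omega) (by omega)
    (rz_X hC k b a κ₀ κ) hm).trans (le_of_eq ?_)
  congr 2
  unfold rdist
  omega

lemma sol_I {C : Codes} {e B r v n : ℕ} (hC : RHyp C e B r) {k k' : RKind}
    {b a b' a' : ℕ} (h : RPos (C.W e) v k b a) (h' : RPos (C.W e) v k' b' a') (κ₀ κ κ₀' κ' : ℕ)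
    (hu : k'.hi (C.W e) b' + (k.hi (C.W e) b - k.lo (C.W e) b) ≤ k.lo (C.W e) b) :
    (Sol v n (k.rz C e b a κ₀ κ) (k'.rz C e b' a' κ₀' κ')).card ≤
      54 * r * 2 ^ (rdist (C.W e) k k' b b' / 2) :=
  sol_I' hC.toRBase h h' κ₀ κ κ₀' κ' hu (rz_fib hC h h' κ₀ κ κ₀' κ' (by omega))

/-- `(II)` in terms of zones: an upper region with a block that starts at the end of the other
boundary interval -/
lemma sol_II' {C : Codes} {e B v n : ℕ} (hC : RBase C e) {k k' : RKind}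
    {b a b' a' : ℕ} (h : RPos (C.W e) v k b a) (h' : RPos (C.W e) v k' b' a') (κ₀ κ κ₀' κ' : ℕ)
    (hu : k.lo (C.W e) b = k'.hi (C.W e) b') (hk : k.hi (C.W e) b ≠ k.lo (C.W e) b)
    (f3 : ∀ i j, i < 2 ^ (4 * (C.W e / 2)) → j < 2 ^ (4 * (C.W e / 2)) →
      ((k.rz C e b a κ₀ κ).X ∩ Qs (C.W e / 2) i j).card ≤ B)
    (f4 : ∀ ν, ν < 2 ^ C.W e →
      ((k.rz C e b a κ₀ κ).X ∩ SH.QR (C.W e) (C.W e / 2) ν).card ≤ B) :
    (Sol v n (k.rz C e b a κ₀ κ) (k'.rz C e b' a' κ₀' κ')).card ≤ 153738 * B := by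
  have hW8 := hC.hW8
  have hlh := lo_le_hi (C.W e) k b
  have hlo := h.hb
  have e1 := rz_u C e k b a κ₀ κ
  have e2 := rz_uw C e k b a κ₀ κ
  have e1' := rz_u C e k' b' a' κ₀' κ'
  have e2' := rz_uw C e k' b' a' κ₀' κ'
  have f1 : (k.rz C e b a κ₀ κ).w = C.W e := by
    rcases rz_w (C := C) (e := e) (k := k) (b := b) (a := a) (κ₀ := κ₀) (κ := κ) with h0 | h0
    · omega
    · exact h0
  have hkb : k.lo (C.W e) b = b := by cases k <;> simp_all [RKind.lo, RKind.hi]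
  obtain ⟨c, hc⟩ := h.hdvd
  rcases c with _ | _ | c
  · omega
  · refine (bound_II' (B := B) (rz_ok hC h κ₀ κ) (rz_ok hC h' κ₀' κ') (by omega) (by omega)
      (by rw [f1, e1, hkb, hc]; ring) (by rw [f1]; exact f4)).trans ?_
    omega
  · refine bound_II (B := B) (rz_ok hC h κ₀ κ) (rz_ok hC h' κ₀' κ') (by omega) (by omega)
      ?_ (by rw [f1]; exact f3)
    rw [f1, e1, hkb, hc]
    have : C.W e * (c + 1 + 1) = C.W e * c + 2 * C.W e := by ring
    omega

lemma sol_II {C : Codes} {e B r v n : ℕ} (hC : RHyp C e B r) {k k' : RKind}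
    {b a b' a' : ℕ} (h : RPos (C.W e) v k b a) (h' : RPos (C.W e) v k' b' a') (κ₀ κ κ₀' κ' : ℕ)
    (hu : k.lo (C.W e) b = k'.hi (C.W e) b') (hk : k.hi (C.W e) b ≠ k.lo (C.W e) b) :
    (Sol v n (k.rz C e b a κ₀ κ) (k'.rz C e b' a' κ₀' κ')).card ≤ 153738 * B := by
  have e1 := rz_u C e k b a κ₀ κ
  have e2 := rz_uw C e k b a κ₀ κ
  have hlh := lo_le_hi (C.W e) k b
  obtain ⟨f1, f2, f3, f4⟩ := rz_F hC (k := k) (b := b) (a := a) (κ₀ := κ₀) (κ := κ) (by omega)
  exact sol_II' hC.toRBase h h' κ₀ κ κ₀' κ' hu hk f3 f4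

/-- `(III)` in terms of zones: two regions with blocks at the same place -/
lemma sol_III {C : Codes} {e v n m : ℕ} (hC : RBase C e) {k k' : RKind}
    {b a b' a' : ℕ} (h : RPos (C.W e) v k b a) (h' : RPos (C.W e) v k' b' a') (κ₀ κ κ₀' κ' : ℕ)
    (hu : k.lo (C.W e) b = k'.lo (C.W e) b') (hk : k.hi (C.W e) b ≠ k.lo (C.W e) b)
    (hk' : k'.hi (C.W e) b' ≠ k'.lo (C.W e) b')
    (hm : Mult (C.W e) m (k.rz C e b a κ₀ κ).X (k'.rz C e b' a' κ₀' κ').X) :
    (Sol v n (k.rz C e b a κ₀ κ) (k'.rz C e b' a' κ₀' κ')).card ≤ 66 * m := by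
  have hW8 := hC.hW8
  have hlo := h.hb
  have e1 := rz_u C e k b a κ₀ κ
  have e2 := rz_uw C e k b a κ₀ κ
  have e1' := rz_u C e k' b' a' κ₀' κ'
  have e2' := rz_uw C e k' b' a' κ₀' κ'
  have hlh := lo_le_hi (C.W e) k b
  have hlh' := lo_le_hi (C.W e) k' b'
  have f1 : (k.rz C e b a κ₀ κ).w = C.W e := by
    rcases rz_w (C := C) (e := e) (k := k) (b := b) (a := a) (κ₀ := κ₀) (κ := κ) with h0 | h0
    · omega
    · exact h0
  have g1 : (k'.rz C e b' a' κ₀' κ').w = C.W e := by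
    rcases rz_w (C := C) (e := e) (k := k') (b := b') (a := a') (κ₀ := κ₀') (κ := κ') with h0 | h0
    · omega
    · exact h0
  have f2 : (k.rz C e b a κ₀ κ).w₀ = 0 := by
    rcases (rz_ok hC h κ₀ κ).hw with h0 | h0
    · exact h0
    · omega
  have g2 : (k'.rz C e b' a' κ₀' κ').w₀ = 0 := by
    rcases (rz_ok hC h' κ₀' κ').hw with h0 | h0
    · exact h0
    · omega
  have hkb : k.lo (C.W e) b = b := by cases k <;> simp_all [RKind.lo, RKind.hi]
  refine bound_III (r := m) (rz_ok hC h κ₀ κ) (rz_ok hC h' κ₀' κ') (by omega) (by omega) f2 g2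
    ?_ (by rw [f1]; exact hm)
  obtain ⟨c, hc⟩ := h.hdvd
  rcases c with _ | _ | c
  · omega
  · left
    rw [f1, e1, hkb, hc]; ring
  · right
    rw [f1, e1, hkb, hc]
    have : C.W e * (c + 1 + 1) = C.W e * c + 2 * C.W e := by ring
    omega

/-- all cases, the first zone with the higher boundary -/
lemma sol_all {C : Codes} {e B r v n : ℕ} (hC : RHyp C e B r) {k k' : RKind}
    {b a b' a' : ℕ} (h : RPos (C.W e) v k b a) (h' : RPos (C.W e) v k' b' a') (κ₀ κ κ₀' κ' : ℕ)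
    (hu : k'.lo (C.W e) b' ≤ k.lo (C.W e) b) :
    (Sol v n (k.rz C e b a κ₀ κ) (k'.rz C e b' a' κ₀' κ')).card ≤
      153738 * B * 2 ^ (rdist (C.W e) k k' b b' / 2) := by
  have hp : 1 ≤ 2 ^ (rdist (C.W e) k k' b b' / 2) := Nat.one_le_two_pow
  have hrB := hC.rB
  have hW8 := hC.hW8
  have hlh := lo_le_hi (C.W e) k b
  have hlh' := lo_le_hi (C.W e) k' b'
  have hlo := h.hb
  have hlo' := h'.hb
  have big : ∀ x : ℕ, x ≤ 153738 * B → x ≤ 153738 * B * 2 ^ (rdist (C.W e) k k' b b' / 2) :=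
    fun x hx => hx.trans (Nat.le_mul_of_pos_right _ hp)
  have tri : k'.hi (C.W e) b' + (k.hi (C.W e) b - k.lo (C.W e) b) ≤ k.lo (C.W e) b ∨
      (k.lo (C.W e) b = k'.hi (C.W e) b' ∧ k.hi (C.W e) b ≠ k.lo (C.W e) b) ∨
      (k'.lo (C.W e) b' = k.hi (C.W e) b ∧ k'.hi (C.W e) b' ≠ k'.lo (C.W e) b') ∨
      (k.lo (C.W e) b = k'.lo (C.W e) b' ∧ k.hi (C.W e) b ≠ k.lo (C.W e) b ∧
        k'.hi (C.W e) b' ≠ k'.lo (C.W e) b') := by
    have hbv : b ≤ v := hlo.le
    have hbv' : b' ≤ v := hlo'.le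
    obtain ⟨c, hc⟩ := h.hdvd
    obtain ⟨c', hc'⟩ := h'.hdvd
    have key : b = b' ∨ b = b' + C.W e ∨ b' = b + C.W e ∨ b + 2 * C.W e ≤ b' ∨
        b' + 2 * C.W e ≤ b := by
      rcases lt_trichotomy c c' with hlt | heq | hgt
      · rcases Nat.lt_or_ge c' (c + 2) with h2 | h2
        · have : c' = c + 1 := by omega
          rw [this, mul_add, mul_one] at hc'
          omega
        · have := Nat.mul_le_mul_left (C.W e) h2
          rw [mul_add] at this
          omega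
      · rw [heq] at hc; omega
      · rcases Nat.lt_or_ge c (c' + 2) with h2 | h2
        · have : c = c' + 1 := by omega
          rw [this, mul_add, mul_one] at hc
          omega
        · have := Nat.mul_le_mul_left (C.W e) h2
          rw [mul_add] at this
          omega
    cases k <;> cases k' <;> simp only [RKind.lo, RKind.hi] at hu ⊢ <;> omega
  rcases tri with h1 | h1 | h1 | h1
  · refine (sol_I hC h h' κ₀ κ κ₀' κ' h1).trans ?_
    refine Nat.mul_le_mul_right _ ?_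
    omega
  · exact big _ (sol_II hC h h' κ₀ κ κ₀' κ' h1.1 h1.2)
  · rw [card_Sol_comm]
    exact big _ (sol_II hC h' h κ₀' κ' κ₀ κ h1.1 h1.2)
  · refine big _ ((sol_III (m := r) hC.toRBase h h' κ₀ κ κ₀' κ' h1.1 h1.2.1 h1.2.2 ?_).trans (by omega))
    cases k <;> cases k' <;> simp_all only [RKind.lo, RKind.hi, ne_eq, not_true_eq_false, and_false,
      false_and]
    · exact hC.mTT
    · exact hC.mTTh
    · exact hC.mThT
    · exact hC.mThTh

/-- **(RR)** pairs of zones of R type of the same epoch with the same top -/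
theorem RR {C : Codes} {e B r v : ℕ} (hC : RHyp C e B r) (k k' : RKind)
    {b a b' a' : ℕ} (h : RPos (C.W e) v k b a) (h' : RPos (C.W e) v k' b' a') (κ₀ κ κ₀' κ' : ℕ)
    {K K' : ℕ} (n : ℕ) (hK : v ≤ K) (hK' : v ≤ K') :
    (zcons K K' n (k.zone C e v b a κ₀ κ) (k'.zone C e v b' a' κ₀' κ')).card ≤
      153738 * B * 2 ^ (rdist (C.W e) k k' b b' / 2) := by
  rw [zone_eq hC.toRBase, zone_eq hC.toRBase]
  refine (zcons_le_Sol _ _ hK hK').trans ?_
  rcases Nat.le_total (k'.lo (C.W e) b') (k.lo (C.W e) b) with hu | hu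
  · exact sol_all hC h h' κ₀ κ κ₀' κ' hu
  · rw [card_Sol_comm, rdist_comm]
    exact sol_all hC h' h κ₀' κ' κ₀ κ hu

end Pool.Agent.ETS.RC
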