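import Mathlib
import Pool.Agent.Helper86.ET.Q7
import Pool.Agent.Helper16.ETL.Near2

/-!
# E-T (MP_12a1af_nt), project T*: R regions: injectivity, near forms, trivial version
-/

set_option autoImplicit false

open Finset

namespace Pool.Agent.ETS.RC

/-! ## Injectivity of the contents -/

lemma half_le {l W h : ℕ} (hh : h = (l - W) / 2) (hWl : W ≤ l) : W ≤ l - h := by omega

lemma inj_R {C : Codes} {e : ℕ} (hC : RBase C e) (b v : ℕ) : (Reg.R b v).Inj C := by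
  intro z hz w hw he
  simp only [Reg.V, hC.hY] at hz hw
  simp only [Reg.c, Reg.len, Reg.top, Reg.bot, hC.hE] at he
  have h1 : Rc (v - b) z + 0 ≡ Rc (v - b) w + 0 [MOD 2 ^ (v - b)] :=
    (Nat.mod_modEq _ _).symm.trans (he.trans (Nat.mod_modEq _ _))
  exact (Rc_inj_q hz hw (by omega) (by positivity) (by positivity) h1).1

lemma inj_block {C : Codes} {e : ℕ} (hC : RBase C e) {l : ℕ} (hl : C.W e ≤ l) {T : Finset ℕ}
    (hT : ∀ t ∈ T, t < 2 ^ C.W e) {z w : ℕ} (hz : z ∈ pairs (C.Y (l - C.W e)) T)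
    (hw : w ∈ pairs (C.Y (l - C.W e)) T)
    (he : C.E l (Nat.unpair z).1 + (Nat.unpair z).2 ≡ C.E l (Nat.unpair w).1 + (Nat.unpair w).2
      [MOD 2 ^ l]) : z = w := by
  rw [mem_pairs, hC.hY] at hz hw
  rw [hC.hE, hC.hE] at he
  have h1 : Rc l (Nat.unpair z).1 + (Nat.unpair z).2 ≡ Rc l (Nat.unpair w).1 + (Nat.unpair w).2
      [MOD 2 ^ l] :=
    ((Nat.mod_modEq _ _).symm.add_right _).trans (he.trans ((Nat.mod_modEq _ _).add_right _))
  have h2 : C.W e ≤ l - (l - C.W e) / 2 := by omega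
  have h3 := Nat.pow_le_pow_right (n := 2) (by norm_num) h2
  have h4 := Rc_inj_q hz.1 hw.1 (by omega) (lt_of_lt_of_le (hT _ hz.2) h3)
    (lt_of_lt_of_le (hT _ hw.2) h3) h1
  rw [← Nat.pair_unpair z, ← Nat.pair_unpair w, h4.1, h4.2]

lemma inj_RT {C : Codes} {e b v : ℕ} (hC : RBase C e) (hl : b + C.W e ≤ v) :
    (Reg.RT e b v).Inj C := by
  intro z hz w hw he
  exact inj_block hC (l := v - b) (by omega) hC.hT hz hw he

lemma inj_RTh {C : Codes} {e b v : ℕ} (hC : RBase C e) (hl : b + C.W e ≤ v) :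
    (Reg.RTh e b v).Inj C := by
  intro z hz w hw he
  exact inj_block hC (l := v - b) (by omega) hC.hTh hz hw he

/-! ## Near forms -/

/-- the variables of a region as data -/
def asV (k : RKind) (z : ℕ) : ℕ × ℕ × ℕ :=
  match k with
  | RKind.R => (0, z, 0)
  | RKind.RT => (0, (Nat.unpair z).1, (Nat.unpair z).2)
  | RKind.RTh => (0, (Nat.unpair z).1, (Nat.unpair z).2)
  | RKind.RS => ((Nat.unpair z).2, (Nat.unpair z).1, 0)

lemma asV_inj (k : RKind) : Function.Injective (asV k) := by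
  intro z w h
  cases k
  · simp only [asV, Prod.mk.injEq] at h
    exact h.2.1
  · simp only [asV, Prod.mk.injEq] at h
    rw [← Nat.pair_unpair z, ← Nat.pair_unpair w, h.2.1, h.2.2]
  · simp only [asV, Prod.mk.injEq] at h
    rw [← Nat.pair_unpair z, ← Nat.pair_unpair w, h.2.1, h.2.2]
  · simp only [asV, Prod.mk.injEq] at h
    rw [← Nat.pair_unpair z, ← Nat.pair_unpair w, h.1, h.2.1]

/-- the variables of a zone of R type on `[0, l)` -/
def VK (C : Codes) (e l : ℕ) (k : RKind) : Finset ℕ :=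
  match k with
  | RKind.R => C.Y l
  | RKind.RT => pairs (C.Y (l - C.W e)) (C.T e)
  | RKind.RTh => pairs (C.Y (l - C.W e)) (C.Th e)
  | RKind.RS => pairs (C.Y (l - C.W e)) (C.T e)

/-- the content -/
def cK (C : Codes) (e l κ₀ κ : ℕ) (k : RKind) (z : ℕ) : ℕ :=
  match k with
  | RKind.R => C.E l z
  | RKind.RT => C.E l (Nat.unpair z).1 + (Nat.unpair z).2
  | RKind.RTh => C.E l (Nat.unpair z).1 + (Nat.unpair z).2
  | RKind.RS => ((Nat.unpair z).2 + κ₀) % 2 ^ C.W e +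
        2 ^ C.W e * ((C.E (l - C.W e) (Nat.unpair z).1 + κ) % 2 ^ (l - C.W e))

lemma asV_mem {C : Codes} {e : ℕ} (hC : RBase C e) {l : ℕ} (k : RKind) (κ₀ κ : ℕ) {z : ℕ}
    (hz : z ∈ VK C e l k) : asV k z ∈ (k.rz C e 0 0 κ₀ κ).V l := by
  rw [RZ.mem_V]
  cases k
  · simp only [VK, hC.hY] at hz
    simpa [asV, RKind.rz, RZ.u] using hz
  · simp only [VK, mem_pairs, hC.hY] at hz
    simpa [asV, RKind.rz, RZ.u] using hz
  · simp only [VK, mem_pairs, hC.hY] at hz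
    simpa [asV, RKind.rz, RZ.u] using hz
  · simp only [VK, mem_pairs, hC.hY] at hz
    simp only [asV, RKind.rz, RZ.u, zero_add, Nat.sub_zero, mem_singleton]
    exact ⟨hz.2, hz.1, trivial⟩

lemma asV_val {C : Codes} {e : ℕ} (hC : RBase C e) {l : ℕ} (k : RKind) (κ₀ κ : ℕ)
    (hk : k ≠ RKind.RS → κ = 0) (z : ℕ) :
    (k.rz C e 0 0 κ₀ κ).val l (asV k z) ≡ cK C e l κ₀ κ k z [MOD 2 ^ l] := by
  cases k
  · rw [hk (by intro h; cases h)]
    simp only [RZ.val, RZ.u, asV, RKind.rz, cK, add_zero, pow_zero, Nat.mod_one, mul_zero,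
      one_mul, zero_add, Nat.sub_zero, hC.hE]
    exact Nat.ModEq.refl _
  · rw [hk (by intro h; cases h)]
    simp only [RZ.val, RZ.u, asV, RKind.rz, cK, add_zero, pow_zero, Nat.mod_one, mul_zero,
      one_mul, zero_add, Nat.sub_zero, hC.hE]
    exact (Nat.mod_modEq _ _).trans ((Nat.mod_modEq _ _).symm.add_right _)
  · rw [hk (by intro h; cases h)]
    simp only [RZ.val, RZ.u, asV, RKind.rz, cK, add_zero, pow_zero, Nat.mod_one, mul_zero,
      one_mul, zero_add, Nat.sub_zero, hC.hE]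
    exact (Nat.mod_modEq _ _).trans ((Nat.mod_modEq _ _).symm.add_right _)
  · simp only [RZ.val, RZ.u, asV, RKind.rz, cK, pow_zero, one_mul, zero_add, add_zero, hC.hE]
    rw [mod_add_mod_left]

/-- pairs of variables with a given sum of the contents -/
lemma card_cK {C : Codes} {e : ℕ} (hC : RBase C e) {l : ℕ} (k k' : RKind) (κ₀ κ κ₀' κ' ν : ℕ)
    (hk : k ≠ RKind.RS → κ = 0) (hk' : k' ≠ RKind.RS → κ' = 0) :
    ((VK C e l k ×ˢ VK C e l k').filter (fun q =>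
      cK C e l κ₀ κ k q.1 + cK C e l κ₀' κ' k' q.2 ≡ ν [MOD 2 ^ l])).card ≤
      (Sol l ν (k.rz C e 0 0 κ₀ κ) (k'.rz C e 0 0 κ₀' κ')).card := by
  refine card_le_card_of_injOn (fun q => (asV k q.1, asV k' q.2)) ?_ ?_
  · intro q hq
    rw [mem_coe, mem_filter, mem_product] at hq
    rw [mem_coe, mem_Sol]
    refine ⟨⟨asV_mem hC k κ₀ κ hq.1.1, asV_mem hC k' κ₀' κ' hq.1.2⟩, ?_⟩
    exact ((asV_val hC k κ₀ κ hk _).add (asV_val hC k' κ₀' κ' hk' _)).trans hq.2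
  · intro q _ q' _ h
    simp only [Prod.mk.injEq] at h
    exact Prod.ext (asV_inj k h.1) (asV_inj k' h.2)

lemma rpos_zero {W l : ℕ} {k : RKind} (h1 : 0 < l) (h2 : k.hi W 0 ≤ l) (h3 : W ∣ l) :
    RPos W l k 0 0 := ⟨by norm_num, h1, h2, by simpa using h3⟩

/-- (F, F) and all plain pairs -/
theorem PB_R_R {C : Codes} {e b v : ℕ} (hC : RBase C e) (hd : C.W e ∣ v - b) :
    PB C (Reg.R b v) (Reg.R b v) 54 := by
  intro ν
  rcases Nat.lt_or_ge b v with hbv | hbv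
  swap
  · refine (card_filter_le _ _).trans ?_
    rw [card_product]
    simp only [Reg.V, hC.hY]
    rw [show v - b = 0 by omega]
    simp
  have hp : RPos (C.W e) (v - b) RKind.R 0 0 :=
    rpos_zero (by omega) (by simp only [RKind.hi]; omega) hd
  refine (card_cK hC (l := v - b) RKind.R RKind.R 0 0 0 0 ν (fun _ => rfl) (fun _ => rfl)).trans ?_
  have h1 := sol_I' (m := 1) (n := ν) hC hp hp 0 0 0 0 (by simp [RKind.lo, RKind.hi])
    (Fib.sep (rz_ok hC hp 0 0) (rz_ok hC hp 0 0) (Or.inl rfl))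
  simpa [rdist, RKind.lo, RKind.hi] using h1

lemma W_le_of {W b v : ℕ} (hbv : b < v) (hd : W ∣ v - b) : W ≤ v - b :=
  Nat.le_of_dvd (by omega) hd

/-- (Th, Th) -/
theorem PB_RTh_RTh {C : Codes} {e b v m : ℕ} (hC : RBase C e) (hbv : b < v)
    (hd : C.W e ∣ v - b) (hm : Mult (C.W e) m (C.Th e) (C.Th e)) :
    PB C (Reg.RTh e b v) (Reg.RTh e b v) (66 * m) := by
  intro ν
  have hW := W_le_of hbv hd
  have hW8 := hC.hW8
  have hp : RPos (C.W e) (v - b) RKind.RTh 0 0 :=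
    rpos_zero (by omega) (by simp only [RKind.hi]; omega) hd
  refine (card_cK hC (l := v - b) RKind.RTh RKind.RTh 0 0 0 0 ν (fun _ => rfl)
    (fun _ => rfl)).trans ?_
  exact sol_III (m := m) hC hp hp 0 0 0 0 rfl (by simp only [RKind.lo, RKind.hi]; omega)
    (by simp only [RKind.lo, RKind.hi]; omega) hm

/-- (A, A) -/
theorem PB_RT_RT {C : Codes} {e b v m : ℕ} (hC : RBase C e) (hbv : b < v)
    (hd : C.W e ∣ v - b) (hm : Mult (C.W e) m (C.T e) (C.T e)) :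
    PB C (Reg.RT e b v) (Reg.RT e b v) (66 * m) := by
  intro ν
  have hW := W_le_of hbv hd
  have hW8 := hC.hW8
  have hp : RPos (C.W e) (v - b) RKind.RT 0 0 :=
    rpos_zero (by omega) (by simp only [RKind.hi]; omega) hd
  refine (card_cK hC (l := v - b) RKind.RT RKind.RT 0 0 0 0 ν (fun _ => rfl)
    (fun _ => rfl)).trans ?_
  exact sol_III (m := m) hC hp hp 0 0 0 0 rfl (by simp only [RKind.lo, RKind.hi]; omega)
    (by simp only [RKind.lo, RKind.hi]; omega) hm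

/-- (A, Th) -/
theorem PB_RT_RTh {C : Codes} {e b v m : ℕ} (hC : RBase C e) (hbv : b < v)
    (hd : C.W e ∣ v - b) (hm : Mult (C.W e) m (C.T e) (C.Th e)) :
    PB C (Reg.RT e b v) (Reg.RTh e b v) (66 * m) := by
  intro ν
  have hW := W_le_of hbv hd
  have hW8 := hC.hW8
  have hp : RPos (C.W e) (v - b) RKind.RT 0 0 :=
    rpos_zero (by omega) (by simp only [RKind.hi]; omega) hd
  have hp' : RPos (C.W e) (v - b) RKind.RTh 0 0 :=
    rpos_zero (by omega) (by simp only [RKind.hi]; omega) hd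
  refine (card_cK hC (l := v - b) RKind.RT RKind.RTh 0 0 0 0 ν (fun _ => rfl)
    (fun _ => rfl)).trans ?_
  exact sol_III (m := m) hC hp hp' 0 0 0 0 rfl (by simp only [RKind.lo, RKind.hi]; omega)
    (by simp only [RKind.lo, RKind.hi]; omega) hm

/-- (F, A) -/
theorem PB_RT_R {C : Codes} {e b v B : ℕ} (hC : RBase C e) (hbv : b < v) (hd : C.W e ∣ v - b)
    (fT : ∀ j k, j < 2 ^ (4 * (C.W e / 2)) → k < 2 ^ (4 * (C.W e / 2)) →
      (C.T e ∩ Qs (C.W e / 2) j k).card ≤ B)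
    (gT : ∀ ν, ν < 2 ^ C.W e → (C.T e ∩ SH.QR (C.W e) (C.W e / 2) ν).card ≤ B) :
    PB C (Reg.RT e b v) (Reg.R b v) (153738 * B) := by
  intro ν
  have hW := W_le_of hbv hd
  have hW8 := hC.hW8
  have hp : RPos (C.W e) (v - b) RKind.RT 0 0 :=
    rpos_zero (by omega) (by simp only [RKind.hi]; omega) hd
  have hp' : RPos (C.W e) (v - b) RKind.R 0 0 :=
    rpos_zero (by omega) (by simp only [RKind.hi]; omega) hd
  refine (card_cK hC (l := v - b) RKind.RT RKind.R 0 0 0 0 ν (fun _ => rfl)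
    (fun _ => rfl)).trans ?_
  exact sol_II' (B := B) hC hp hp' 0 0 0 0 rfl (by simp only [RKind.lo, RKind.hi]; omega) fT gT

theorem PB_R_RT {C : Codes} {e b v B : ℕ} (hC : RBase C e) (hbv : b < v) (hd : C.W e ∣ v - b)
    (fT : ∀ j k, j < 2 ^ (4 * (C.W e / 2)) → k < 2 ^ (4 * (C.W e / 2)) →
      (C.T e ∩ Qs (C.W e / 2) j k).card ≤ B)
    (gT : ∀ ν, ν < 2 ^ C.W e → (C.T e ∩ SH.QR (C.W e) (C.W e / 2) ν).card ≤ B) :
    PB C (Reg.R b v) (Reg.RT e b v) (153738 * B) :=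
  (PB_RT_R hC hbv hd fT gT).symm rfl

lemma RSB_short {C : Codes} {e m : ℕ} (hC : RBase C e)
    (hm : Mult (C.W e) m (C.T e) (C.Th e)) : RSB C e (C.W e) m := by
  intro κ κ₂ ν
  refine le_trans ?_ (hm ((ν + (2 ^ C.W e * κ - κ)) % 2 ^ C.W e))
  have hk : κ + (2 ^ C.W e * κ - κ) = 2 ^ C.W e * κ := by
    have : κ ≤ 2 ^ C.W e * κ := Nat.le_mul_of_pos_left _ (by positivity)
    omega
  have h1 : ∀ q ∈ (pairs (C.Y (C.W e - C.W e)) (C.Th e) ×ˢ pairs (C.Y (C.W e - C.W e)) (C.T e)),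
      (Nat.unpair q.1).1 = 1 ∧ (Nat.unpair q.2).1 = 1 ∧ (Nat.unpair q.1).2 ∈ C.Th e ∧
      (Nat.unpair q.2).2 ∈ C.T e := by
    intro q hq
    rw [mem_product, mem_pairs, mem_pairs, hC.hY, Nat.sub_self] at hq
    simp only [Nat.zero_div, Yq_zero, mem_singleton] at hq
    exact ⟨hq.1.1, hq.2.1, hq.1.2, hq.2.2⟩
  refine card_le_card_of_injOn (fun q => ((Nat.unpair q.2).2, (Nat.unpair q.1).2)) ?_ ?_
  · intro q hq
    rw [mem_coe, mem_filter] at hq
    obtain ⟨a1, a2, a3, a4⟩ := h1 q hq.1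
    rw [mem_coe, mem_filter, mem_product]
    refine ⟨⟨a4, a3⟩, ?_⟩
    have h2 := hq.2
    rw [a1, a2, hC.hE, hC.hE, SH.Rc_one, Nat.sub_self] at h2
    simp only [Nat.zero_mod, zero_add, pow_zero, Nat.mod_one, mul_zero, add_zero] at h2
    have h3 : (Nat.unpair q.1).2 + ((Nat.unpair q.2).2 + κ) ≡ ν [MOD 2 ^ C.W e] :=
      ((Nat.mod_modEq _ _).symm.add_left _).trans h2
    have h4 := h3.add_right (2 ^ C.W e * κ - κ)
    have h5 : (Nat.unpair q.1).2 + ((Nat.unpair q.2).2 + κ) + (2 ^ C.W e * κ - κ) =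
        2 ^ C.W e * κ + ((Nat.unpair q.2).2 + (Nat.unpair q.1).2) := by
      generalize 2 ^ C.W e * κ = x at hk ⊢
      omega
    rw [h5] at h4
    have h6 : (Nat.unpair q.2).2 + (Nat.unpair q.1).2 ≡
        2 ^ C.W e * κ + ((Nat.unpair q.2).2 + (Nat.unpair q.1).2) [MOD 2 ^ C.W e] := by
      refine (Nat.modEq_iff_dvd' (Nat.le_add_left _ _)).mpr ?_
      rw [Nat.add_sub_cancel]
      exact Dvd.intro _ rfl
    exact h6.trans h4
  · intro q hq q' hq' h
    rw [mem_coe, mem_filter] at hq hq'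
    obtain ⟨a1, a2, -, -⟩ := h1 q hq.1
    obtain ⟨b1, b2, -, -⟩ := h1 q' hq'.1
    simp only [Prod.mk.injEq] at h
    refine Prod.ext ?_ ?_
    · rw [← Nat.pair_unpair q.1, ← Nat.pair_unpair q'.1, a1, b1, h.2]
    · rw [← Nat.pair_unpair q.2, ← Nat.pair_unpair q'.2, a2, b2, h.1]

/-- (Th, B), upper part -/
theorem RSB_holds {C : Codes} {e l m : ℕ} (hC : RBase C e) (hl0 : C.W e ≤ l) (hd : C.W e ∣ l)
    (hm : Mult (C.W e) m (C.T e) (C.Th e)) : RSB C e l (54 * m) := by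
  intro κ κ₂ ν
  have hW8 := hC.hW8
  rcases hl0.eq_or_lt with hl1 | hl
  · rw [← hl1]
    exact (RSB_short hC hm κ κ₂ ν).trans (by omega)
  have hp : RPos (C.W e) l RKind.RTh 0 0 :=
    rpos_zero (by omega) (by simp only [RKind.hi]; omega) hd
  have hp' : RPos (C.W e) l RKind.RS 0 0 :=
    rpos_zero (by omega) (by simp only [RKind.hi]; omega) hd
  refine (card_cK hC (l := l) RKind.RTh RKind.RS 0 0 κ κ₂ ν (fun _ => rfl)
    (fun h => absurd rfl h)).trans ?_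
  rw [card_Sol_comm]
  have h1 := sol_I' (m := m) (n := ν) hC hp' hp κ κ₂ 0 0 (by simp [RKind.lo, RKind.hi])
    (Fib.same (rz_ok hC hp' κ κ₂) (rz_ok hC hp 0 0) (by rw [rz_u]; rfl) rfl rfl hm)
  simpa [rdist, RKind.lo, RKind.hi] using h1

end Pool.Agent.ETS.RC
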