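import Mathlib
import Pool.Agent.Helper86.ET.Q8

/-!
# E-T (MP_12a1af_nt), project T*: zones of R type of different epochs, trivial version
-/

set_option autoImplicit false

open Finset

namespace Pool.Agent.ETS.RC

lemma W_le_lo {C : Codes} {e v b a : ℕ} {k : RKind} (hC : RBase C e)
    (h : RPos (C.W e) v k b a) : k.lo (C.W e) b = v ∨ C.W e ≤ v - k.lo (C.W e) b := by
  have hW8 := hC.hW8
  have hlo := h.hb
  have hhi := h.hhi
  obtain ⟨c, hc⟩ := h.hdvd
  cases k with
  | RS =>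
    simp only [RKind.lo, RKind.hi] at hhi ⊢
    rcases c with _ | _ | c
    · omega
    · left; rw [zero_add, mul_one] at hc; omega
    · right
      have : C.W e * (c + 1 + 1) = C.W e * c + C.W e + C.W e := by ring
      rw [this] at hc
      omega
  | R =>
    right
    simp only [RKind.lo]
    rcases c with _ | c
    · omega
    · rw [mul_add, mul_one] at hc; omega
  | RT =>
    right
    simp only [RKind.lo]
    rcases c with _ | c
    · omega
    · rw [mul_add, mul_one] at hc; omega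
  | RTh =>
    right
    simp only [RKind.lo]
    rcases c with _ | c
    · omega
    · rw [mul_add, mul_one] at hc; omega

lemma rz_blocks {C : Codes} {e : ℕ} (hC : RBase C e) (k : RKind) (b a κ₀ κ : ℕ) :
    (k.rz C e b a κ₀ κ).X₀.card * (k.rz C e b a κ₀ κ).X.card ≤ 2 ^ (C.W e / 2) := by
  cases k with
  | R => simpa [RKind.rz] using Nat.one_le_two_pow
  | RT => simpa [RKind.rz] using hC.cT
  | RTh => simpa [RKind.rz] using hC.cTh
  | RS => simpa [RKind.rz] using hC.cT

lemma sol_triv {C : Codes} {e e' v n : ℕ} (hC : RBase C e) (hC' : RBase C e') {k k' : RKind}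
    {b a b' a' : ℕ} (h : RPos (C.W e) v k b a) (h' : RPos (C.W e') v k' b' a')
    (κ₀ κ κ₀' κ' : ℕ) (hu : k'.lo (C.W e') b' ≤ k.lo (C.W e) b) :
    (Sol v n (k.rz C e b a κ₀ κ) (k'.rz C e' b' a' κ₀' κ')).card ≤
      2 ^ (C.W e / 2) * 2 ^ (C.W e' / 2) *
        (30 * 2 ^ ((k.lo (C.W e) b - k'.lo (C.W e') b') / 2)) := by
  have hW8 := hC.hW8
  rcases W_le_lo hC h with h1 | h1
  · have h2 := bound_triv0 (n := n) (Z' := k'.rz C e' b' a' κ₀' κ') (rz_ok hC h κ₀ κ)
      (by rw [rz_u]; exact h1)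
    refine h2.trans ?_
    refine (Nat.mul_le_mul_right _ (Nat.mul_le_mul (rz_blocks hC k b a κ₀ κ)
      (rz_blocks hC' k' b' a' κ₀' κ'))).trans ?_
    refine Nat.mul_le_mul_left _ ?_
    rw [rz_u, h1]
    refine le_trans ?_ (Nat.le_mul_of_pos_left _ (by norm_num))
    exact Nat.pow_le_pow_right (by norm_num) (Nat.div_le_div_right (Nat.sub_le _ _))
  have h2 := bound_triv (n := n) (rz_ok hC h κ₀ κ) (rz_ok hC' h' κ₀' κ')
    (by rw [rz_u, rz_u]; exact hu) (by rw [rz_u]; omega)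
  rw [rz_u, rz_u] at h2
  exact h2.trans (Nat.mul_le_mul_right _ (Nat.mul_le_mul (rz_blocks hC k b a κ₀ κ)
    (rz_blocks hC' k' b' a' κ₀' κ')))

/-- **(RR), trivial version**: zones of R type with the same top, any epochs -/
theorem RR_triv {C : Codes} {e e' v : ℕ} (hC : RBase C e) (hC' : RBase C e') (k k' : RKind)
    {b a b' a' : ℕ} (h : RPos (C.W e) v k b a) (h' : RPos (C.W e') v k' b' a')
    (κ₀ κ κ₀' κ' : ℕ) {K K' : ℕ} (n : ℕ) (hK : v ≤ K) (hK' : v ≤ K') :
    (zcons K K' n (k.zone C e v b a κ₀ κ) (k'.zone C e' v b' a' κ₀' κ')).card ≤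
      30 * 2 ^ (C.W e / 2) * 2 ^ (C.W e' / 2) *
        2 ^ (((k.lo (C.W e) b - k'.lo (C.W e') b') +
          (k'.lo (C.W e') b' - k.lo (C.W e) b)) / 2) := by
  rw [zone_eq hC, zone_eq hC']
  refine (zcons_le_Sol _ _ hK hK').trans ?_
  rcases Nat.le_total (k'.lo (C.W e') b') (k.lo (C.W e) b) with hu | hu
  · refine (sol_triv hC hC' h h' κ₀ κ κ₀' κ' hu).trans (le_of_eq ?_)
    rw [Nat.sub_eq_zero_of_le hu, add_zero]
    ring
  · rw [card_Sol_comm]
    refine (sol_triv hC' hC h' h κ₀' κ' κ₀ κ hu).trans (le_of_eq ?_)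
    rw [Nat.sub_eq_zero_of_le hu, zero_add]
    ring

end Pool.Agent.ETS.RC
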