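import Mathlib
import Pool.Agent.Helper86.ET.Q9

/-!
# E-T (MP_12a1af_nt), project T*: R regions: size, plain pairs in all lengths
-/

set_option autoImplicit false

open Finset

namespace Pool.Agent.ETS.RC

/-- plain pairs, all lengths -/
theorem PB_R_R_all {C : Codes} {e : ℕ} (hC : RBase C e) (b v : ℕ) :
    PB C (Reg.R b v) (Reg.R b v) 18 := by
  classical
  intro ν
  simp only [Reg.V, Reg.c, Reg.len, Reg.top, Reg.bot, hC.hY, hC.hE]
  set l := v - b with hl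
  set D := ((Yq (l / 2)) ×ˢ (Yq (l / 2))).filter (fun q =>
    Rc l q.1 % 2 ^ l + Rc l q.2 % 2 ^ l ≡ ν [MOD 2 ^ l]) with hD
  rcases Nat.eq_zero_or_pos l with h0 | h0
  · refine (card_filter_le _ _).trans ?_
    rw [card_product, h0]
    simp
  have hlp : (0:ℝ) < 2 ^ l := by positivity
  have h2 : (2:ℝ) ≤ 2 ^ l := by
    calc (2:ℝ) = 2 ^ 1 := by norm_num
      _ ≤ 2 ^ l := pow_le_pow_right₀ (by norm_num) h0
  have h1 := card_prod_q (h := l / 2) (h' := l / 2) D ((ν:ℝ) / 2 ^ l) 0 (2 / 2 ^ l)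
    le_rfl (by positivity) (by rw [zero_add, div_le_one hlp]; exact h2) ?_
  · have h3 : (2:ℝ) ^ (l / 2 + l / 2) ≤ 2 ^ l := pow_le_pow_right₀ (by norm_num) (by omega)
    have h4 : (2:ℝ) ^ (l / 2 + l / 2) * (0 + 2 / 2 ^ l) ≤ 2 := by
      rw [zero_add, mul_div_assoc', div_le_iff₀ hlp]
      linarith
    have h5 : (D.card : ℝ) ≤ 18 := by linarith
    exact_mod_cast h5
  · intro p hp
    rw [hD, mem_filter, mem_product] at hp
    obtain ⟨⟨hy, hy'⟩, he⟩ := hp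
    refine ⟨hy, hy', ?_⟩
    have he2 : Rc l p.1 + Rc l p.2 ≡ ν [MOD 2 ^ l] :=
      ((Nat.mod_modEq _ _).symm.add (Nat.mod_modEq _ _).symm).trans he
    obtain ⟨m, hm⟩ := Nat.modEq_iff_dvd.mp he2.symm
    push_cast at hm
    have hm' : (Rc l p.1 : ℝ) + Rc l p.2 - ν = 2 ^ l * m := by exact_mod_cast hm
    have c1 := Rc_le (l := l) (Yq_pos hy)
    have c2 := lt_Rc (l := l) (y := p.1)
    have c3 := Rc_le (l := l) (Yq_pos hy')
    have c4 := lt_Rc (l := l) (y := p.2)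
    refine ⟨m, ?_, ?_⟩
    · have : (ν:ℝ) / 2 ^ l + m - 0 = (ν + 2 ^ l * m) / 2 ^ l := by field_simp; ring
      rw [this, div_le_iff₀ hlp]
      linarith
    · have : (ν:ℝ) / 2 ^ l + m + 2 / 2 ^ l = (ν + 2 ^ l * m + 2) / 2 ^ l := by field_simp
      rw [this, le_div_iff₀ hlp]
      linarith

/-- size and distinct contents of plain regions -/
theorem good_R {C : Codes} {e : ℕ} (hC : RBase C e) (b v : ℕ) :
    ((Reg.R b v).V C).card ^ 2 ≤ 2 ^ ((Reg.R b v).len C) ∧ (Reg.R b v).Inj C := by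
  refine ⟨?_, inj_R hC b v⟩
  simp only [Reg.V, Reg.len, Reg.top, Reg.bot, hC.hY]
  calc (Yq ((v - b) / 2)).card ^ 2 ≤ (2 ^ ((v - b) / 2)) ^ 2 :=
        Nat.pow_le_pow_left (card_Yq_le _) 2
    _ = 2 ^ ((v - b) / 2 * 2) := by rw [pow_mul]
    _ ≤ 2 ^ (v - b) := Nat.pow_le_pow_right (by norm_num) (by omega)

lemma card_block {C : Codes} {e l : ℕ} (hC : RBase C e) (hl : C.W e ≤ l) {T : Finset ℕ}
    (hT : T.card ≤ 2 ^ (C.W e / 2)) : (pairs (C.Y (l - C.W e)) T).card ^ 2 ≤ 2 ^ l := by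
  rw [card_pairs, hC.hY]
  calc ((Yq ((l - C.W e) / 2)).card * T.card) ^ 2
      ≤ (2 ^ ((l - C.W e) / 2) * 2 ^ (C.W e / 2)) ^ 2 :=
        Nat.pow_le_pow_left (Nat.mul_le_mul (card_Yq_le _) hT) 2
    _ = 2 ^ (((l - C.W e) / 2 + C.W e / 2) * 2) := by rw [pow_mul, pow_add]
    _ ≤ 2 ^ l := Nat.pow_le_pow_right (by norm_num) (by omega)

/-- size and distinct contents of regions with a block in `T` -/
theorem good_RT {C : Codes} {e b v : ℕ} (hC : RBase C e) (hl : b + C.W e ≤ v) :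
    ((Reg.RT e b v).V C).card ^ 2 ≤ 2 ^ ((Reg.RT e b v).len C) ∧ (Reg.RT e b v).Inj C :=
  ⟨card_block hC (l := v - b) (by omega) hC.cT, inj_RT hC hl⟩

/-- size and distinct contents of regions with a block in `Th` -/
theorem good_RTh {C : Codes} {e b v : ℕ} (hC : RBase C e) (hl : b + C.W e ≤ v) :
    ((Reg.RTh e b v).V C).card ^ 2 ≤ 2 ^ ((Reg.RTh e b v).len C) ∧ (Reg.RTh e b v).Inj C :=
  ⟨card_block hC (l := v - b) (by omega) hC.cTh, inj_RTh hC hl⟩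

end Pool.Agent.ETS.RC
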