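import Mathlib
import Pool.Agent.Helper86.ET.Q10

/-!
# E-T (MP_12a1af_nt), project T*: R regions: the fields of `NearCodes` and `RegCodes`
-/

set_option autoImplicit false

open Finset

namespace Pool.Agent.ETS.RC

/-- what the near lemma needs of the R side, `B e` the constants of `T e` -/
structure RNear (C : Codes) (e1 : ℕ) (B : ℕ → ℕ) : Prop where
  base : ∀ e, e1 ≤ e → RBase C e
  fT : ∀ e, e1 ≤ e → ∀ j k, j < 2 ^ (4 * (C.W e / 2)) → k < 2 ^ (4 * (C.W e / 2)) →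
    (C.T e ∩ Qs (C.W e / 2) j k).card ≤ B e
  gT : ∀ e, e1 ≤ e → ∀ ν, ν < 2 ^ C.W e →
    (C.T e ∩ SH.QR (C.W e) (C.W e / 2) ν).card ≤ B e
  mTT : ∀ e, e1 ≤ e → Mult (C.W e) (B e) (C.T e) (C.T e)
  mTTh : ∀ e, e1 ≤ e → Mult (C.W e) (B e) (C.T e) (C.Th e)
  mThTh : ∀ e, e1 ≤ e → Mult (C.W e) 2 (C.Th e) (C.Th e)

variable {C : Codes} {e1 : ℕ} {B : ℕ → ℕ}

lemma lt_of_W (h : RNear C e1 B) {e b v : ℕ} (he : e1 ≤ e) (hv : b + C.W e ≤ v) : b < v := by
  have := (h.base e he).hW8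
  omega

theorem RNear.RR (h : RNear C e1 B) : ∀ b v, b < v → PB C (Reg.R b v) (Reg.R b v) 18 :=
  fun b v _ => PB_R_R_all (h.base e1 le_rfl) b v

theorem RNear.ThTh (h : RNear C e1 B) : ∀ e b v, e1 ≤ e → b + C.W e ≤ v → C.W e ∣ v - b →
    PB C (Reg.RTh e b v) (Reg.RTh e b v) 132 :=
  fun e _ _ he hv hd => PB_RTh_RTh (h.base e he) (lt_of_W h he hv) hd (h.mThTh e he)

theorem RNear.RTRT (h : RNear C e1 B) : ∀ e b v, e1 ≤ e → b + C.W e ≤ v → C.W e ∣ v - b →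
    PB C (Reg.RT e b v) (Reg.RT e b v) (153738 * B e) :=
  fun e _ _ he hv hd => (PB_RT_RT (h.base e he) (lt_of_W h he hv) hd (h.mTT e he)).mono
    (Nat.mul_le_mul_right _ (by norm_num))

theorem RNear.RRT (h : RNear C e1 B) : ∀ e b v, e1 ≤ e → b + C.W e ≤ v → C.W e ∣ v - b →
    PB C (Reg.R b v) (Reg.RT e b v) (153738 * B e) :=
  fun e _ _ he hv hd => PB_R_RT (h.base e he) (lt_of_W h he hv) hd (h.fT e he) (h.gT e he)

theorem RNear.RTRTh (h : RNear C e1 B) : ∀ e b v, e1 ≤ e → b + C.W e ≤ v → C.W e ∣ v - b →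
    PB C (Reg.RT e b v) (Reg.RTh e b v) (153738 * B e) :=
  fun e _ _ he hv hd => (PB_RT_RTh (h.base e he) (lt_of_W h he hv) hd (h.mTTh e he)).mono
    (Nat.mul_le_mul_right _ (by norm_num))

theorem RNear.RS (h : RNear C e1 B) : ∀ e l, e1 ≤ e → C.W e ≤ l → C.W e ∣ l →
    RSB C e l (153738 * B e) :=
  fun e l he hl hd κ κ₂ ν => (RSB_holds (h.base e he) hl hd (h.mTTh e he) κ κ₂ ν).trans
    (Nat.mul_le_mul_right _ (by norm_num))

theorem RNear.Y0 (h : RNear C e1 B) : (C.Y 0).card ≤ 1 := by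
  rw [(h.base e1 le_rfl).hY]
  simp

/-- from the near hypotheses and the bounds for `Th` to the far hypotheses -/
theorem RNear.hyp (h : RNear C e1 B) {e B' : ℕ} (he : e1 ≤ e) (h1 : 2 ≤ B') (h2 : B e ≤ B')
    (fTh : ∀ j k, j < 2 ^ (4 * (C.W e / 2)) → k < 2 ^ (4 * (C.W e / 2)) →
      (C.Th e ∩ Qs (C.W e / 2) j k).card ≤ B')
    (gTh : ∀ ν, ν < 2 ^ C.W e → (C.Th e ∩ SH.QR (C.W e) (C.W e / 2) ν).card ≤ B') :
    RHyp C e B' B' where
  toRBase := h.base e he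
  fT := fun j k hj hk => (h.fT e he j k hj hk).trans h2
  fTh := fTh
  gT := fun ν hν => (h.gT e he ν hν).trans h2
  gTh := gTh
  mTT := fun c => (h.mTT e he c).trans h2
  mTTh := fun c => (h.mTTh e he c).trans h2
  mThT := by
    intro c
    refine le_trans ?_ ((h.mTTh e he c).trans h2)
    refine card_le_card_of_injOn (fun q => (q.2, q.1)) ?_ ?_
    · intro q hq
      rw [mem_coe, mem_filter, mem_product] at hq ⊢
      exact ⟨⟨hq.1.2, hq.1.1⟩, by rw [← hq.2]; simp only [add_comm]⟩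
    · intro q _ q' _ hqq
      simp only [Prod.mk.injEq] at hqq
      exact Prod.ext hqq.2 hqq.1
  mThTh := fun c => (h.mThTh e he c).trans h1
  r1 := by omega
  rB := le_rfl

end Pool.Agent.ETS.RC
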