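import Mathlib
import Pool.Agent.Helper86.ET.Q11
import Pool.Agent.ETS.FarDefs
import Pool.Agent.Helper5.ETP.ZBasic

/-!
# E-T (MP_12a1af_nt), project T*: far pairs, an `R` zone of `K` which reaches above `K'`
-/

set_option autoImplicit false

open Finset

namespace Pool.Agent.ETS.RC

open Pool.Agent.Helper29.ETK (Kid kid wb ep Wd av ab ag ak CC Hb wcomp gth j0 lg)
open Pool.Agent.ETP (isPT phiV)
open Pool.Agent.Helper5.ETP (Zone.Ok zcons_le_left zreg_card_le zRS_card_le)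

lemma zoneOf_top {C : Codes} {r0 r1 : Reg} {Z : Zone} (h : ZoneOf C r0 r1 Z) :
    Z.top = r1.top C := by
  cases r0 <;> simp only [ZoneOf] at h
  case PT =>
    obtain ⟨a, κ, κ₂, -, rfl⟩ := h
    rfl
  all_goals
    obtain ⟨a, κ, -, rfl⟩ := h
    rfl

lemma zoneOf_reg {C : Codes} {r0 r1 : Reg} {Z : Zone} (h : ZoneOf C r0 r1 Z) (h0 : ¬ isPT r0) :
    ∃ a κ, a < 2 ^ r1.bot ∧ Z = zreg C r1 a κ := by
  cases r0 <;> simp only [ZoneOf] at h
  case PT => exact absurd trivial h0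
  all_goals exact h

/-- the top of the last region of a description of `R` type -/
lemma desc_top {C : Codes} {c t : ℕ} {d : Desc} {r0 r1 : Reg} (hd : IsDesc c t d r0 r1)
    (hR : d.IsR) : r1.top C = d.hi c := by
  cases d with
  | P g e => exact hR.elim
  | PT g b => exact hR.elim
  | RS g b v => obtain ⟨-, h, -⟩ := hd; rw [h]; rfl
  | R b v => obtain ⟨h, -⟩ := hd; rw [h]; rfl
  | RT b v => obtain ⟨h, -⟩ := hd; rw [h]; rfl
  | RTh b v => obtain ⟨h, -⟩ := hd; rw [h]; rfl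

lemma half_of_sq {a n : ℕ} (h : a ^ 2 ≤ 2 ^ n) : a ≤ 2 ^ (n / 2) ∨ n % 2 = 1 := by
  rcases Nat.mod_two_eq_zero_or_one n with h0 | h1
  · left
    have e : n = n / 2 * 2 := by omega
    rw [e, pow_mul] at h
    exact (Nat.pow_le_pow_iff_left (by norm_num)).mp h
  · exact Or.inr h1

/-- size of the zones of `R` type -/
lemma card_zone_R {C : Codes} {c t : ℕ} {d : Desc} {r0 r1 : Reg} {Z : Zone}
    (hC : RBase C (ep c d.lo)) (hW : C.W (ep c d.lo) = Wd c d.lo)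
    (hd : IsDesc c t d r0 r1) (hR : d.IsR) (hlen : d.Ip c ≤ d.hi c) (hZ : ZoneOf C r0 r1 Z) :
    Z.S.card ≤ 2 ^ ((d.hi c - d.lo) / 2) := by
  have hblock : ∀ {l : ℕ} {T : Finset ℕ}, C.W (ep c d.lo) ≤ l →
      T.card ≤ 2 ^ (C.W (ep c d.lo) / 2) →
      (C.Y (l - C.W (ep c d.lo))).card * T.card ≤ 2 ^ (l / 2) := by
    intro l T hl hT
    rw [hC.hY]
    have h2 := hC.hW
    calc (Yq ((l - C.W (ep c d.lo)) / 2)).card * T.card
        ≤ 2 ^ ((l - C.W (ep c d.lo)) / 2) * 2 ^ (C.W (ep c d.lo) / 2) :=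
          Nat.mul_le_mul (card_Yq_le _) hT
      _ = 2 ^ ((l - C.W (ep c d.lo)) / 2 + C.W (ep c d.lo) / 2) := by rw [pow_add]
      _ ≤ 2 ^ (l / 2) := Nat.pow_le_pow_right (by norm_num) (by omega)
  cases d with
  | P g e => exact hR.elim
  | PT g b => exact hR.elim
  | RS g b v =>
    obtain ⟨h0, h1, -⟩ := hd
    simp only [Desc.lo, Desc.hi, Desc.Ip] at *
    subst h0 h1
    obtain ⟨a, κ, κ₂, -, rfl⟩ := hZ
    refine (zRS_card_le C _ _ _ _ _ _).trans ?_
    simp only [Reg.top]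
    rw [Nat.sub_add_eq]
    exact hblock (by omega) hC.cT
  | R b v =>
    obtain ⟨h1, h0, -⟩ := hd
    simp only [Desc.lo, Desc.hi, Desc.Ip] at *
    subst h1
    obtain ⟨a, κ, -, rfl⟩ := zoneOf_reg hZ h0
    refine (zreg_card_le C _ _ _).trans ?_
    simp only [Reg.V]
    rw [hC.hY]
    exact card_Yq_le _
  | RT b v =>
    obtain ⟨h1, h0, -⟩ := hd
    simp only [Desc.lo, Desc.hi, Desc.Ip] at *
    subst h1
    obtain ⟨a, κ, -, rfl⟩ := zoneOf_reg hZ h0
    refine (zreg_card_le C _ _ _).trans ?_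
    simp only [Reg.V, card_pairs]
    exact hblock (by omega) hC.cT
  | RTh b v =>
    obtain ⟨h1, h0, -⟩ := hd
    simp only [Desc.lo, Desc.hi, Desc.Ip] at *
    subst h1
    obtain ⟨a, κ, -, rfl⟩ := zoneOf_reg hZ h0
    refine (zreg_card_le C _ _ _).trans ?_
    simp only [Reg.V, card_pairs]
    exact hblock (by omega) hC.cTh

lemma cutR_num {g x z q : ℝ} (hq : 1 ≤ q) (hg : 0 ≤ g) (hz : 2 * g ≤ z)
    (h : (q + 1) * x ≤ q * z) : g / (8 * q) ≤ (z - x) / 2 := by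
  have h9 : z ≤ (z - x) * (q + 1) := by
    have e : (z - x) * (q + 1) = (q + 1) * z - (q + 1) * x := by ring
    rw [e]
    linarith
  have h10 : 0 ≤ z - x := nonneg_of_mul_nonneg_left (by linarith) (by linarith : 0 < q + 1)
  rw [div_le_iff₀ (by linarith)]
  have h11 : (z - x) * (q + 1) ≤ (z - x) * (2 * q) :=
    mul_le_mul_of_nonneg_left (by linarith) h10
  have e : (z - x) / 2 * (8 * q) = 2 * ((z - x) * (2 * q)) := by ring
  rw [e]
  linarith

/-- **(CUT-R)** the `R` zone of `K` reaches above `K'` -/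
theorem cutR {C : Codes} {c K K' : ℕ} (hF : FarKin c K K') {d : Desc} {r0 r1 r0' r1' : Reg}
    (hC : RBase C (ep c d.lo)) (hW : C.W (ep c d.lo) = Wd c d.lo)
    (hd : IsDesc c K d r0 r1) (hR : d.IsR) (hlen : d.Ip c ≤ d.hi c) (hvK : d.hi c ≤ K)
    (hcut : K' ≤ d.hi c) (htop' : r1'.top C ≤ K')
    (hok' : ∀ Z', ZoneOf C r0' r1' Z' → Zone.Ok Z') :
    FarOK C c K K' r0 r1 r0' r1' := by
  have htop := desc_top (C := C) hd hR
  refine ⟨1 * 2 ^ ((d.hi c - d.lo) / 2), ?_, ?_⟩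
  · intro n Z Z' hZ hZ'
    have h1 := zoneOf_top hZ
    have h2 := zoneOf_top hZ'
    rw [one_mul]
    refine (zcons_le_left (hok' Z' hZ') (by rw [h1, htop]; exact hvK) (by rw [h2]; exact htop')
      (by rw [h1, h2, htop]; omega)).trans ?_
    exact card_zone_R hC hW hd hR hlen hZ
  · obtain ⟨h5, -⟩ := hF.F5R d ⟨r0, r1, hd⟩ hR
    have h8 := hF.F8 d ⟨r0, r1, hd⟩
    rw [htop]
    have hC1 : 1 ≤ CC c := Nat.one_le_two_pow
    refine fin_le' (p := 0) (by norm_num) (phiV_eq_of_cut hcut hvK htop') ?_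
    have h1 : ((gth c K / (8 * CC c) : ℕ) : ℝ) ≤ (gth c K : ℝ) / (8 * CC c) := by
      have := natdiv_le (gth c K) (8 * CC c); push_cast at this; exact this
    have h2 : (((d.hi c - d.lo) / 2 : ℕ) : ℝ) ≤ ((d.hi c - d.lo : ℕ) : ℝ) / 2 := by
      have := natdiv_le (d.hi c - d.lo) 2; push_cast at this; exact this
    have h3 : ((CC c : ℝ) + 1) * ((d.hi c - d.lo : ℕ) : ℝ) ≤ CC c * ((K : ℝ) - d.hi c) := by
      have : (((CC c + 1) * (d.hi c - d.lo) : ℕ) : ℝ) ≤ ((CC c * (K - d.hi c) : ℕ) : ℝ) := by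
        exact_mod_cast h5
      rw [Nat.cast_mul, Nat.cast_mul, Nat.cast_sub hvK] at this
      push_cast at this
      exact this
    have h4 : (d.hi c : ℝ) + 2 * gth c K ≤ K := by exact_mod_cast h8
    have h6 : (r1'.top C : ℝ) ≤ K' := by exact_mod_cast htop'
    have hCr : (1:ℝ) ≤ CC c := by exact_mod_cast hC1
    set x : ℝ := ((d.hi c - d.lo : ℕ) : ℝ) with hx
    set z : ℝ := (K : ℝ) - d.hi c with hz
    set g : ℝ := (gth c K : ℝ) with hg
    have hg0 : 0 ≤ g := Nat.cast_nonneg _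
    have hz2 : 2 * g ≤ z := by rw [hz]; linarith
    have h7 : g / (8 * CC c) ≤ (z - x) / 2 := cutR_num hCr hg0 hz2 h3
    push_cast
    linarith

end Pool.Agent.ETS.RC
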