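import Mathlib
import Pool.Agent.Helper84.ET.TKDefs
import Pool.Agent.Helper16.ETL.NearW

/-!
# E-T (MP_12a1af_nt), project T*: the pairs of window variables

From the properties `TKGood` of the random sets of the windows to the pair bounds `WP` of the
window regions.
-/

open Finset

namespace Pool.Agent.ETS.TKS

/-- the window region of scale `K`: bottom `w K`, composite part of length `hc K` -/
def wreg (w hc ew : ℕ → ℕ) (K : ℕ) : Reg :=
  if hc K = 0 then Reg.win (w K) K else Reg.winC (ew K) (w K) (hc K) K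

/-- what is used of the windows besides the random sets -/
structure WOrd (C : Codes) (w hc ew : ℕ → ℕ) (K1 μ : ℕ) : Prop where
  mono : ∀ K K', K1 ≤ K' → K' ≤ K → w K' ≤ w K
  same : ∀ K K', K1 ≤ K' → K' ≤ K → w K' = w K → 0 < hc K' → hc K = hc K' ∧ ew K = ew K'
  step : ∀ K K', K1 ≤ K' → K' ≤ K → w K' < w K → w K' + hc K' ≤ w K
  len : ∀ K, K1 ≤ K → w K + hc K ≤ K
  /-- size and distinct contents of the composite part (this is `Reg.Good`) -/
  good : ∀ K, K1 ≤ K → 0 < hc K →
    ((Reg.RTh (ew K) (w K) (w K + hc K)).V C).card ^ 2 ≤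
      2 ^ ((Reg.RTh (ew K) (w K) (w K + hc K)).len C) ∧
    (Reg.RTh (ew K) (w K) (w K + hc K)).Inj C
  pb : ∀ K, K1 ≤ K → 0 < hc K →
    PB C (Reg.RTh (ew K) (w K) (w K + hc K)) (Reg.RTh (ew K) (w K) (w K + hc K)) μ
  one : 1 ≤ μ

/-- the composite part of a window variable -/
def lo (hc : ℕ → ℕ) (K z : ℕ) : ℕ := if hc K = 0 then 0 else (Nat.unpair z).1

/-- the random part of a window variable -/
def hi (hc : ℕ → ℕ) (K z : ℕ) : ℕ := if hc K = 0 then z else (Nat.unpair z).2

/-- the composite parts -/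
def Lo (C : Codes) (hc ew : ℕ → ℕ) (K : ℕ) : Finset ℕ :=
  if hc K = 0 then {0} else pairs (C.Y (hc K - C.W (ew K))) (C.Th (ew K))

/-- the contents of the composite parts -/
def lr (C : Codes) (hc : ℕ → ℕ) (K x : ℕ) : ℕ :=
  if hc K = 0 then 0 else (C.E (hc K) (Nat.unpair x).1 + (Nat.unpair x).2) % 2 ^ hc K

section

variable {C : Codes} {w hc ew : ℕ → ℕ} {K1 μ : ℕ}

lemma wreg_bot {K : ℕ} : (wreg w hc ew K).bot = w K := by
  unfold wreg; split_ifs <;> rfl

lemma wreg_top {K : ℕ} : (wreg w hc ew K).top C = K := by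
  unfold wreg; split_ifs <;> rfl

lemma wreg_len {K : ℕ} : (wreg w hc ew K).len C = K - w K := by
  unfold Reg.len; rw [wreg_bot, wreg_top]

lemma mem_wreg {K z : ℕ} :
    z ∈ (wreg w hc ew K).V C ↔ lo hc K z ∈ Lo C hc ew K ∧ hi hc K z ∈ C.TK K := by
  unfold wreg lo hi Lo
  split_ifs with h
  · simp [Reg.V]
  · simp only [Reg.V, mem_pairs]

lemma wreg_c {K z : ℕ} :
    (wreg w hc ew K).c C z = lr C hc K (lo hc K z) + 2 ^ hc K * hi hc K z := by
  unfold wreg lo hi lr
  split_ifs with h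
  · simp [Reg.c, h]
  · simp only [Reg.c]

lemma lo_hi_inj {K z z' : ℕ} (h1 : lo hc K z = lo hc K z') (h2 : hi hc K z = hi hc K z') :
    z = z' := by
  unfold lo at h1
  unfold hi at h2
  split_ifs at h1 h2
  · exact h2
  · rw [← Nat.pair_unpair z, ← Nat.pair_unpair z', h1, h2]

lemma lr_lt {K x : ℕ} : lr C hc K x < 2 ^ hc K := by
  unfold lr
  split_ifs with h
  · positivity
  · exact Nat.mod_lt _ (by positivity)

lemma lr_inj (hO : WOrd C w hc ew K1 μ) {K : ℕ} (hK : K1 ≤ K) {x x' : ℕ}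
    (hx : x ∈ Lo C hc ew K) (hx' : x' ∈ Lo C hc ew K) (h : lr C hc K x = lr C hc K x') :
    x = x' := by
  unfold Lo at hx hx'
  unfold lr at h
  split_ifs at hx hx' h with h0
  · rw [mem_singleton] at hx hx'
    rw [hx, hx']
  · have h1 := (hO.good K hK (Nat.pos_of_ne_zero h0)).2
    unfold Reg.Inj at h1
    simp only [Reg.V, Reg.c, Reg.len, Reg.bot, Reg.top, Nat.add_sub_cancel_left] at h1
    exact h1 x hx x' hx' h

lemma lr_pb (hO : WOrd C w hc ew K1 μ) {K : ℕ} (hK : K1 ≤ K) (ν : ℕ) :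
    ((Lo C hc ew K ×ˢ Lo C hc ew K).filter (fun q =>
      lr C hc K q.1 + lr C hc K q.2 ≡ ν [MOD 2 ^ hc K])).card ≤ μ := by
  unfold Lo lr
  split_ifs with h0
  · refine le_trans (card_filter_le _ _) ?_
    rw [card_product]
    simpa using hO.one
  · have h1 := hO.pb K hK (Nat.pos_of_ne_zero h0) ν
    simp only [Reg.V, Reg.c, Reg.len, Reg.bot, Reg.top, Nat.add_sub_cancel_left] at h1
    refine le_trans (card_le_card ?_) h1
    intro q hq
    rw [mem_filter] at hq ⊢
    refine ⟨hq.1, ?_⟩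
    exact ((Nat.mod_modEq _ _).add (Nat.mod_modEq _ _)).symm.trans hq.2

/-- splitting a shifted number at a position -/
lemma split_mod (a t κ h ρ : ℕ) : (a + 2 ^ h * t + κ) % 2 ^ (h + ρ) =
    (a + κ) % 2 ^ h + 2 ^ h * ((t + (a + κ) / 2 ^ h) % 2 ^ ρ) := by
  have e : a + 2 ^ h * t + κ = a + κ + 2 ^ h * t := by ring
  rw [e, pow_add, Nat.mod_mul, Nat.add_mul_mod_self_left,
    Nat.add_mul_div_left _ _ (by positivity), add_comm t]

/-- **size and distinct contents of the windows** (this is `Reg.Good`) -/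
theorem wreg_good {R : ℕ → ℕ → Finset ℕ} {ok : ℕ → ℕ → Prop} {L : ℕ → ℕ} {M : ℕ → ℕ → ℕ}
    (hO : WOrd C w hc ew K1 μ) (hT : TKGood w hc ew R ok K1 L M C.TK) {K : ℕ} (hK : K1 ≤ K) :
    ((wreg w hc ew K).V C).card ^ 2 ≤ 2 ^ ((wreg w hc ew K).len C) ∧
      (wreg w hc ew K).Inj C := by
  have hlen := hO.len K hK
  set ρ := K - (w K + hc K) with hρ
  have hKw : K - w K = hc K + ρ := by omega
  constructor
  · rw [wreg_len, hKw]
    have h1 : ((wreg w hc ew K).V C).card ≤ (Lo C hc ew K).card * (C.TK K).card := by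
      rw [← card_product]
      refine card_le_card_of_injOn (fun z => (lo hc K z, hi hc K z)) ?_ ?_
      · intro z hz
        rw [mem_coe, mem_wreg] at hz
        rw [mem_coe, mem_product]
        exact hz
      · intro z _ z' _ h
        rw [Prod.mk.injEq] at h
        exact lo_hi_inj h.1 h.2
    have h2 : (Lo C hc ew K).card ^ 2 ≤ 2 ^ hc K := by
      unfold Lo
      split_ifs with h0
      · simp [h0]
      · have h3 := (hO.good K hK (Nat.pos_of_ne_zero h0)).1
        simpa only [Reg.V, Reg.len, Reg.bot, Reg.top, Nat.add_sub_cancel_left] using h3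
    have h3 : (C.TK K).card ^ 2 ≤ 2 ^ ρ := by
      rw [hT.card K hK, ← pow_mul]
      exact Nat.pow_le_pow_right (by norm_num) (Nat.div_mul_le_self _ _)
    calc ((wreg w hc ew K).V C).card ^ 2 ≤ ((Lo C hc ew K).card * (C.TK K).card) ^ 2 :=
          Nat.pow_le_pow_left h1 2
      _ = (Lo C hc ew K).card ^ 2 * (C.TK K).card ^ 2 := mul_pow _ _ _
      _ ≤ 2 ^ hc K * 2 ^ ρ := Nat.mul_le_mul h2 h3
      _ = 2 ^ (hc K + ρ) := (pow_add _ _ _).symm
  · intro z hz z' hz' h
    rw [mem_wreg] at hz hz'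
    rw [wreg_c, wreg_c, wreg_len, hKw] at h
    unfold Nat.ModEq at h
    have s1 := split_mod (lr C hc K (lo hc K z)) (hi hc K z) 0 (hc K) ρ
    have s2 := split_mod (lr C hc K (lo hc K z')) (hi hc K z') 0 (hc K) ρ
    simp only [add_zero] at s1 s2
    rw [s1, s2] at h
    have l1 : lr C hc K (lo hc K z) < 2 ^ hc K := lr_lt
    have l2 : lr C hc K (lo hc K z') < 2 ^ hc K := lr_lt
    have t1 := hT.lt K hK _ hz.2
    have t2 := hT.lt K hK _ hz'.2
    rw [Nat.mod_eq_of_lt l1, Nat.mod_eq_of_lt l2, Nat.div_eq_of_lt l1, Nat.div_eq_of_lt l2,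
      add_zero, add_zero, Nat.mod_eq_of_lt t1, Nat.mod_eq_of_lt t2] at h
    have h1 : lr C hc K (lo hc K z) = lr C hc K (lo hc K z') := by
      have := congrArg (· % 2 ^ hc K) h
      simpa only [Nat.add_mul_mod_self_left, Nat.mod_eq_of_lt l1, Nat.mod_eq_of_lt l2] using this
    have h2 : hi hc K z = hi hc K z' := by
      rw [h1] at h
      have := Nat.add_left_cancel h
      exact Nat.eq_of_mul_eq_mul_left (by positivity) this
    exact lo_hi_inj (lr_inj hO hK hz.1 hz'.1 h1) h2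

/-- sums of two elements of the random set of one scale, with shifts -/
lemma self_shift {T : Finset ℕ} {ρ m : ℕ} (hlt : ∀ t ∈ T, t < 2 ^ ρ)
    (h : ∀ s, ((T ×ˢ T).filter (fun q => q.1 + q.2 = s)).card ≤ m) (k k' ν : ℕ) :
    ((T ×ˢ T).filter (fun q => (q.1 + k) % 2 ^ ρ + (q.2 + k') % 2 ^ ρ = ν)).card ≤ 2 * m := by
  classical
  obtain ⟨s₀, hs₀⟩ := exists_modEq_shift (k + k') ν (2 ^ ρ) (by positivity)
  set s := s₀ % 2 ^ ρ with hs
  have hsl : s < 2 ^ ρ := Nat.mod_lt _ (by positivity)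
  refine le_trans (card_le_card ?_) (le_trans (card_union_le
    ((T ×ˢ T).filter (fun q => q.1 + q.2 = s))
    ((T ×ˢ T).filter (fun q => q.1 + q.2 = s + 2 ^ ρ))) ?_)
  · intro q hq
    rw [mem_filter, mem_product] at hq
    rw [mem_union, mem_filter, mem_filter, mem_product]
    obtain ⟨⟨h1, h2⟩, h3⟩ := hq
    have l1 := hlt _ h1
    have l2 := hlt _ h2
    have h4 : q.1 + q.2 ≡ s₀ [MOD 2 ^ ρ] := by
      apply hs₀
      have h5 : k + k' + (q.1 + q.2) = (q.1 + k) + (q.2 + k') := by ring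
      rw [h5, ← h3]
      exact ((Nat.mod_modEq _ _).add (Nat.mod_modEq _ _)).symm
    have h5 : (q.1 + q.2) % 2 ^ ρ = s := h4
    rcases lt_or_ge (q.1 + q.2) (2 ^ ρ) with h6 | h6
    · left
      rw [Nat.mod_eq_of_lt h6] at h5
      exact ⟨⟨h1, h2⟩, h5⟩
    · right
      rw [Nat.mod_eq_sub_mod h6, Nat.mod_eq_of_lt (by omega)] at h5
      exact ⟨⟨h1, h2⟩, by omega⟩
  · have := h s
    have := h (s + 2 ^ ρ)
    omega

/-- **pairs of window variables** -/
theorem wreg_WP {ok : ℕ → ℕ → Prop} {L : ℕ → ℕ} {M : ℕ → ℕ → ℕ}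
    (hO : WOrd C w hc ew K1 μ) (hT : TKGood w hc ew (Rs C) ok K1 L M C.TK) {K K' : ℕ}
    (hK' : K1 ≤ K') (hKK : K' ≤ K) (hw : w K ≤ K') :
    WP C (wreg w hc ew K) (wreg w hc ew K') (2 * μ * M K (K - K')) := by
  classical
  have hK : K1 ≤ K := hK'.trans hKK
  have hlen := hO.len K hK
  have hlen' := hO.len K' hK'
  have hμ := hO.one
  set ρ := K - (w K + hc K) with hρ
  set ρ' := K' - (w K' + hc K') with hρ'
  have hKw : K - w K = hc K + ρ := by omega
  have hKw' : K' - w K' = hc K' + ρ' := by omega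
  intro κ κ' ν
  set S := (((wreg w hc ew K).V C ×ˢ (wreg w hc ew K').V C).filter (fun q =>
    2 ^ (wreg w hc ew K).bot * (((wreg w hc ew K).c C q.1 + κ) % 2 ^ ((wreg w hc ew K).len C)) +
      2 ^ (wreg w hc ew K').bot *
        (((wreg w hc ew K').c C q.2 + κ') % 2 ^ ((wreg w hc ew K').len C)) = ν)) with hS
  have hmem : ∀ q ∈ S, (lo hc K q.1 ∈ Lo C hc ew K ∧ hi hc K q.1 ∈ C.TK K) ∧
      (lo hc K' q.2 ∈ Lo C hc ew K' ∧ hi hc K' q.2 ∈ C.TK K') ∧
      2 ^ w K * ((lr C hc K (lo hc K q.1) + 2 ^ hc K * hi hc K q.1 + κ) % 2 ^ (K - w K)) +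
        2 ^ w K' * ((lr C hc K' (lo hc K' q.2) + κ') % 2 ^ hc K' + 2 ^ hc K' *
          ((hi hc K' q.2 + (lr C hc K' (lo hc K' q.2) + κ') / 2 ^ hc K') % 2 ^ ρ')) = ν := by
    intro q hq
    rw [hS, mem_filter, mem_product, mem_wreg, mem_wreg] at hq
    obtain ⟨⟨h1, h2⟩, h3⟩ := hq
    refine ⟨h1, h2, ?_⟩
    rw [wreg_bot, wreg_bot, wreg_c, wreg_c, wreg_len, wreg_len, hKw', split_mod] at h3
    exact h3
  by_cases hcase : w K' = w K ∧ hc K' = hc K ∧ (0 < hc K → ew K' = ew K)
  · -- the random parts have the same bottom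
    obtain ⟨c1, c2, c3⟩ := hcase
    have hLo : Lo C hc ew K' = Lo C hc ew K := by
      unfold Lo
      rw [c2]
      split_ifs with h0
      · rfl
      · rw [c3 (Nat.pos_of_ne_zero h0)]
    have hlr : ∀ x, lr C hc K' x = lr C hc K x := by
      intro x
      unfold lr
      rw [c2]
    obtain ⟨ν', hν'⟩ := exists_modEq_shift (κ + κ') (ν / 2 ^ w K) (2 ^ hc K) (by positivity)
    set T := ((Lo C hc ew K ×ˢ Lo C hc ew K).filter (fun q =>
      lr C hc K q.1 + lr C hc K q.2 ≡ ν' [MOD 2 ^ hc K])) with hTd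
    have hTc : T.card ≤ μ := lr_pb hO hK ν'
    set F : ℕ × ℕ → ℕ × ℕ := fun q => (lo hc K q.1, lo hc K' q.2) with hF
    have hmaps : ∀ q ∈ S, F q ∈ T := by
      intro q hq
      obtain ⟨h1, h2, h3⟩ := hmem q hq
      rw [hTd, mem_filter, mem_product]
      refine ⟨⟨h1.1, by rw [← hLo]; exact h2.1⟩, ?_⟩
      simp only [hF]
      apply hν'
      rw [hKw, split_mod, c1, c2, hlr] at h3
      set a := lr C hc K (lo hc K q.1)
      set a' := lr C hc K (lo hc K' q.2)
      have h4 : 2 ^ w K * ((a + κ) % 2 ^ hc K) + 2 ^ w K * ((a' + κ') % 2 ^ hc K) ≡ ν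
          [MOD 2 ^ (w K + hc K)] := by
        rw [← h3, pow_add]
        have e : ∀ A B A' B' : ℕ, 2 ^ w K * (A + 2 ^ hc K * B) + 2 ^ w K * (A' + 2 ^ hc K * B') =
            2 ^ w K * A + 2 ^ w K * A' + 2 ^ w K * 2 ^ hc K * (B + B') := by
          intros; ring
        rw [e]
        unfold Nat.ModEq
        rw [Nat.add_mul_mod_self_left]
      have h5 := modEq_sub_of_mul h4
      have h6 : κ + κ' + (a + a') = a + κ + (a' + κ') := by ring
      rw [h6]
      exact h5
    have hfib : ∀ x ∈ T, (S.filter (fun q => F q = x)).card ≤ 2 * M K (K - K') := by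
      rintro ⟨u, u'⟩ _
      -- the pairs of random parts
      have hpairs : ∀ k k' ν₁, ((C.TK K ×ˢ C.TK K').filter (fun q =>
          (q.1 + k) % 2 ^ ρ + (q.2 + k') % 2 ^ ρ' = ν₁)).card ≤ 2 * M K (K - K') := by
        intro k k' ν₁
        rcases Nat.eq_or_lt_of_le hKK with heq | hlt
        · subst heq
          have h1 := self_shift (hT.lt K' hK') (hT.self K' hK') k k' ν₁
          simpa only [Nat.sub_self] using h1
        · have h1 := hT.pp K K' hK' hlt (by omega) (by omega) k k' ν₁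
          have e : w K + hc K - (w K' + hc K') = 0 := by omega
          rw [e, pow_zero] at h1
          simp only [one_mul] at h1
          exact h1.trans (by omega)
      set a := lr C hc K u
      set a' := lr C hc K u'
      set c0 := 2 ^ w K * ((a + κ) % 2 ^ hc K) + 2 ^ w K * ((a' + κ') % 2 ^ hc K) with hc0
      refine le_trans ?_ (hpairs ((a + κ) / 2 ^ hc K) ((a' + κ') / 2 ^ hc K)
        ((ν - c0) / (2 ^ w K * 2 ^ hc K)))
      refine card_le_card_of_injOn (fun q => (hi hc K q.1, hi hc K' q.2)) ?_ ?_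
      · intro q hq
        rw [mem_coe, mem_filter] at hq
        obtain ⟨hq1, hq2⟩ := hq
        obtain ⟨h1, h2, h3⟩ := hmem q hq1
        simp only [hF, Prod.mk.injEq] at hq2
        rw [hq2.1, hq2.2, hKw, split_mod, c1, c2, hlr] at h3
        rw [mem_coe, mem_filter, mem_product]
        refine ⟨⟨h1.2, h2.2⟩, ?_⟩
        simp only
        set x := (hi hc K q.1 + (a + κ) / 2 ^ hc K) % 2 ^ ρ
        set x' := (hi hc K' q.2 + (a' + κ') / 2 ^ hc K) % 2 ^ ρ'
        have e : ν - c0 = (2 ^ w K * 2 ^ hc K) * (x + x') := by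
          have e1 : ν = c0 + (2 ^ w K * 2 ^ hc K) * (x + x') := by
            rw [hc0, ← h3]; ring
          omega
        rw [e, Nat.mul_div_cancel_left _ (by positivity)]
      · intro q hq q' hq' he
        rw [mem_coe, mem_filter] at hq hq'
        have e1 := hq.2.trans hq'.2.symm
        simp only [hF, Prod.mk.injEq] at e1 he
        exact Prod.ext (lo_hi_inj e1.1 he.1) (lo_hi_inj e1.2 he.2)
    calc S.card ≤ 2 * M K (K - K') * T.card := card_le_mul_card_image_of_maps_to hmaps _ hfib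
      _ ≤ 2 * M K (K - K') * μ := Nat.mul_le_mul_left _ hTc
      _ = 2 * μ * M K (K - K') := by ring
  · -- the composite part of `K'` is determined
    have hlt : K' < K := by
      rcases Nat.eq_or_lt_of_le hKK with heq | hlt
      · exfalso
        subst heq
        exact hcase ⟨rfl, rfl, fun _ => rfl⟩
      · exact hlt
    have hbot : w K' + hc K' ≤ w K := by
      rcases Nat.eq_or_lt_of_le (hO.mono K K' hK' hKK) with heq | hlt'
      · rcases Nat.eq_zero_or_pos (hc K') with h0 | h0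
        · omega
        · exfalso
          obtain ⟨e1, e2⟩ := hO.same K K' hK' hKK heq h0
          exact hcase ⟨heq, e1.symm, fun _ => e2.symm⟩
      · exact hO.step K K' hK' hKK hlt'
    suffices hmain : S.card ≤ M K (K - K') by
      refine hmain.trans ?_
      calc M K (K - K') = 1 * M K (K - K') := (one_mul _).symm
        _ ≤ 2 * μ * M K (K - K') := Nat.mul_le_mul_right _ (by omega)
    rcases S.eq_empty_or_nonempty with he | ⟨q₀, hq₀⟩
    · rw [he]; simp
    have hlow : ∀ q ∈ S, 2 ^ w K' * ((lr C hc K' (lo hc K' q.2) + κ') % 2 ^ hc K') ≡ ν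
        [MOD 2 ^ (w K' + hc K')] := by
      intro q hq
      obtain ⟨-, -, h3⟩ := hmem q hq
      rw [← h3]
      have h4 : w K = (w K' + hc K') + (w K - (w K' + hc K')) := by omega
      have e : ∀ A B B' : ℕ, 2 ^ w K * A + 2 ^ w K' * (B + 2 ^ hc K' * B') = 2 ^ w K' * B +
          2 ^ (w K' + hc K') * (2 ^ (w K - (w K' + hc K')) * A + B') := by
        intro A B B'
        have : 2 ^ w K = 2 ^ w K' * 2 ^ hc K' * 2 ^ (w K - (w K' + hc K')) := by
          rw [← pow_add, ← pow_add]; congr 1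
        rw [this, pow_add]; ring
      rw [e]
      unfold Nat.ModEq
      rw [Nat.add_mul_mod_self_left]
    set x₀ := lo hc K' q₀.2 with hx₀
    have hlo : ∀ q ∈ S, lo hc K' q.2 = x₀ := by
      intro q hq
      have h1 := (hlow q hq).trans (hlow q₀ hq₀).symm
      rw [pow_add] at h1
      have h2 := Nat.ModEq.mul_left_cancel' (by positivity : (2:ℕ) ^ w K' ≠ 0) h1
      have h3 : lr C hc K' (lo hc K' q.2) + κ' ≡ lr C hc K' (lo hc K' q₀.2) + κ'
          [MOD 2 ^ hc K'] :=
        ((Nat.mod_modEq _ _).symm.trans h2).trans (Nat.mod_modEq _ _)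
      have h4 := Nat.ModEq.add_right_cancel' κ' h3
      have h5 : lr C hc K' (lo hc K' q.2) = lr C hc K' (lo hc K' q₀.2) :=
        Nat.ModEq.eq_of_lt_of_lt h4 lr_lt lr_lt
      exact lr_inj hO hK' (hmem q hq).2.1.1 (hmem q₀ hq₀).2.1.1 h5
    set a₀ := (lr C hc K' x₀ + κ') % 2 ^ hc K' with ha₀
    set k₀ := (lr C hc K' x₀ + κ') / 2 ^ hc K' with hk₀
    set ν₁ := (ν - 2 ^ w K' * a₀) / 2 ^ (w K' + hc K') with hν₁
    have heq : ∀ q ∈ S, 2 ^ (w K - (w K' + hc K')) *
        ((lr C hc K (lo hc K q.1) + 2 ^ hc K * hi hc K q.1 + κ) % 2 ^ (K - w K)) +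
        (hi hc K' q.2 + k₀) % 2 ^ ρ' = ν₁ := by
      intro q hq
      obtain ⟨-, -, h3⟩ := hmem q hq
      rw [hlo q hq] at h3
      have e : ∀ A B B' : ℕ, 2 ^ w K * A + 2 ^ w K' * (B + 2 ^ hc K' * B') = 2 ^ w K' * B +
          2 ^ (w K' + hc K') * (2 ^ (w K - (w K' + hc K')) * A + B') := by
        intro A B B'
        have : 2 ^ w K = 2 ^ w K' * 2 ^ hc K' * 2 ^ (w K - (w K' + hc K')) := by
          rw [← pow_add, ← pow_add]; congr 1; omega
        rw [this, pow_add]; ring
      rw [e] at h3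
      rw [hν₁, ← h3, Nat.add_sub_cancel_left, Nat.mul_div_cancel_left _ (by positivity)]
    rcases Nat.eq_zero_or_pos (hc K) with h0 | h0
    · -- plain window
      have hpp := hT.pp K K' hK' hlt (by omega) (by omega) κ k₀ ν₁
      refine le_trans (card_le_card_of_injOn (fun q => (hi hc K q.1, hi hc K' q.2)) ?_ ?_) hpp
      · intro q hq
        rw [mem_coe] at hq
        obtain ⟨h1, h2, -⟩ := hmem q hq
        rw [mem_coe, mem_filter, mem_product]
        refine ⟨⟨h1.2, h2.2⟩, ?_⟩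
        have h3 := heq q hq
        have h4 : lr C hc K (lo hc K q.1) = 0 := by unfold lr; rw [if_pos h0]
        rw [h4, h0, pow_zero, one_mul, zero_add] at h3
        simpa only [h0, add_zero] using h3
      · intro q hq q' hq' he
        rw [mem_coe] at hq hq'
        simp only [Prod.mk.injEq] at he
        refine Prod.ext (lo_hi_inj ?_ he.1) (lo_hi_inj ?_ he.2)
        · unfold lo; rw [if_pos h0, if_pos h0]
        · rw [hlo q hq, hlo q' hq']
    · -- composite window
      have hcp := hT.cp K K' hK' hlt h0 hbot hw κ k₀ ν₁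
      refine le_trans (card_le_card_of_injOn
        (fun q => (lr C hc K (lo hc K q.1), (hi hc K q.1, hi hc K' q.2))) ?_ ?_) hcp
      · intro q hq
        rw [mem_coe] at hq
        obtain ⟨h1, h2, -⟩ := hmem q hq
        rw [mem_coe, mem_filter, mem_product, mem_product]
        refine ⟨⟨?_, h1.2, h2.2⟩, heq q hq⟩
        simp only
        unfold Rs
        rw [mem_image]
        have h3 := h1.1
        unfold Lo at h3
        rw [if_neg (by omega)] at h3
        refine ⟨_, h3, ?_⟩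
        unfold lr
        rw [if_neg (by omega)]
      · intro q hq q' hq' he
        rw [mem_coe] at hq hq'
        simp only [Prod.mk.injEq] at he
        obtain ⟨e1, e2, e3⟩ := he
        refine Prod.ext (lo_hi_inj ?_ e2) (lo_hi_inj ?_ e3)
        · exact lr_inj hO hK (hmem q hq).1.1 (hmem q' hq').1.1 e1
        · rw [hlo q hq, hlo q' hq']

end

end Pool.Agent.ETS.TKS
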