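import Mathlib
import Pool.Agent.Helper29.ETK.NearT
import Pool.Agent.Helper86.ET.Win
import Pool.Agent.Helper83.ET.AllNear

/-!
# E-T (MP_12a1af_nt), project T*: the windows of the schedule

The data `w = wb c`, `hc = hcS c`, `ew = ewS c` of the windows of the schedule satisfy `WOrd`.
-/

open Finset

namespace Pool.Agent.ETS.TKS

open Pool.Agent.Helper29.ETK Pool.Agent.Helper83.ET

/-- length of the composite part of the window -/
def hcS (c K : ℕ) : ℕ := if wcomp c K then nb c (wb c K) else 0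

/-- index of the block width of the composite part of the window -/
def ewS (c K : ℕ) : ℕ := ep c (wb c K)

variable {c : ℕ} {TK : ℕ → Finset ℕ}

lemma hcS_pos {K : ℕ} : 0 < hcS c K ↔ wcomp c K := by
  unfold hcS
  have := nb_pos c (wb c K)
  split_ifs with h
  · simpa [h] using this
  · simp [h]

lemma hcS_of {K : ℕ} (h : wcomp c K) : hcS c K = nb c (wb c K) := by
  unfold hcS; rw [if_pos h]

lemma hcS_le (c K : ℕ) : hcS c K ≤ nb c (wb c K) := by
  unfold hcS; split_ifs <;> omega

/-- the window region of the schedule -/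
lemma wreg_sched (c K : ℕ) : wreg (wb c) (hcS c) (ewS c) K =
    if wcomp c K then Reg.winC (ep c (wb c K)) (wb c K) (nb c (wb c K)) K
    else Reg.win (wb c K) K := by
  have := nb_pos c (wb c K)
  unfold wreg hcS ewS
  by_cases h : wcomp c K
  · simp only [if_pos h]
    rw [if_neg (by omega)]
  · simp only [if_neg h, if_true]

/-- sizes from the size of the time -/
lemma epo_of_large (hc : 10 ≤ c) {K : ℕ} (hK : CC c ^ 64 ≤ K) : 21 ≤ epo c K := by
  have h1 := le_lg hc hK
  unfold epo; omega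

lemma ep_wb_of_large (hc : 10 ≤ c) {K : ℕ} (hK : CC c ^ 64 ≤ K) : 21 ≤ ep c (wb c K) := by
  have h1 := le_lg hc hK
  have h2 := epo_of_large hc hK
  have h3 := le_lg hc (wb_large hc (show 6 ≤ epo c K by omega))
  unfold ep; omega

lemma Hb_le_self {w : ℕ} (hw : 12 ≤ lg c w) : Hb c w ≤ w := by
  have h0 : w ≠ 0 := by rintro rfl; simp [lg] at hw
  exact (pow_le c (j0_le_lg hw)).trans (lg_le c h0)

lemma lt_eight_wb (hc : 10 ≤ c) {K : ℕ} (hK : 6 ≤ epo c K) : K < 8 * wb c K := by
  have h1 := lt_wb_add hc hK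
  have h2 := lg_wb hc hK
  have h3 := Hb_le_self (c := c) (w := wb c K) (by omega)
  omega

lemma two_Gq_le (hc : 10 ≤ c) {K : ℕ} (hK : 6 ≤ epo c K) :
    1024 * Gq c (epo c K) ≤ Hb c (wb c K) := by
  have h1 := G_small hc (show 5 ≤ epo c K by omega) (lt_eight_wb hc hK)
  have h2 : Wd c (wb c K) ≤ Hb c (wb c K) := by
    unfold Wd Hb j0; exact pow_le c (by omega)
  omega

lemma wb_hcS_le (hc : 10 ≤ c) {K : ℕ} (hK : 6 ≤ epo c K) : wb c K + hcS c K ≤ K := by
  have h0 := wb_le hc hK
  by_cases h : wcomp c K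
  · rw [hcS_of h]
    have h1 := h
    unfold wcomp at h1
    have h2 := two_Gq_le hc hK
    have h3 := nb_le_Hb c (wb c K)
    omega
  · unfold hcS; rw [if_neg h]; exact h0

lemma wcomp_mono (hc : 10 ≤ c) {K K' : ℕ} (hE : 6 ≤ epo c K') (h : K' ≤ K)
    (hw : wb c K' = wb c K) (h' : wcomp c K') : wcomp c K := by
  unfold wcomp at h' ⊢
  rw [← hw]
  have h1 : epo c K' ≤ epo c K := epo_mono h
  have h2 := Gq_mono hc (show 4 ≤ epo c K' by omega) h1
  omega

lemma wb_step (hc : 10 ≤ c) {K K' : ℕ} (hE' : 6 ≤ epo c K') (hE : 6 ≤ epo c K)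
    (hlt : wb c K' < wb c K) : wb c K' + nb c (wb c K') ≤ wb c K :=
  (born_of_lt_wb hc hE (by have := lg_wb hc hE'; omega) (nb_dvd_wb hc hE') hlt).2

lemma mk_two_dvd (hc : 20 ≤ c) : 2 ∣ CC c := dvd_pow_self 2 (by omega)

lemma mk_CC_ge (hc : 20 ≤ c) : 2 ^ 20 ≤ CC c := Nat.pow_le_pow_right (by norm_num) hc

/-- the window data of the schedule -/
theorem wOrd (hc : 20 ≤ c) {K1 : ℕ} (hK1 : CC c ^ 64 ≤ K1) :
    WOrd (mk (CC c) TK) (wb c) (hcS c) (ewS c) K1 132 := by
  have hc' : 10 ≤ c := by omega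
  have hE : ∀ K, K1 ≤ K → 6 ≤ epo c K := fun K hK => by
    have := epo_of_large hc' (hK1.trans hK)
    omega
  have hdvd : ∀ K, CC c ^ ewS c K ∣ nb c (wb c K) := fun K => by
    unfold ewS nb
    have := ep_lt_jn c (wb c K)
    exact pow_dvd' c (by omega)
  have hle : ∀ K, CC c ^ ewS c K ≤ nb c (wb c K) := fun K =>
    Nat.le_of_dvd (nb_pos c _) (hdvd K)
  exact
    { mono := fun K K' h1 h2 => wb_mono hc' (hE K' h1) h2
      same := fun K K' h1 h2 h3 h4 => by
        have h5 := hcS_pos.mp h4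
        have h6 := wcomp_mono hc' (hE K' h1) h2 h3 h5
        rw [hcS_of h5, hcS_of h6]
        unfold ewS
        rw [h3]
        exact ⟨rfl, rfl⟩
      step := fun K K' h1 h2 h3 => by
        have h4 := wb_step hc' (hE K' h1) (hE K (h1.trans h2)) h3
        have h5 := hcS_le c K'
        omega
      len := fun K h1 => wb_hcS_le hc' (hE K h1)
      good := fun K h1 h2 => by
        have h3 : 20 ≤ ewS c K := by
          have := ep_wb_of_large hc' (hK1.trans h1)
          unfold ewS; omega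
        have h4 : wb c K + (mk (CC c) TK).W (ewS c K) ≤ wb c K + hcS c K := by
          rw [hcS_of (hcS_pos.mp h2), mk_W]
          have := hle K
          omega
        exact RC.good_RTh (mk_RBase (mk_CC_ge hc) (mk_two_dvd hc) h3) h4
      pb := fun K h1 h2 => by
        have h3 : 20 ≤ ewS c K := by
          have := ep_wb_of_large hc' (hK1.trans h1)
          unfold ewS; omega
        have h4 : wb c K + (mk (CC c) TK).W (ewS c K) ≤ wb c K + hcS c K := by
          rw [hcS_of (hcS_pos.mp h2), mk_W]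
          have := hle K
          omega
        have h5 : (mk (CC c) TK).W (ewS c K) ∣ wb c K + hcS c K - wb c K := by
          rw [Nat.add_sub_cancel_left, hcS_of (hcS_pos.mp h2), mk_W]
          exact hdvd K
        exact (mk_RNear (mk_CC_ge hc) (mk_two_dvd hc)).ThTh _ _ _ h3 h4 h5
      one := by norm_num }

end Pool.Agent.ETS.TKS
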