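import Mathlib
import Pool.Agent.Helper86.ET.WinSched
import Pool.Agent.Helper84.ET.TK5
import Pool.Agent.Helper3.ETF.FinalDefs

/-!
# E-T (MP_12a1af_nt), project T*: the window facts of the schedule, from `TKGood`
-/

open Finset

namespace Pool.Agent.ETS.TKS

open Pool.Agent.Helper29.ETK Pool.Agent.Helper83.ET Pool.Agent.ETP

variable {c : ℕ} {TK : ℕ → Finset ℕ}

lemma Hb_eq' (c K : ℕ) : Hb c K = CC c ^ 8 * CC c ^ ep c K := by
  unfold Hb j0
  rw [pow_add]; ring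

lemma one_le_plog {b K : ℕ} : b ≤ plog b K := by
  unfold plog
  exact Nat.le_mul_of_pos_right _ (by positivity)

/-- the numbers of pairs fit -/
lemma Mb_le {a1 A b : ℕ} (hb : 264 * ((8 + A) * (136 + A + 16 * a1 * CC c ^ 8)) ≤ b) (K D : ℕ) :
    2 * 132 * Mb (fun K => a1 * Hb c K) A K D ≤ bwF b c K D := by
  unfold Mb bwF
  set W := CC c ^ ep c K with hW
  set q := W / (D + 1) with hq
  have h1 : 16 * (a1 * Hb c K) / (D + 1) ≤ 16 * a1 * CC c ^ 8 * (1 + q) := by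
    rw [Hb_eq', ← hW]
    have h2 : W ≤ (1 + q) * (D + 1) := by
      have h3 := Nat.lt_div_mul_add (a := W) (b := D + 1) (Nat.succ_pos D)
      rw [← hq] at h3
      calc W ≤ q * (D + 1) + (D + 1) := h3.le
        _ = (1 + q) * (D + 1) := by ring
    apply Nat.div_le_of_le_mul
    calc 16 * (a1 * (CC c ^ 8 * W)) = 16 * a1 * CC c ^ 8 * W := by ring
      _ ≤ 16 * a1 * CC c ^ 8 * ((1 + q) * (D + 1)) := Nat.mul_le_mul_left _ h2
      _ = (D + 1) * (16 * a1 * CC c ^ 8 * (1 + q)) := by ring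
  calc 2 * 132 * ((8 + A) * (136 + A + 16 * (a1 * Hb c K) / (D + 1)))
      ≤ 2 * 132 * ((8 + A) * ((136 + A) * (1 + q) + 16 * a1 * CC c ^ 8 * (1 + q))) := by
        refine Nat.mul_le_mul_left _ (Nat.mul_le_mul_left _ (Nat.add_le_add ?_ h1))
        exact Nat.le_mul_of_pos_right _ (Nat.succ_le_of_lt (Nat.lt_of_lt_of_le Nat.one_pos
          (Nat.le_add_right 1 q)))
    _ = 264 * ((8 + A) * (136 + A + 16 * a1 * CC c ^ 8)) * (1 + q) := by ring
    _ ≤ b * (1 + q) := Nat.mul_le_mul_right _ hb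
    _ ≤ plog b K * (1 + q) := Nat.mul_le_mul_right _ one_le_plog

lemma bwF_anti {b K D D' : ℕ} (h : D ≤ D') : bwF b c K D' ≤ bwF b c K D := by
  unfold bwF
  exact Nat.mul_le_mul_left _ (Nat.add_le_add_left (Nat.div_le_div_left (by omega) (by omega)) _)

/-- close times lie above the bottom of the window -/
lemma wb_le_near (hc : 10 ≤ c) {K K' : ℕ} (hK : 7 ≤ epo c K) (h : K < K' + gth c K) :
    wb c K ≤ K' := by
  have h1 := wb_add_le hc (show 6 ≤ epo c K by omega)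
  have h2 := lt_eight_wb hc (show 6 ≤ epo c K by omega)
  have h3 := lt_wb_add hc (show 6 ≤ epo c K by omega)
  have h4 := lg_wb hc (show 6 ≤ epo c K by omega)
  have h5 := Hb_le_self (c := c) (w := wb c K) (by omega)
  have h6 : 2 ≤ wb c K := by
    by_contra hn
    have h7 : wb c K ≤ 1 := by omega
    have h8 : lg c (wb c K) ≤ lg c 1 := Pool.Agent.Helper29.ETK.lg_mono h7
    have h9 : lg c 1 = 0 := by simp [lg]
    omega
  have h7 := G_small hc (show 5 ≤ epo c K by omega) (show K < 8 * (wb c K - 1) by omega)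
  have h8 : Wd c (wb c K - 1) ≤ Hb c (wb c K - 1) := by
    unfold Wd Hb j0; exact pow_le c (by omega)
  have h9 : gth c K ≤ Gq c (epo c K) := by
    unfold gth
    exact Gq_mono hc (by omega) (by omega)
  omega

section

variable {ok : ℕ → ℕ → Prop} {L : ℕ → ℕ} {a1 A b K1 : ℕ}

/-- size and distinct contents -/
theorem sched_good (hc : 20 ≤ c) (hK1 : CC c ^ 64 ≤ K1) {M : ℕ → ℕ → ℕ} {R : ℕ → ℕ → Finset ℕ}
    (hT : TKGood (wb c) (hcS c) (ewS c) R ok K1 L M TK) {K : ℕ} (hK : K1 ≤ K) :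
    ((wreg (wb c) (hcS c) (ewS c) K).V (mk (CC c) TK)).card ^ 2 ≤
      2 ^ ((wreg (wb c) (hcS c) (ewS c) K).len (mk (CC c) TK)) ∧
      (wreg (wb c) (hcS c) (ewS c) K).Inj (mk (CC c) TK) :=
  wreg_good (wOrd hc hK1) hT hK

/-- pairs of window variables -/
theorem sched_WP (hc : 20 ≤ c) (hK1 : CC c ^ 64 ≤ K1)
    (hT : TKGood (wb c) (hcS c) (ewS c) (Rs (mk (CC c) TK)) ok K1 L
      (Mb (fun K => a1 * Hb c K) A) TK)
    (hb : 264 * ((8 + A) * (136 + A + 16 * a1 * CC c ^ 8)) ≤ b) {K K' : ℕ} (hK' : K1 ≤ K')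
    (hKK : K' ≤ K) (hw : wb c K ≤ K') :
    WP (mk (CC c) TK) (wreg (wb c) (hcS c) (ewS c) K) (wreg (wb c) (hcS c) (ewS c) K')
      (bwF b c K (K - K')) :=
  fun κ κ' ν => (wreg_WP (wOrd hc hK1) hT hK' hKK hw κ κ' ν).trans (Mb_le hb K (K - K'))

end

end Pool.Agent.ETS.TKS
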