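import Mathlib
import Pool.Agent.Helper86.ET.WinFin0
import Pool.Agent.Helper3.ETF.Final2

/-!
# E-T (MP_12a1af_nt), project T*: `WinGood` from `TKGood`
-/

open Finset

namespace Pool.Agent.ETS.TKS

open Pool.Agent.Helper29.ETK Pool.Agent.Helper83.ET Pool.Agent.ETP

variable {c : ℕ} {TK : ℕ → Finset ℕ}

lemma wreg_eq (c K : ℕ) : wreg (wb c) (hcS c) (ewS c) K = winReg c K := wreg_sched c K

/-- **the facts of the windows** -/
theorem winGood_of {ok : ℕ → ℕ → Prop} {L : ℕ → ℕ} {a1 A b K1 : ℕ} (hc : 20 ≤ c)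
    (hK1 : CC c ^ 64 ≤ K1)
    (hT : TKGood (wb c) (hcS c) (ewS c) (Rs (mk (CC c) TK)) ok K1 L
      (Mb (fun K => a1 * Hb c K) A) TK)
    (hb : 264 * ((8 + A) * (136 + A + 16 * a1 * CC c ^ 8)) ≤ b) :
    WinGood b c K1 (mk (CC c) TK) where
  good := fun K hK => by
    rw [← wreg_eq]
    exact sched_good hc hK1 hT hK
  near := fun K K' h1 h2 h3 => by
    rw [← wreg_eq, ← wreg_eq]
    have h4 := epo_of_large (by omega) (hK1.trans (h1.trans h2))
    exact sched_WP hc hK1 hT hb h1 h2 (wb_le_near (by omega) (by omega) h3)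
  far := fun K K' h1 h2 h3 => by
    rw [← wreg_eq, ← wreg_eq]
    refine WP.mono (sched_WP hc hK1 hT hb h1 (by omega) h3) ?_
    unfold wnF
    exact bwF_anti (by omega)

end Pool.Agent.ETS.TKS
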